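import Mathlib

/-!
# The polynomials `F`, `G = F^{m+1}`, `R`, `E` in characteristic `p = 2m+3`
-/

namespace Nef87

open Polynomial Finset

section Ring

variable {A : Type*} [CommRing A]

/-- The monic sextic with roots `z i`. -/
noncomputable def fz (z : Fin 6 → A) : A[X] := ∏ i, (X - C (z i))

/-- The reversed sextic. -/
noncomputable def Fz (z : Fin 6 → A) : A[X] := ∏ i, (1 - C (z i) * X)

/-- `F^{(p-1)/2}` with `p = 2m+3`. -/
noncomputable def Gz (m : ℕ) (z : Fin 6 → A) : A[X] := Fz z ^ (m + 1)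

/-- The truncation of `G` to degree `≤ 2m = p-3`. -/
noncomputable def Rs (m : ℕ) (z : Fin 6 → A) : A[X] :=
  ∑ k ∈ range (2 * m + 1), monomial k ((Gz m z).coeff k)

/-- The polynomial part of `Z^p / √f`. -/
noncomputable def Rz (m : ℕ) (z : Fin 6 → A) : A[X] := reflect (2 * m) (Rs m z)

/-- `E = 2 f R' + f' R`. -/
noncomputable def Ez (m : ℕ) (z : Fin 6 → A) : A[X] :=
  2 * fz z * derivative (Rz m z) + derivative (fz z) * Rz m z

/-- The Euler operator. -/
noncomputable def th (P : A[X]) : A[X] := X * derivative P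

lemma coeff_th (P : A[X]) (n : ℕ) : (th P).coeff n = n * P.coeff n := by
  cases n with
  | zero => simp [th]
  | succ n => simp [th, coeff_X_mul, coeff_derivative, mul_comm]

lemma natDegree_Fz (z : Fin 6 → A) : (Fz z).natDegree ≤ 6 := by
  unfold Fz
  refine (natDegree_prod_le _ _).trans ?_
  have : ∀ i ∈ (univ : Finset (Fin 6)), (1 - C (z i) * X).natDegree ≤ 1 := by
    intro i _
    have : (1 - C (z i) * X : A[X]) = C (-z i) * X + C 1 := by simp; ring
    rw [this]
    exact natDegree_linear_le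
  have h2 := Finset.sum_le_sum this
  simpa using h2

lemma reflect_linear (a : A) : reflect 1 (1 - C a * X) = X - C a := by
  ext n
  rw [coeff_reflect]
  rcases n with _ | _ | n
  · have : revAt 1 0 = 1 := by simp [revAt_le]
    rw [this]; simp [coeff_one]
  · have : revAt 1 1 = 0 := by simp [revAt_le]
    simp [coeff_one, coeff_X, coeff_C]
  · have : revAt 1 (n + 2) = n + 2 := by
      rw [revAt_eq_self_of_lt (by omega)]
    rw [this]
    simp [coeff_one, coeff_X, coeff_C]

lemma reflect_prod_linear (s : Finset (Fin 6)) (z : Fin 6 → A) :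
    reflect s.card (∏ i ∈ s, (1 - C (z i) * X)) = ∏ i ∈ s, (X - C (z i)) ∧
    (∏ i ∈ s, (1 - C (z i) * X)).natDegree ≤ s.card := by
  induction s using Finset.induction_on with
  | empty => simp
  | insert a s ha ih =>
    have h1 : (1 - C (z a) * X).natDegree ≤ 1 := by
      have : (1 - C (z a) * X : A[X]) = C (-z a) * X + C 1 := by simp; ring
      rw [this]
      exact natDegree_linear_le
    rw [Finset.prod_insert ha, Finset.prod_insert ha, Finset.card_insert_of_notMem ha]
    refine ⟨?_, (natDegree_mul_le).trans ?_⟩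
    · rw [add_comm s.card 1, reflect_mul _ _ h1 ih.2, reflect_linear, ih.1]
    · omega

lemma reflect_Fz (z : Fin 6 → A) : reflect 6 (Fz z) = fz z := by
  have := (reflect_prod_linear (univ : Finset (Fin 6)) z).1
  simpa [Fz, fz] using this

lemma natDegree_Rs (m : ℕ) (z : Fin 6 → A) : (Rs m z).natDegree ≤ 2 * m := by
  unfold Rs
  refine natDegree_sum_le_of_forall_le _ _ ?_
  intro k hk
  exact (natDegree_monomial_le _).trans (by simp at hk; omega)

lemma coeff_Rs (m : ℕ) (z : Fin 6 → A) (k : ℕ) :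
    (Rs m z).coeff k = if k ≤ 2 * m then (Gz m z).coeff k else 0 := by
  unfold Rs
  simp only [finsetSum_coeff, coeff_monomial]
  rw [Finset.sum_ite_eq' (range (2 * m + 1)) k]
  simp [Nat.lt_succ_iff]

/-- Euler operator and reflection. -/
lemma th_reflect (N : ℕ) (P : A[X]) (hP : P.natDegree ≤ N) :
    th (reflect N P) = (N : A[X]) * reflect N P - reflect N (th P) := by
  ext i
  rw [coeff_th, coeff_sub, coeff_natCast_mul, coeff_reflect, coeff_reflect, coeff_th]
  by_cases hi : i ≤ N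
  · rw [revAt_le hi]
    rw [Nat.cast_sub hi]; ring
  · rw [revAt_eq_self_of_lt (by omega)]
    rw [coeff_eq_zero_of_natDegree_lt (by omega)]
    simp

lemma natDegree_th_le (N : ℕ) (P : A[X]) (hP : P.natDegree ≤ N) : (th P).natDegree ≤ N := by
  rw [natDegree_le_iff_coeff_eq_zero]
  intro n hn
  rw [coeff_th, coeff_eq_zero_of_natDegree_lt (by omega)]
  simp

lemma X_mul_Ez (m : ℕ) (z : Fin 6 → A) (hp : ((2 * m + 3 : ℕ) : A) = 0) :
    X * Ez m z = - reflect (6 + 2 * m) (2 * Fz z * th (Rs m z) + th (Fz z) * Rs m z) := by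
  have hF := natDegree_Fz z
  have hR := natDegree_Rs m z
  have h1 : X * Ez m z = 2 * (fz z * th (Rz m z)) + th (fz z) * Rz m z := by
    simp only [Ez, th]; ring
  rw [h1]
  have h2 : th (fz z) = (6 : A[X]) * fz z - reflect 6 (th (Fz z)) := by
    rw [← reflect_Fz, th_reflect 6 _ hF]; simp
  have h3 : th (Rz m z) = ((2 * m : ℕ) : A[X]) * Rz m z - reflect (2 * m) (th (Rs m z)) := by
    rw [Rz, th_reflect (2 * m) _ hR]
  have h4 : reflect (6 + 2 * m) (2 * Fz z * th (Rs m z) + th (Fz z) * Rs m z) =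
      2 * (fz z * reflect (2 * m) (th (Rs m z))) + reflect 6 (th (Fz z)) * Rz m z := by
    rw [reflect_add, mul_assoc]
    have e1 : reflect (6 + 2 * m) (2 * (Fz z * th (Rs m z))) =
        2 * reflect (6 + 2 * m) (Fz z * th (Rs m z)) := by
      have : (2 : A[X]) = C 2 := by rfl
      rw [this, reflect_C_mul]
    rw [e1, reflect_mul _ _ hF (natDegree_th_le _ _ hR),
      reflect_mul _ _ (natDegree_th_le _ _ hF) hR, reflect_Fz, Rz]
  rw [h4, h2, h3]
  have hp' : (4 * (m : A[X]) + 6) = 0 := by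
    have : ((2 * m + 3 : ℕ) : A[X]) = 0 := by
      have := congrArg (C : A → A[X]) hp
      rwa [C_0, ← Polynomial.C_eq_natCast] at *
    have h5 : (4 * (m : A[X]) + 6) = 2 * ((2 * m + 3 : ℕ) : A[X]) := by push_cast; ring
    rw [h5, this, mul_zero]
  push_cast
  linear_combination (fz z * Rz m z) * hp'

lemma ode_Gz (m : ℕ) (z : Fin 6 → A) (hp : ((2 * m + 3 : ℕ) : A) = 0) :
    2 * Fz z * th (Gz m z) + th (Fz z) * Gz m z = 0 := by
  have hp' : (2 * (m : A[X]) + 3) = 0 := by
    have : ((2 * m + 3 : ℕ) : A[X]) = 0 := by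
      have := congrArg (C : A → A[X]) hp
      rwa [C_0, ← Polynomial.C_eq_natCast] at *
    have h5 : (2 * (m : A[X]) + 3) = ((2 * m + 3 : ℕ) : A[X]) := by push_cast; ring
    rw [h5, this]
  have h1 : th (Gz m z) = (m + 1) * Fz z ^ m * th (Fz z) := by
    unfold Gz th
    rw [derivative_pow]
    simp only [Nat.add_sub_cancel, C_eq_natCast]
    push_cast
    ring
  rw [h1]
  unfold Gz
  linear_combination (Fz z ^ (m + 1) * th (Fz z)) * hp'

/-- `2 F θ(R*) + θ(F) R*` equals minus the corresponding expression in the tail. -/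
lemma coeff_H (m : ℕ) (z : Fin 6 → A) (hp : ((2 * m + 3 : ℕ) : A) = 0) (n : ℕ) :
    (2 * Fz z * th (Rs m z) + th (Fz z) * Rs m z).coeff n =
      - ∑ x ∈ antidiagonal n, if 2 * m < x.2 then
          ((2 * x.2 + x.1 : ℕ) : A) * ((Fz z).coeff x.1 * (Gz m z).coeff x.2) else 0 := by
  have h0 : (2 * Fz z * th (Gz m z) + th (Fz z) * Gz m z).coeff n = 0 := by
    rw [ode_Gz m z hp, coeff_zero]
  have key : ∀ Q : A[X], (2 * Fz z * th Q + th (Fz z) * Q).coeff n =
      ∑ x ∈ antidiagonal n, ((2 * x.2 + x.1 : ℕ) : A) * ((Fz z).coeff x.1 * Q.coeff x.2) := by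
    intro Q
    have : 2 * Fz z * th Q + th (Fz z) * Q = (2 : ℕ) • (Fz z * th Q) + th (Fz z) * Q := by
      simp [nsmul_eq_mul]; ring
    rw [this, coeff_add, coeff_smul, coeff_mul, coeff_mul, Finset.smul_sum, ← Finset.sum_add_distrib]
    refine Finset.sum_congr rfl fun x _ => ?_
    rw [coeff_th, coeff_th]
    push_cast
    simp only [nsmul_eq_mul]
    push_cast
    ring
  rw [key] at h0 ⊢
  rw [eq_neg_iff_add_eq_zero, ← Finset.sum_add_distrib]
  refine Eq.trans (Finset.sum_congr rfl fun x _ => ?_) h0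
  rw [coeff_Rs]
  by_cases hx : x.2 ≤ 2 * m
  · rw [if_pos hx, if_neg (by omega)]; ring
  · rw [if_neg hx, if_pos (by omega)]; ring

lemma natDegree_Rz (m : ℕ) (z : Fin 6 → A) : (Rz m z).natDegree ≤ 2 * m := by
  rw [natDegree_le_iff_coeff_eq_zero]
  intro n hn
  rw [Rz, coeff_reflect, revAt_eq_self_of_lt hn, coeff_Rs, if_neg (by omega)]

lemma natDegree_fz_le (z : Fin 6 → A) : (fz z).natDegree ≤ 6 := by
  rw [natDegree_le_iff_coeff_eq_zero]
  intro n hn
  rw [← reflect_Fz, coeff_reflect, revAt_eq_self_of_lt hn]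
  exact coeff_eq_zero_of_natDegree_lt (lt_of_le_of_lt (natDegree_Fz z) hn)

lemma natDegree_deriv_le {N : ℕ} {P : A[X]} (hP : P.natDegree ≤ N) :
    (X * derivative P).natDegree ≤ N := natDegree_th_le N P hP

/-- Coefficients of `E`: `E_j = ∑_{a+b = 2m+5-j, b > 2m} (2b+a) F_a G_b` for `j ≤ 2m+5`. -/
lemma coeff_Ez (m : ℕ) (z : Fin 6 → A) (hp : ((2 * m + 3 : ℕ) : A) = 0) (j n : ℕ)
    (hj : j + n = 2 * m + 5) :
    (Ez m z).coeff j = ∑ x ∈ antidiagonal n, if 2 * m < x.2 then
          ((2 * x.2 + x.1 : ℕ) : A) * ((Fz z).coeff x.1 * (Gz m z).coeff x.2) else 0 := by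
  have h1 : (X * Ez m z).coeff (j + 1) = (Ez m z).coeff j := coeff_X_mul _ _
  rw [← h1, X_mul_Ez m z hp, coeff_neg, coeff_reflect, revAt_le (by omega), coeff_H m z hp]
  rw [show 6 + 2 * m - (j + 1) = n by omega, neg_neg]

lemma natDegree_Ez_le (m : ℕ) (z : Fin 6 → A) (hp : ((2 * m + 3 : ℕ) : A) = 0) :
    (Ez m z).natDegree ≤ 4 := by
  rw [natDegree_le_iff_coeff_eq_zero]
  intro j hj
  by_cases h : j ≤ 2 * m + 5
  · rw [coeff_Ez m z hp j (2 * m + 5 - j) (by omega)]
    refine Finset.sum_eq_zero fun x hx => ?_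
    rw [HasAntidiagonal.mem_antidiagonal] at hx
    rw [if_neg (by omega)]
  · have h1 : (X * Ez m z).coeff (j + 1) = (Ez m z).coeff j := coeff_X_mul _ _
    have h2 : X * Ez m z = 2 * (fz z * th (Rz m z)) + th (fz z) * Rz m z := by
      simp only [Ez, th]; ring
    rw [← h1, h2]
    apply coeff_eq_zero_of_natDegree_lt
    refine lt_of_le_of_lt (natDegree_add_le _ _) ?_
    have a1 := natDegree_fz_le z
    have a2 := natDegree_Rz m z
    have a3 := natDegree_th_le _ _ a1
    have a4 := natDegree_th_le _ _ a2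
    have a5 : (2 * (fz z * th (Rz m z))).natDegree ≤ 6 + 2 * m := by
      refine (natDegree_mul_le).trans ?_
      have := (natDegree_mul_le (p := fz z) (q := th (Rz m z)))
      have h2' : (2 : A[X]).natDegree = 0 := natDegree_ofNat 2
      omega
    have a6 := (natDegree_mul_le (p := th (fz z)) (q := Rz m z))
    omega

lemma coeff_Ez_four (m : ℕ) (z : Fin 6 → A) (hp : ((2 * m + 3 : ℕ) : A) = 0) :
    (Ez m z).coeff 4 = -4 * (Gz m z).coeff (2 * m + 1) := by
  rw [coeff_Ez m z hp 4 (2 * m + 1) (by omega)]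
  rw [Finset.sum_eq_single (0, 2 * m + 1)]
  · rw [if_pos (by simp)]
    have h1 : (Fz z).coeff 0 = 1 := by
      simp [Fz, coeff_zero_eq_eval_zero, eval_prod]
    simp only [h1, one_mul]
    have : ((2 * (2 * m + 1) + 0 : ℕ) : A) = -4 + 2 * ((2 * m + 3 : ℕ) : A) := by
      push_cast; ring
    rw [this, hp]; ring
  · intro x hx hne
    rw [HasAntidiagonal.mem_antidiagonal] at hx
    rw [if_neg]
    intro h
    apply hne
    ext <;> simp <;> omega
  · intro h
    exact absurd (by simp) h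

lemma coeff_Fz_zero (z : Fin 6 → A) : (Fz z).coeff 0 = 1 := by
  simp [Fz, coeff_zero_eq_eval_zero, eval_prod]

lemma coeff_Ez_three (m : ℕ) (z : Fin 6 → A) (hp : ((2 * m + 3 : ℕ) : A) = 0)
    (hPhi : (Gz m z).coeff (2 * m + 1) = 0) :
    (Ez m z).coeff 3 = -2 * (Gz m z).coeff (2 * m + 2) := by
  rw [coeff_Ez m z hp 3 (2 * m + 2) (by omega)]
  rw [Finset.sum_eq_single (0, 2 * m + 2)]
  · rw [if_pos (by simp)]
    simp only [coeff_Fz_zero, one_mul]
    have : ((2 * (2 * m + 2) + 0 : ℕ) : A) = -2 + 2 * ((2 * m + 3 : ℕ) : A) := by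
      push_cast; ring
    rw [this, hp]; ring
  · intro x hx hne
    rw [HasAntidiagonal.mem_antidiagonal] at hx
    by_cases h : 2 * m < x.2
    · rw [if_pos h]
      have : x.2 = 2 * m + 1 := by
        by_contra hc
        apply hne
        ext <;> simp <;> omega
      rw [this, hPhi]; ring
    · rw [if_neg h]
  · intro h
    exact absurd (by simp) h

lemma coeff_Ez_two (m : ℕ) (z : Fin 6 → A) (hp : ((2 * m + 3 : ℕ) : A) = 0)
    (hPhi : (Gz m z).coeff (2 * m + 1) = 0) (hTh : (Gz m z).coeff (2 * m + 2) = 0) :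
    (Ez m z).coeff 2 = 0 := by
  rw [coeff_Ez m z hp 2 (2 * m + 3) (by omega)]
  refine Finset.sum_eq_zero fun x hx => ?_
  rw [HasAntidiagonal.mem_antidiagonal] at hx
  by_cases h : 2 * m < x.2
  · rw [if_pos h]
    rcases (by omega : x.2 = 2 * m + 1 ∨ x.2 = 2 * m + 2 ∨ (x.2 = 2 * m + 3 ∧ x.1 = 0)) with h | h | h
    · rw [h, hPhi]; ring
    · rw [h, hTh]; ring
    · rw [h.1, h.2]
      have : ((2 * (2 * m + 3) + 0 : ℕ) : A) = 2 * ((2 * m + 3 : ℕ) : A) := by
        push_cast; ring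
      rw [this, hp]; ring
  · rw [if_neg h]

end Ring

end Nef87
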