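import Pool.Agent.Lib_helper87.Nef.CharP

/-!
# Uniqueness of `R`, translation covariance, values at the roots
-/

namespace Nef87

open Polynomial Finset

section Ring

variable {A : Type*} [CommRing A]

lemma coeff_Rz (m : ℕ) (z : Fin 6 → A) (j k : ℕ) (h : j + k = 2 * m) :
    (Rz m z).coeff j = (Gz m z).coeff k := by
  rw [Rz, coeff_reflect, revAt_le (by omega), coeff_Rs, if_pos (by omega)]
  congr 1
  omega

lemma coeff_Gz_zero (m : ℕ) (z : Fin 6 → A) : (Gz m z).coeff 0 = 1 := by
  simp [Gz, Fz, coeff_zero_eq_eval_zero, eval_prod]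

lemma eval_fz (z : Fin 6 → A) (i : Fin 6) : (fz z).eval (z i) = 0 := by
  unfold fz
  rw [eval_prod]
  exact Finset.prod_eq_zero (mem_univ i) (by simp)

lemma eval_deriv_fz (z : Fin 6 → A) (i : Fin 6) :
    (derivative (fz z)).eval (z i) = ∏ j ∈ univ.erase i, (z i - z j) := by
  unfold fz
  rw [← Finset.mul_prod_erase univ _ (mem_univ i), derivative_mul, eval_add, eval_mul, eval_mul,
    eval_prod]
  simp

lemma eval_Ez (m : ℕ) (z : Fin 6 → A) (i : Fin 6) :
    (Ez m z).eval (z i) = (∏ j ∈ univ.erase i, (z i - z j)) * (Rz m z).eval (z i) := by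
  rw [Ez, eval_add, eval_mul, eval_mul, eval_mul, eval_fz, eval_deriv_fz]
  ring

end Ring

section Map

variable {A B : Type*} [CommRing A] [CommRing B] (φ : A →+* B)

lemma Fz_map (z : Fin 6 → A) : (Fz z).map φ = Fz (φ ∘ z) := by
  simp [Fz, Polynomial.map_prod]

lemma fz_map (z : Fin 6 → A) : (fz z).map φ = fz (φ ∘ z) := by
  simp [fz, Polynomial.map_prod]

lemma Gz_map (m : ℕ) (z : Fin 6 → A) : (Gz m z).map φ = Gz m (φ ∘ z) := by
  simp [Gz, Fz_map]

lemma Rz_map (m : ℕ) (z : Fin 6 → A) : (Rz m z).map φ = Rz m (φ ∘ z) := by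
  ext j
  rw [coeff_map]
  by_cases h : j ≤ 2 * m
  · rw [coeff_Rz m z j (2 * m - j) (by omega), coeff_Rz m _ j (2 * m - j) (by omega), ← Gz_map,
      coeff_map]
  · rw [coeff_eq_zero_of_natDegree_lt (lt_of_le_of_lt (natDegree_Rz m z) (by omega)),
      coeff_eq_zero_of_natDegree_lt (lt_of_le_of_lt (natDegree_Rz m _) (by omega)), map_zero]

lemma Ez_map (m : ℕ) (z : Fin 6 → A) : (Ez m z).map φ = Ez m (φ ∘ z) := by
  simp [Ez, Polynomial.map_add, Polynomial.map_mul, fz_map, Rz_map, ← derivative_map]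

end Map

section Field

variable {K : Type*} [Field K]

lemma two_ne_zero_of_char {m : ℕ} [CharP K (2 * m + 3)] : (2 : K) ≠ 0 := by
  intro h
  have : ((2 : ℕ) : K) = 0 := by exact_mod_cast h
  rw [CharP.cast_eq_zero_iff K (2 * m + 3)] at this
  have := Nat.le_of_dvd (by norm_num) this
  omega

lemma fz_monic (z : Fin 6 → K) : (fz z).Monic := monic_prod_of_monic _ _ fun i _ => monic_X_sub_C _

lemma natDegree_fz (z : Fin 6 → K) : (fz z).natDegree = 6 := by
  unfold fz
  rw [natDegree_prod_of_monic _ _ fun i _ => monic_X_sub_C _]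
  simp

lemma Rz_monic (m : ℕ) (z : Fin 6 → K) : (Rz m z).Monic := by
  have h : (Rz m z).coeff (2 * m) = 1 := by
    rw [coeff_Rz m z (2 * m) 0 (by omega), coeff_Gz_zero]
  exact monic_of_natDegree_le_of_coeff_eq_one _ (natDegree_Rz m z) h

lemma natDegree_Rz_eq (m : ℕ) (z : Fin 6 → K) : (Rz m z).natDegree = 2 * m := by
  have h : (Rz m z).coeff (2 * m) = 1 := by
    rw [coeff_Rz m z (2 * m) 0 (by omega), coeff_Gz_zero]
  exact natDegree_eq_of_le_of_coeff_ne_zero (natDegree_Rz m z) (by rw [h]; exact one_ne_zero)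

/-- The only polynomial `D` of degree `< 2m = p-3` with `deg (2 f D' + f' D) ≤ 4` is `0`. -/
lemma uniq_aux (m : ℕ) [CharP K (2 * m + 3)] (hprime : (2 * m + 3).Prime)
    (f D : K[X]) (hf : f.Monic) (hf6 : f.natDegree = 6)
    (hD : D.natDegree < 2 * m ∨ D = 0)
    (h : (2 * f * derivative D + derivative f * D).natDegree ≤ 4) : D = 0 := by
  by_contra hne
  have hD : D.natDegree < 2 * m := hD.resolve_right hne
  set d := D.natDegree with hd
  have h1 : (X * (2 * f * derivative D + derivative f * D)).coeff (d + 6) = 0 := by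
    rw [show d + 6 = (d + 5) + 1 by ring, coeff_X_mul]
    exact coeff_eq_zero_of_natDegree_lt (by omega)
  have h2 : X * (2 * f * derivative D + derivative f * D) = 2 * (f * th D) + th f * D := by
    simp only [th]; ring
  have e1 : (f * th D).coeff (d + 6) = f.coeff 6 * (th D).coeff d := by
    rw [add_comm]
    exact coeff_mul_add_eq_of_natDegree_le hf6.le (natDegree_th_le _ _ hd.ge)
  have e2 : (th f * D).coeff (d + 6) = (th f).coeff 6 * D.coeff d := by
    rw [add_comm]
    exact coeff_mul_add_eq_of_natDegree_le (natDegree_th_le _ _ hf6.le) hd.ge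
  have e3 : (2 * (f * th D)).coeff (d + 6) = 2 * (f * th D).coeff (d + 6) := by
    have : (2 : K[X]) = C 2 := rfl
    rw [this, coeff_C_mul]
  rw [h2, coeff_add, e3, e1, e2, coeff_th, coeff_th] at h1
  have hf' : f.coeff 6 = 1 := by rw [← hf6]; exact hf
  have hlc : D.coeff d ≠ 0 := by
    rw [hd, coeff_natDegree]; exact leadingCoeff_ne_zero.mpr hne
  rw [hf'] at h1
  have h3 : ((2 * (d + 3) : ℕ) : K) * D.coeff d = 0 := by
    push_cast at h1 ⊢
    linear_combination h1
  rcases mul_eq_zero.mp h3 with h4 | h4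
  · rw [CharP.cast_eq_zero_iff K (2 * m + 3)] at h4
    rcases (Nat.Prime.dvd_mul hprime).mp h4 with h5 | h5
    · have := Nat.le_of_dvd (by norm_num) h5
      omega
    · have := Nat.le_of_dvd (by omega) h5
      omega
  · exact hlc h4

lemma fz_comp (z : Fin 6 → K) (a : K) :
    (fz (fun i => z i - a)).comp (X - C a) = fz z := by
  unfold fz
  rw [Polynomial.prod_comp]
  refine Finset.prod_congr rfl fun i _ => ?_
  simp

lemma Ez_comp_aux (m : ℕ) (z : Fin 6 → K) (a : K) :
    (Ez m (fun i => z i - a)).comp (X - C a) =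
      2 * fz z * derivative ((Rz m (fun i => z i - a)).comp (X - C a)) +
        derivative (fz z) * ((Rz m (fun i => z i - a)).comp (X - C a)) := by
  have h1 : derivative ((Rz m (fun i => z i - a)).comp (X - C a)) =
      (derivative (Rz m (fun i => z i - a))).comp (X - C a) := by
    rw [derivative_comp]; simp
  have h2 : derivative (fz z) = (derivative (fz (fun i => z i - a))).comp (X - C a) := by
    rw [← fz_comp z a, derivative_comp]; simp
  rw [h1, h2, Ez]
  simp only [add_comp, mul_comp]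
  rw [fz_comp]
  simp

lemma Rz_comp (m : ℕ) [CharP K (2 * m + 3)] (hprime : (2 * m + 3).Prime) (z : Fin 6 → K) (a : K) :
    (Rz m (fun i => z i - a)).comp (X - C a) = Rz m z := by
  have hp0 : ((2 * m + 3 : ℕ) : K) = 0 := CharP.cast_eq_zero K (2 * m + 3)
  set R1 := (Rz m (fun i => z i - a)).comp (X - C a) with hR1
  have hR1m : R1.Monic := (Rz_monic m _).comp (monic_X_sub_C a) (by simp)
  have hR1d : R1.natDegree = 2 * m := by
    rw [hR1, natDegree_comp, natDegree_Rz_eq]; simp
  rw [← sub_eq_zero]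
  refine uniq_aux m hprime (fz z) _ (fz_monic z) (natDegree_fz z) ?_ ?_
  · by_cases h0 : R1 - Rz m z = 0
    · exact Or.inr h0
    · left
      have hdeg : (R1 - Rz m z).degree < R1.degree := by
        refine degree_sub_lt_left ?_ hR1m.ne_zero ?_
        · rw [degree_eq_natDegree hR1m.ne_zero, degree_eq_natDegree (Rz_monic m z).ne_zero, hR1d,
            natDegree_Rz_eq]
        · rw [hR1m.leadingCoeff, (Rz_monic m z).leadingCoeff]
      have := natDegree_lt_natDegree h0 hdeg
      omega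
  · have h3 : 2 * fz z * derivative (R1 - Rz m z) + derivative (fz z) * (R1 - Rz m z) =
        (Ez m (fun i => z i - a)).comp (X - C a) - Ez m z := by
      rw [Ez_comp_aux, ← hR1, Ez, derivative_sub]; ring
    rw [h3]
    refine (natDegree_sub_le _ _).trans ?_
    refine max_le ?_ (natDegree_Ez_le m z hp0)
    rw [natDegree_comp]
    have := natDegree_Ez_le m (fun i => z i - a) hp0
    simpa using this

lemma Ez_comp (m : ℕ) [CharP K (2 * m + 3)] (hprime : (2 * m + 3).Prime) (z : Fin 6 → K) (a : K) :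
    (Ez m (fun i => z i - a)).comp (X - C a) = Ez m z := by
  rw [Ez_comp_aux, Rz_comp m hprime, Ez]

/-- The value of `R` at a root is the coefficient of `u^{p-3}` in the translated `G`. -/
lemma eval_Rz (m : ℕ) [CharP K (2 * m + 3)] (hprime : (2 * m + 3).Prime) (z : Fin 6 → K) (a : K) :
    (Rz m z).eval a = (Gz m (fun j => z j - a)).coeff (2 * m) := by
  rw [← Rz_comp m hprime z a, eval_comp]
  simp only [eval_sub, eval_X, eval_C, sub_self]
  rw [← coeff_zero_eq_eval_zero, coeff_Rz m _ 0 (2 * m) (by omega)]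

/-- Coefficient of leading term is translation invariant. -/
lemma coeff_comp_top {P : K[X]} (a : K) (n : ℕ) (h : P.natDegree ≤ n) :
    (P.comp (X - C a)).coeff n = P.coeff n := by
  rcases h.lt_or_eq with h | h
  · rw [coeff_eq_zero_of_natDegree_lt h, coeff_eq_zero_of_natDegree_lt]
    rw [natDegree_comp]; simpa using h
  · have : (P.comp (X - C a)).natDegree = n := by rw [natDegree_comp]; simpa using h
    conv_lhs => rw [← this]
    rw [coeff_natDegree, leadingCoeff_comp (by simp)]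
    simp [leadingCoeff, h]

lemma Phi_translate (m : ℕ) [CharP K (2 * m + 3)] (hprime : (2 * m + 3).Prime) (z : Fin 6 → K)
    (a : K) : (Gz m (fun j => z j - a)).coeff (2 * m + 1) = (Gz m z).coeff (2 * m + 1) := by
  have hp0 : ((2 * m + 3 : ℕ) : K) = 0 := CharP.cast_eq_zero K (2 * m + 3)
  have h1 := coeff_Ez_four m z hp0
  have h2 := coeff_Ez_four m (fun j => z j - a) hp0
  rw [← Ez_comp m hprime z a, coeff_comp_top a 4 (natDegree_Ez_le m _ hp0), h2] at h1
  have h4 : (-4 : K) ≠ 0 := by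
    have : (2 : K) ≠ 0 := two_ne_zero_of_char (m := m)
    have h5 : (-4 : K) = -(2 * 2) := by norm_num
    rw [h5]
    exact neg_ne_zero.mpr (mul_ne_zero this this)
  exact mul_left_cancel₀ h4 h1

lemma natDegree_Ez_le_three (m : ℕ) [CharP K (2 * m + 3)] (z : Fin 6 → K)
    (hPhi : (Gz m z).coeff (2 * m + 1) = 0) : (Ez m z).natDegree ≤ 3 := by
  have hp0 : ((2 * m + 3 : ℕ) : K) = 0 := CharP.cast_eq_zero K (2 * m + 3)
  rw [natDegree_le_iff_coeff_eq_zero]
  intro n hn
  rcases (by omega : n = 4 ∨ 4 < n) with h | h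
  · rw [h, coeff_Ez_four m z hp0, hPhi, mul_zero]
  · exact coeff_eq_zero_of_natDegree_lt (lt_of_le_of_lt (natDegree_Ez_le m z hp0) h)

lemma Theta_translate (m : ℕ) [CharP K (2 * m + 3)] (hprime : (2 * m + 3).Prime) (z : Fin 6 → K)
    (a : K) (hPhi : (Gz m z).coeff (2 * m + 1) = 0) :
    (Gz m (fun j => z j - a)).coeff (2 * m + 2) = (Gz m z).coeff (2 * m + 2) := by
  have hp0 : ((2 * m + 3 : ℕ) : K) = 0 := CharP.cast_eq_zero K (2 * m + 3)
  have hPhi' : (Gz m (fun j => z j - a)).coeff (2 * m + 1) = 0 := by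
    rw [Phi_translate m hprime, hPhi]
  have h1 := coeff_Ez_three m z hp0 hPhi
  have h2 := coeff_Ez_three m (fun j => z j - a) hp0 hPhi'
  rw [← Ez_comp m hprime z a, coeff_comp_top a 3 (natDegree_Ez_le_three m _ hPhi'), h2] at h1
  have h4 : (-2 : K) ≠ 0 := neg_ne_zero.mpr (two_ne_zero_of_char (m := m))
  exact mul_left_cancel₀ h4 h1

/-- If `Φ = Θ = 0` then `E` is linear. -/
lemma Ez_linear (m : ℕ) [CharP K (2 * m + 3)] (z : Fin 6 → K)
    (hPhi : (Gz m z).coeff (2 * m + 1) = 0) (hTh : (Gz m z).coeff (2 * m + 2) = 0) :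
    Ez m z = C ((Ez m z).coeff 1) * X + C ((Ez m z).coeff 0) := by
  have hp0 : ((2 * m + 3 : ℕ) : K) = 0 := CharP.cast_eq_zero K (2 * m + 3)
  have h : (Ez m z).natDegree ≤ 1 := by
    rw [natDegree_le_iff_coeff_eq_zero]
    intro n hn
    rcases (by omega : n = 2 ∨ n = 3 ∨ 3 < n) with h | h | h
    · rw [h, coeff_Ez_two m z hp0 hPhi hTh]
    · rw [h, coeff_Ez_three m z hp0 hPhi, hTh, mul_zero]
    · exact coeff_eq_zero_of_natDegree_lt (lt_of_le_of_lt (natDegree_Ez_le_three m z hPhi) h)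
  exact eq_X_add_C_of_natDegree_le_one h

end Field

end Nef87
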