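import Mathlib

namespace Nef87

open MvPolynomial

section

variable {Ω : Type*} [Field Ω]

/-- Setting the first `i` variables to zero. -/
noncomputable def setz (n i : ℕ) : MvPolynomial (Fin n) Ω →ₐ[Ω] MvPolynomial (Fin n) Ω :=
  aeval fun j : Fin n => if (j : ℕ) < i then 0 else X j

lemma setz_X (n i : ℕ) (j : Fin n) :
    setz (Ω := Ω) n i (X j) = if (j : ℕ) < i then 0 else X j := by
  simp [setz]

noncomputable def kz (Ω : Type*) [Field Ω] (n i : ℕ) : Ideal (MvPolynomial (Fin n) Ω) :=
  RingHom.ker (setz (Ω := Ω) n i)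

instance kz_prime (n i : ℕ) : (kz Ω n i).IsPrime := RingHom.ker_isPrime _

lemma kz_lt (n i : ℕ) (hi : i < n) : kz Ω n i < kz Ω n (i + 1) := by
  refine lt_of_le_of_ne ?_ ?_
  · intro P hP
    have hP' : setz n i P = 0 := hP
    have hc : (setz (Ω := Ω) n (i + 1)).comp (setz n i) = setz n (i + 1) := by
      refine MvPolynomial.algHom_ext fun j => ?_
      rw [AlgHom.comp_apply, setz_X, setz_X]
      split_ifs with h1 h2 h3
      · rw [map_zero]
      · omega
      · rw [setz_X, if_pos h3]
      · rw [setz_X, if_neg h3]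
    show setz n (i + 1) P = 0
    rw [← hc, AlgHom.comp_apply, hP', map_zero]
  · intro h
    have h1 : (X ⟨i, hi⟩ : MvPolynomial (Fin n) Ω) ∈ kz Ω n (i + 1) := by
      show setz n (i + 1) (X ⟨i, hi⟩) = 0
      rw [setz_X, if_pos (by simp)]
    rw [← h] at h1
    have h2 : setz (Ω := Ω) n i (X ⟨i, hi⟩) = 0 := h1
    rw [setz_X, if_neg (by simp)] at h2
    exact MvPolynomial.X_ne_zero _ h2

lemma le_height_kz (n i : ℕ) (hi : i ≤ n) : (i : ℕ∞) ≤ (kz Ω n i).height := by
  induction i with
  | zero => simp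
  | succ i ih =>
    have h1 := ih (by omega)
    have h2 := Ideal.height_add_one_le_of_lt_of_isPrime (kz_lt (Ω := Ω) n i (by omega))
    push_cast
    exact (add_le_add_left h1 1).trans h2

/-- Fewer equations than variables: there is a nonzero common zero. -/
theorem exists_common_zero [IsAlgClosed Ω] {n r : ℕ} (hr : r < n)
    (P : Fin r → MvPolynomial (Fin n) Ω) (h0 : ∀ i, eval (0 : Fin n → Ω) (P i) = 0) :
    ∃ x : Fin n → Ω, x ≠ 0 ∧ ∀ i, eval x (P i) = 0 := by
  classical
  by_contra hcon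
  push Not at hcon
  set S : Finset (MvPolynomial (Fin n) Ω) := Finset.univ.image P with hS
  set J : Ideal (MvPolynomial (Fin n) Ω) := Ideal.span (S : Set _) with hJ
  have hz : zeroLocus Ω J ⊆ {0} := by
    intro x hx
    by_contra hne
    obtain ⟨i, hi⟩ := hcon x (by simpa using hne)
    apply hi
    have hPi : P i ∈ J := Ideal.subset_span (by simp [hS])
    have := (mem_zeroLocus_iff).mp hx (P i) hPi
    simpa [aeval_eq_eval] using this
  have hker : ∀ Q : MvPolynomial (Fin n) Ω, Q ∈ kz Ω n n ↔ eval (0 : Fin n → Ω) Q = 0 := by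
    intro Q
    have h1 : ∀ Q : MvPolynomial (Fin n) Ω, setz n n Q = C (eval (0 : Fin n → Ω) Q) := by
      intro Q
      have h2 : (setz (Ω := Ω) n n) = (Algebra.ofId Ω (MvPolynomial (Fin n) Ω)).comp
          (aeval (0 : Fin n → Ω)) := by
        refine MvPolynomial.algHom_ext fun j => ?_
        rw [setz_X, if_pos j.2]
        simp
      rw [h2]
      simp [aeval_eq_eval, Algebra.ofId_apply, algebraMap_eq]
    show setz n n Q = 0 ↔ _
    rw [h1, C_eq_zero]
  have hrad : kz Ω n n ≤ J.radical := by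
    rw [← vanishingIdeal_zeroLocus_eq_radical (K := Ω)]
    intro Q hQ
    rw [mem_vanishingIdeal_iff]
    intro x hx
    have hx0 : x = 0 := hz hx
    rw [hx0, aeval_eq_eval]
    exact (hker Q).mp hQ
  have hmin : kz Ω n n ∈ J.minimalPrimes := by
    refine ⟨⟨inferInstance, ?_⟩, ?_⟩
    · rw [hJ, Ideal.span_le]
      intro Q hQ
      have : ∃ i, P i = Q := by simpa [hS] using hQ
      obtain ⟨i, rfl⟩ := this
      exact (hker _).mpr (h0 i)
    · rintro q ⟨hq, hJq⟩ _
      exact hrad.trans ((Ideal.IsPrime.radical_le_iff hq).mpr hJq)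
  have h1 := Ideal.height_le_card_of_mem_minimalPrimes_span_finset hmin
  have h2 := le_height_kz (Ω := Ω) n n le_rfl
  have h3 : S.card ≤ r := by
    refine Finset.card_image_le.trans ?_
    simp
  have h4 : (n : ℕ∞) ≤ r := h2.trans (h1.trans (by exact_mod_cast h3))
  have h5 : n ≤ r := by exact_mod_cast h4
  omega

end

end Nef87
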