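import Pool.Agent.Lib_helper87.Nef.Neg
import Pool.Agent.Lib_helper87.Nef.Exist

/-!
# Existence of negative curves in characteristic `p ≥ 5`
-/

namespace Nef87

open Polynomial Finset
open scoped WithZero
open NefRed

lemma six_map {A B : Type*} [CommRing A] [CommRing B] (φ : A →+* B) (y : Fin 5 → A) :
    φ ∘ (six y) = six (φ ∘ y) := by
  funext i
  induction i using Fin.lastCases with
  | last => rw [Function.comp_apply, six_last, six_last, map_zero]
  | cast i => rw [Function.comp_apply, six_castSucc, six_castSucc]; rfl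

lemma Gz_zero {A : Type*} [CommRing A] (m : ℕ) : Gz m (0 : Fin 6 → A) = 1 := by
  simp [Gz, Fz]

lemma six_zero {A : Type*} [CommRing A] : six (0 : Fin 5 → A) = 0 := by
  funext i
  induction i using Fin.lastCases with
  | last => rw [six_last]; rfl
  | cast i => rw [six_castSucc]; rfl

/-- The four equations over an algebraically closed field have a nonzero common solution. -/
lemma exists_solution {Ω : Type} [Field Ω] [IsAlgClosed Ω] (m : ℕ) [CharP Ω (2 * m + 3)]
    (a : Fin 5 → Ω) :
    ∃ x : Fin 5 → Ω, x ≠ 0 ∧ (Gz m (six x)).coeff (2 * m + 1) = 0 ∧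
      (Gz m (six x)).coeff (2 * m + 2) = 0 ∧ (Ez m (six x)).coeff 1 = 0 ∧ ∑ i, a i * x i = 0 := by
  let y : Fin 5 → MvPolynomial (Fin 5) Ω := MvPolynomial.X
  let P : Fin 4 → MvPolynomial (Fin 5) Ω :=
    ![(Gz m (six y)).coeff (2 * m + 1), (Gz m (six y)).coeff (2 * m + 2),
      (Ez m (six y)).coeff 1, ∑ i, MvPolynomial.C (a i) * MvPolynomial.X i]
  have hG : ∀ (x : Fin 5 → Ω) (j : ℕ),
      MvPolynomial.eval x ((Gz m (six y)).coeff j) = (Gz m (six x)).coeff j := by
    intro x j
    have h1 := Gz_map (MvPolynomial.eval x) m (six y)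
    rw [six_map] at h1
    have h2 : (MvPolynomial.eval x) ∘ y = x := by
      funext i; simp [y]
    rw [h2] at h1
    rw [← h1, coeff_map]
  have hE : ∀ (x : Fin 5 → Ω) (j : ℕ),
      MvPolynomial.eval x ((Ez m (six y)).coeff j) = (Ez m (six x)).coeff j := by
    intro x j
    have h1 := Ez_map (MvPolynomial.eval x) m (six y)
    rw [six_map] at h1
    have h2 : (MvPolynomial.eval x) ∘ y = x := by
      funext i; simp [y]
    rw [h2] at h1
    rw [← h1, coeff_map]
  have hp0 : ((2 * m + 3 : ℕ) : Ω) = 0 := CharP.cast_eq_zero Ω (2 * m + 3)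
  have h0 : ∀ i, MvPolynomial.eval (0 : Fin 5 → Ω) (P i) = 0 := by
    intro i
    fin_cases i
    · show MvPolynomial.eval (0 : Fin 5 → Ω) ((Gz m (six y)).coeff (2 * m + 1)) = 0
      rw [hG, six_zero, Gz_zero, coeff_one, if_neg (by omega)]
    · show MvPolynomial.eval (0 : Fin 5 → Ω) ((Gz m (six y)).coeff (2 * m + 2)) = 0
      rw [hG, six_zero, Gz_zero, coeff_one, if_neg (by omega)]
    · show MvPolynomial.eval (0 : Fin 5 → Ω) ((Ez m (six y)).coeff 1) = 0
      rw [hE, six_zero, coeff_Ez m _ hp0 1 (2 * m + 4) (by omega)]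
      refine Finset.sum_eq_zero fun x _ => ?_
      split_ifs with h
      · rw [Gz_zero, coeff_one, if_neg (by omega)]; ring
      · rfl
    · show MvPolynomial.eval (0 : Fin 5 → Ω) (∑ i, MvPolynomial.C (a i) * MvPolynomial.X i) = 0
      simp
  obtain ⟨x, hx, h⟩ := exists_common_zero (by norm_num : 4 < 5) P h0
  refine ⟨x, hx, ?_, ?_, ?_, ?_⟩
  · rw [← hG]; exact h 0
  · rw [← hG]; exact h 1
  · rw [← hE]; exact h 2
  · have := h 3
    have h3 : P 3 = ∑ i, MvPolynomial.C (a i) * MvPolynomial.X i := rfl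
    rw [h3] at this
    simpa using this

/-- Powers `t^{q(i+1)}` are linearly independent over the constants. -/
lemma lin_indep {κ K : Type} [Field κ] [Field K] [Algebra κ K] [Algebra (RatFunc κ) K]
    [IsScalarTower κ (RatFunc κ) K] (q : ℕ) (hq : 0 < q) (c : Fin 5 → κ)
    (h : ∑ i : Fin 5, algebraMap κ K (c i) *
      (algebraMap (RatFunc κ) K RatFunc.X) ^ (q * ((i : ℕ) + 1)) = 0) : ∀ i, c i = 0 := by
  classical
  let P : κ[X] := ∑ i : Fin 5, monomial (q * ((i : ℕ) + 1)) (c i)
  have h1 : algebraMap (RatFunc κ) K (algebraMap κ[X] (RatFunc κ) P) = 0 := by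
    rw [← h]
    simp only [P, map_sum]
    refine Finset.sum_congr rfl fun i _ => ?_
    rw [← C_mul_X_pow_eq_monomial, map_mul, map_pow, RatFunc.algebraMap_X, map_mul, map_pow]
    congr 1
    rw [RatFunc.algebraMap_C, ← RatFunc.algebraMap_eq_C, ← IsScalarTower.algebraMap_apply]
  have h2 : P = 0 := by
    have h3 := (map_eq_zero (algebraMap (RatFunc κ) K)).mp h1
    exact (map_eq_zero_iff _ (RatFunc.algebraMap_injective κ)).mp h3
  intro i
  have h4 := congrArg (fun Q => Polynomial.coeff Q (q * ((i : ℕ) + 1))) h2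
  simp only [P, finsetSum_coeff, coeff_monomial, coeff_zero] at h4
  rw [Finset.sum_eq_single i] at h4
  · simpa using h4
  · intro j _ hj
    rw [if_neg]
    intro h5
    have := Nat.eq_of_mul_eq_mul_left hq h5
    exact hj (Fin.ext (by omega))
  · intro h; exact absurd (Finset.mem_univ i) h

/-- If `y` is (proportional to) a constant point or one of the sixteen centres, the linear relation
with coefficients `t^{q(i+1)}` fails. -/
lemma no_const {κ K : Type} [Field κ] [Field K] [Algebra κ K] [Algebra (RatFunc κ) K]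
    [IsScalarTower κ (RatFunc κ) K] (q : ℕ) (hq : 0 < q) (y : Fin 5 → K) (j : Fin 5) (hj : y j ≠ 0)
    (h : ∑ i : Fin 5, (algebraMap (RatFunc κ) K RatFunc.X) ^ (q * ((i : ℕ) + 1)) * y i = 0)
    (c : Fin 5 → κ) (hc : ∀ i, y i = algebraMap κ K (c i) * y j) : False := by
  have h1 : ∑ i : Fin 5, algebraMap κ K (c i) *
      (algebraMap (RatFunc κ) K RatFunc.X) ^ (q * ((i : ℕ) + 1)) = 0 := by
    have h2 : (∑ i : Fin 5, algebraMap κ K (c i) *
      (algebraMap (RatFunc κ) K RatFunc.X) ^ (q * ((i : ℕ) + 1))) * y j = 0 := by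
      rw [← h, Finset.sum_mul]
      refine Finset.sum_congr rfl fun i _ => ?_
      rw [hc i]; ring
    exact (mul_eq_zero.mp h2).resolve_right hj
  have h3 := lin_indep q hq c h1 j
  have h4 := hc j
  rw [h3, map_zero, zero_mul] at h4
  exact hj h4

theorem exists_negative (κ : Type) [Field κ] [IsAlgClosed κ] {m : ℕ} (hm : 1 ≤ m)
    [hp : Fact (2 * m + 3).Prime] [CharP κ (2 * m + 3)] :
    ∃ (K : Type) (_ : Field K) (_ : Algebra κ K) (_ : Algebra (RatFunc κ) K)
      (_ : IsScalarTower κ (RatFunc κ) K) (_ : FiniteDimensional (RatFunc κ) K)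
      (_ : Algebra.IsSeparable (RatFunc κ) K) (y : Fin 5 → K),
      (∃ i, y i ≠ 0) ∧ (∀ S : OddSet, ∃ i, projS S y i ≠ 0) ∧
      ∑ S : OddSet, degO1 κ (projS S y) - 14 * degO1 κ y < 0 := by
  classical
  let F := RatFunc κ
  let Ω := AlgebraicClosure F
  have : CharP F (2 * m + 3) := charP_of_injective_algebraMap (algebraMap κ F).injective _
  have hΩ : CharP Ω (2 * m + 3) := charP_of_injective_algebraMap (algebraMap F Ω).injective _
  have hexp : ExpChar Ω (2 * m + 3) := ExpChar.prime hp.out
  have hexpF : ExpChar F (2 * m + 3) := ExpChar.prime hp.out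
  let t : Ω := algebraMap F Ω RatFunc.X
  obtain ⟨x, hx0, hPhi, hTh, hPsi, hlin⟩ := exists_solution (Ω := Ω) m fun i => t ^ ((i : ℕ) + 1)
  -- Frobenius power into the separable closure
  let Sc := separableClosure F Ω
  have hpi : IsPurelyInseparable Sc Ω := inferInstance
  have hSchar : CharP Sc (2 * m + 3) := charP_of_injective_algebraMap (algebraMap F Sc).injective _
  have hexpS : ExpChar Sc (2 * m + 3) := ExpChar.prime hp.out
  have hpow := (isPurelyInseparable_iff_pow_mem Sc (2 * m + 3)).mp hpi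
  choose N hN using fun i => hpow (x i)
  let r := ∑ i, N i
  let q := (2 * m + 3) ^ r
  have hq : 0 < q := pow_pos hp.out.pos r
  have hmemS : ∀ i, x i ^ q ∈ Sc := by
    intro i
    obtain ⟨z, hz⟩ := hN i
    have hle : N i ≤ r := Finset.single_le_sum (fun _ _ => Nat.zero_le _) (Finset.mem_univ i)
    have h1 : x i ^ q = (algebraMap Sc Ω z) ^ ((2 * m + 3) ^ (r - N i)) := by
      rw [hz, ← pow_mul, ← pow_add]
      have e : N i + (r - N i) = r := by omega
      rw [e]
    rw [h1]
    exact pow_mem z.2 _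
  let y' : Fin 5 → Ω := fun i => x i ^ q
  let K := IntermediateField.adjoin F (Set.range y')
  have hKS : K ≤ Sc := by
    rw [IntermediateField.adjoin_le_iff]
    rintro _ ⟨i, rfl⟩
    exact hmemS i
  have hsep : Algebra.IsSeparable F K := le_separableClosure_iff F Ω K |>.mp hKS
  have hfd : FiniteDimensional F K :=
    IntermediateField.finiteDimensional_adjoin fun z _ => Algebra.IsIntegral.isIntegral z
  let y : Fin 5 → K := fun i => ⟨y' i, IntermediateField.subset_adjoin F _ ⟨i, rfl⟩⟩
  let ι : K →+* Ω := algebraMap K Ω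
  have hιinj : Function.Injective ι := (algebraMap K Ω).injective
  have hιy : ι ∘ y = y' := rfl
  let fr : Ω →+* Ω := iterateFrobenius Ω (2 * m + 3) r
  have hfr : ∀ z, fr z = z ^ q := fun z => iterateFrobenius_def _ _ _
  have hfrx : fr ∘ x = y' := by
    funext i
    rw [Function.comp_apply, hfr]
  have hKchar : CharP K (2 * m + 3) := charP_of_injective_algebraMap (algebraMap F K).injective _
  -- transport of equations
  have hG : ∀ j, (Gz m (six x)).coeff j = 0 → (Gz m (six y)).coeff j = 0 := by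
    intro j hj
    apply hιinj
    rw [map_zero, ← coeff_map, Gz_map, six_map, hιy, ← hfrx, ← six_map, ← Gz_map, coeff_map, hj,
      map_zero]
  have hE : ∀ j, (Ez m (six x)).coeff j = 0 → (Ez m (six y)).coeff j = 0 := by
    intro j hj
    apply hιinj
    rw [map_zero, ← coeff_map, Ez_map, six_map, hιy, ← hfrx, ← six_map, ← Ez_map, coeff_map, hj,
      map_zero]
  have hPhi' := hG _ hPhi
  have hTh' := hG _ hTh
  have hPsi' := hE _ hPsi
  have hlin' : ∑ i : Fin 5, (algebraMap (RatFunc κ) K RatFunc.X) ^ (q * ((i : ℕ) + 1)) * y i = 0 := by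
    apply hιinj
    rw [map_zero, map_sum]
    have h1 := congrArg fr hlin
    rw [map_zero, map_sum] at h1
    rw [← h1]
    refine Finset.sum_congr rfl fun i _ => ?_
    rw [map_mul, map_mul, map_pow, map_pow, hfr, hfr, ← pow_mul]
    rfl
  obtain ⟨j, hj⟩ : ∃ j, y j ≠ 0 := by
    by_contra hcon
    push Not at hcon
    apply hx0
    funext i
    have h1 := congrArg ι (hcon i)
    rw [map_zero] at h1
    have h2 : ι (y i) = x i ^ q := rfl
    rw [h2] at h1
    exact pow_eq_zero_iff hq.ne' |>.mp h1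
  have hy : ∃ i, y i ≠ 0 := ⟨j, hj⟩
  have hS : ∀ S : OddSet, ∃ i, projS S y i ≠ 0 := by
    intro S
    by_contra hcon
    push Not at hcon
    have hin : ∀ i ∈ S.1, y i = y (S.1.min' S.nonempty) := by
      intro i hi
      have := hcon i
      rw [projS, if_pos hi] at this
      exact sub_eq_zero.mp this
    have hout : ∀ i ∉ S.1, y i = 0 := by
      intro i hi
      have := hcon i
      rwa [projS, if_neg hi] at this
    have hjS : j ∈ S.1 := by
      by_contra h
      exact hj (hout j h)
    refine no_const q hq y j hj hlin' (fun i => if i ∈ S.1 then 1 else 0) fun i => ?_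
    split_ifs with hi
    · rw [map_one, one_mul, hin i hi, hin j hjS]
    · rw [map_zero, zero_mul, hout i hi]
  have hlinE := Ez_linear m (six y) hPhi' hTh'
  rw [hPsi', C_0, zero_mul, zero_add] at hlinE
  set c := (Ez m (six y)).coeff 0 with hc
  have hc0 : c ≠ 0 := by
    intro h
    rw [h, C_0] at hlinE
    obtain ⟨S, h0⟩ := exists_projS_eq_zero (m := m) y hy (Rz m (six y)) (Rz_monic m _)
      (natDegree_Rz_eq m _) hlinE
    obtain ⟨i, hi⟩ := hS S
    exact hi (h0 i)
  have hD : disc6 (six y) ≠ 0 := by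
    unfold disc6
    refine Finset.prod_ne_zero_iff.mpr fun i _ => ?_
    have h1 := eval_Ez m (six y) i
    rw [hlinE, eval_C] at h1
    intro h
    rw [h, zero_mul] at h1
    exact hc0 h1
  have hpos : 0 < degO1 κ y := by
    by_cases hex : ∃ i, ∀ c : κ, y i / y j ≠ algebraMap κ K c
    · obtain ⟨i, hi⟩ := hex
      exact degO1_pos hj hi
    · exfalso
      push Not at hex
      choose cc hcc using hex
      exact no_const q hq y j hj hlin' cc fun i => by
        rw [← hcc i, div_mul_cancel₀ _ hj]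
  exact ⟨K, inferInstance, inferInstance, inferInstance, inferInstance, hfd, hsep, y, hy, hS,
    neg_of_const (k := κ) hm hy hS hc0 hD hlinE hpos⟩

end Nef87
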