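import Pool.Agent.Lib_helper87.Nef.CharP2

/-!
# Local bounds
-/

namespace Nef87

open Polynomial Finset

variable {K : Type*} [Field K] {Γ : Type*} [LinearOrderedCommGroupWithZero Γ] (v : Valuation K Γ)

/-- The `n`-th coefficient is bounded by `δ ^ n`. -/
def Bd (δ : Γ) (P : K[X]) : Prop := ∀ n, v (P.coeff n) ≤ δ ^ n

variable {v}

lemma Bd.one (δ : Γ) : Bd v δ 1 := by
  intro n
  rw [coeff_one]
  split_ifs with h
  · subst h; simp
  · simp

lemma Bd.linear {δ : Γ} {a : K} (ha : v a ≤ δ) : Bd v δ (1 - C a * X) := by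
  intro n
  rcases n with _ | _ | n
  · simp [coeff_one]
  · simpa [coeff_one] using ha
  · simp [coeff_one, coeff_X]

lemma Bd.mul {δ : Γ} {P Q : K[X]} (hP : Bd v δ P) (hQ : Bd v δ Q) : Bd v δ (P * Q) := by
  intro n
  rw [coeff_mul]
  refine Valuation.map_sum_le v fun x hx => ?_
  rw [HasAntidiagonal.mem_antidiagonal] at hx
  rw [map_mul, ← hx, pow_add]
  exact mul_le_mul' (hP _) (hQ _)

lemma Bd.pow {δ : Γ} {P : K[X]} (hP : Bd v δ P) (n : ℕ) : Bd v δ (P ^ n) := by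
  induction n with
  | zero => rw [pow_zero]; exact Bd.one δ
  | succ n ih => rw [pow_succ]; exact ih.mul hP

lemma Bd.prod {ι : Type*} {δ : Γ} (s : Finset ι) (P : ι → K[X]) (h : ∀ i ∈ s, Bd v δ (P i)) :
    Bd v δ (∏ i ∈ s, P i) := by
  classical
  induction s using Finset.induction_on with
  | empty => simpa using Bd.one δ
  | insert a s ha ih =>
    rw [Finset.prod_insert ha]
    exact (h a (by simp)).mul (ih fun i hi => h i (by simp [hi]))

lemma Bd.mono {δ ζ : Γ} (h : δ ≤ ζ) {P : K[X]} (hP : Bd v δ P) : Bd v ζ P :=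
  fun n => (hP n).trans (pow_le_pow_left' h n)

/-- Product of a `δ`-bounded polynomial with a `ζ`-bounded polynomial of degree `≤ N`. -/
lemma bound_q {δ ζ : Γ} (hδ : δ ≤ ζ) {P Q : K[X]} (hP : Bd v δ P) (hQ : Bd v ζ Q) (N n : ℕ)
    (hN : Q.natDegree ≤ N) : v ((P * Q).coeff (n + N)) ≤ δ ^ n * ζ ^ N := by
  rw [coeff_mul]
  refine Valuation.map_sum_le v fun x hx => ?_
  rw [HasAntidiagonal.mem_antidiagonal] at hx
  by_cases h : x.2 ≤ N
  · have h1 : x.1 = n + (N - x.2) := by omega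
    calc v (P.coeff x.1 * Q.coeff x.2) = v (P.coeff x.1) * v (Q.coeff x.2) := map_mul _ _ _
      _ ≤ δ ^ x.1 * ζ ^ x.2 := mul_le_mul' (hP _) (hQ _)
      _ = δ ^ n * (δ ^ (N - x.2) * ζ ^ x.2) := by rw [h1, pow_add, mul_assoc]
      _ ≤ δ ^ n * (ζ ^ (N - x.2) * ζ ^ x.2) :=
          mul_le_mul' le_rfl (mul_le_mul' (pow_le_pow_left' hδ _) le_rfl)
      _ = δ ^ n * ζ ^ N := by rw [← pow_add, Nat.sub_add_cancel h]
  · rw [coeff_eq_zero_of_natDegree_lt (lt_of_le_of_lt hN (by omega)), mul_zero, map_zero]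
    exact zero_le

/-- Sums of terms `κ u^C (1-wu)^{N-C}` with `|κ| ≤ δ^C`. -/
noncomputable def EE (v : Valuation K Γ) (δ : Γ) (w : K) (N : ℕ) : AddSubmonoid K[X] :=
  AddSubmonoid.closure {P | ∃ (κ : K) (c : ℕ), c ≤ N ∧ v κ ≤ δ ^ c ∧
    P = C κ * X ^ c * (1 - C w * X) ^ (N - c)}

lemma EE.one (δ : Γ) (w : K) : (1 : K[X]) ∈ EE v δ w 0 := by
  refine AddSubmonoid.subset_closure ⟨1, 0, le_rfl, by simp, by simp⟩

lemma EE.mul_linear {δ : Γ} {w d : K} (hd : v d ≤ δ) {N : ℕ} {P : K[X]} (hP : P ∈ EE v δ w N) :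
    P * (1 - C (w + d) * X) ∈ EE v δ w (N + 1) := by
  refine AddSubmonoid.closure_induction ?_ ?_ ?_ hP
  · rintro _ ⟨κ, c, hc, hκ, rfl⟩
    have h1 : C κ * X ^ c * (1 - C w * X) ^ (N - c) * (1 - C (w + d) * X) =
        C κ * X ^ c * (1 - C w * X) ^ (N + 1 - c) +
          C (-(κ * d)) * X ^ (c + 1) * (1 - C w * X) ^ (N + 1 - (c + 1)) := by
      rw [show N + 1 - c = (N - c) + 1 by omega, show N + 1 - (c + 1) = N - c by omega]
      simp only [C_add, C_neg, C_mul]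
      ring
    rw [h1]
    refine AddSubmonoid.add_mem _ (AddSubmonoid.subset_closure ⟨κ, c, by omega, hκ, rfl⟩)
      (AddSubmonoid.subset_closure ⟨-(κ * d), c + 1, by omega, ?_, rfl⟩)
    rw [Valuation.map_neg, map_mul, pow_succ]
    exact mul_le_mul' hκ hd
  · rw [zero_mul]; exact AddSubmonoid.zero_mem _
  · intro x y _ _ hx hy
    rw [add_mul]; exact AddSubmonoid.add_mem _ hx hy

lemma EE.mul_linear_pow {δ : Γ} {w d : K} (hd : v d ≤ δ) {N : ℕ} {P : K[X]} (hP : P ∈ EE v δ w N)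
    (e : ℕ) : P * (1 - C (w + d) * X) ^ e ∈ EE v δ w (N + e) := by
  induction e with
  | zero => simpa using hP
  | succ e ih =>
    rw [pow_succ, ← mul_assoc, ← add_assoc]
    exact EE.mul_linear hd ih

lemma EE.prod {ι : Type*} {δ : Γ} {w : K} (x : ι → K) (s : Finset ι)
    (hx : ∀ i ∈ s, v (x i - w) ≤ δ) (e : ℕ) :
    (∏ i ∈ s, (1 - C (x i) * X) ^ e) ∈ EE v δ w (s.card * e) := by
  classical
  induction s using Finset.induction_on with
  | empty => simpa using EE.one δ w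
  | insert a s ha ih =>
    rw [Finset.prod_insert ha, Finset.card_insert_of_notMem ha, add_mul, one_mul,
      mul_comm ((1 - C (x a) * X) ^ e)]
    have h := EE.mul_linear_pow (hx a (by simp)) (ih fun i hi => hx i (by simp [hi])) e
    rwa [add_sub_cancel] at h

/-- Vanishing of the middle coefficients of `(1-wu)^{p+j}`. -/
lemma coeff_linear_pow_char {p : ℕ} [Fact p.Prime] [CharP K p] (w : K) (j b : ℕ) (h1 : j < b)
    (h2 : b < p) : ((1 - C w * X : K[X]) ^ (p + j)).coeff b = 0 := by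
  rw [pow_add]
  have : (1 - C w * X : K[X]) ^ p = 1 - C (w ^ p) * X ^ p := by
    rw [sub_pow_char, mul_pow, one_pow, ← C_pow]
  rw [this, sub_mul, one_mul, coeff_sub]
  have h3 : ((1 - C w * X : K[X]) ^ j).natDegree ≤ j := by
    refine (natDegree_pow_le).trans ?_
    have : (1 - C w * X : K[X]).natDegree ≤ 1 := by
      have : (1 - C w * X : K[X]) = C (-w) * X + C 1 := by simp; ring
      rw [this]
      exact natDegree_linear_le
    nlinarith
  rw [coeff_eq_zero_of_natDegree_lt (lt_of_le_of_lt h3 h1), mul_assoc, coeff_C_mul,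
    coeff_X_pow_mul', if_neg (by omega)]
  simp

/-- Coefficient bounds for elements of `EE` with `N = 3(m+1) = p + m`. -/
lemma EE.coeff_bound {m : ℕ} [Fact (2 * m + 3).Prime] [CharP K (2 * m + 3)] {δ ζ : Γ} {w : K}
    (hδ : δ ≤ ζ) (hw : v w ≤ ζ) {P : K[X]} (hP : P ∈ EE v δ w (3 * (m + 1))) :
    Bd v ζ P ∧ ∀ b, b < m + 2 → v (P.coeff (m + 1 + b)) ≤ δ ^ (m + 1) * ζ ^ b := by
  have hA : Bd v ζ (1 - C w * X : K[X]) := Bd.linear hw
  refine AddSubmonoid.closure_induction ?_ ?_ ?_ hP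
  · rintro _ ⟨κ, c, hc, hκ, rfl⟩
    have hco : ∀ n, (C κ * X ^ c * (1 - C w * X) ^ (3 * (m + 1) - c)).coeff n =
        if c ≤ n then κ * ((1 - C w * X : K[X]) ^ (3 * (m + 1) - c)).coeff (n - c) else 0 := by
      intro n
      rw [mul_assoc, coeff_C_mul, coeff_X_pow_mul']
      split_ifs <;> simp
    constructor
    · intro n
      rw [hco]
      split_ifs with h
      · rw [map_mul]
        calc v κ * v _ ≤ δ ^ c * ζ ^ (n - c) := mul_le_mul' hκ (hA.pow _ _)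
          _ ≤ ζ ^ c * ζ ^ (n - c) := mul_le_mul' (pow_le_pow_left' hδ _) le_rfl
          _ = ζ ^ n := by rw [← pow_add]; congr 1; omega
      · simp
    · intro b hb
      rw [hco]
      split_ifs with h
      · by_cases hcm : c ≤ m
        · have h3 : 3 * (m + 1) - c = (2 * m + 3) + (m - c) := by omega
          rw [h3, coeff_linear_pow_char w (m - c) _ (by omega) (by omega), mul_zero, map_zero]
          exact zero_le
        · rw [map_mul]
          obtain ⟨c', rfl⟩ : ∃ c', c = m + 1 + c' := ⟨c - (m + 1), by omega⟩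
          calc v κ * v _ ≤ δ ^ (m + 1 + c') * ζ ^ (m + 1 + b - (m + 1 + c')) :=
                mul_le_mul' hκ (hA.pow _ _)
            _ = δ ^ (m + 1) * (δ ^ c' * ζ ^ (b - c')) := by
                rw [pow_add, mul_assoc]; congr 3; omega
            _ ≤ δ ^ (m + 1) * (ζ ^ c' * ζ ^ (b - c')) :=
                mul_le_mul' le_rfl (mul_le_mul' (pow_le_pow_left' hδ _) le_rfl)
            _ = δ ^ (m + 1) * ζ ^ b := by rw [← pow_add]; congr 2; omega
      · rw [map_zero]; exact zero_le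
  · refine ⟨fun n => by simp, fun b _ => by simp⟩
  · rintro x y _ _ ⟨hx1, hx2⟩ ⟨hy1, hy2⟩
    refine ⟨fun n => ?_, fun b hb => ?_⟩
    · rw [coeff_add]; exact v.map_add_le (hx1 n) (hy1 n)
    · rw [coeff_add]; exact v.map_add_le (hx2 b hb) (hy2 b hb)

/-- Product of a `δ`-bounded polynomial and an element of `EE`. -/
lemma bound_p {m : ℕ} [Fact (2 * m + 3).Prime] [CharP K (2 * m + 3)] {δ ζ : Γ} {w : K}
    (hδ : δ ≤ ζ) (hw : v w ≤ ζ) {P Q : K[X]} (hP : Bd v δ P) (hQ : Q ∈ EE v δ w (3 * (m + 1)))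
    (n : ℕ) (hn : m + n < 2 * m + 3) :
    v ((P * Q).coeff (m + n)) ≤ max (δ ^ n * ζ ^ m) (δ ^ (m + 1) * ζ ^ (n - 1)) := by
  obtain ⟨hQ1, hQ2⟩ := EE.coeff_bound hδ hw hQ
  rw [coeff_mul]
  refine Valuation.map_sum_le v fun x hx => ?_
  rw [HasAntidiagonal.mem_antidiagonal] at hx
  rw [map_mul]
  by_cases h : x.2 ≤ m
  · refine le_max_of_le_left ?_
    calc v (P.coeff x.1) * v (Q.coeff x.2) ≤ δ ^ x.1 * ζ ^ x.2 := mul_le_mul' (hP _) (hQ1 _)
      _ = δ ^ n * (δ ^ (m - x.2) * ζ ^ x.2) := by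
          rw [← mul_assoc, ← pow_add]; congr 2; omega
      _ ≤ δ ^ n * (ζ ^ (m - x.2) * ζ ^ x.2) :=
          mul_le_mul' le_rfl (mul_le_mul' (pow_le_pow_left' hδ _) le_rfl)
      _ = δ ^ n * ζ ^ m := by rw [← pow_add, Nat.sub_add_cancel h]
  · refine le_max_of_le_right ?_
    obtain ⟨b, hb⟩ : ∃ b, x.2 = m + 1 + b := ⟨x.2 - (m + 1), by omega⟩
    rw [hb]
    calc v (P.coeff x.1) * v (Q.coeff (m + 1 + b)) ≤ δ ^ x.1 * (δ ^ (m + 1) * ζ ^ b) :=
          mul_le_mul' (hP _) (hQ2 b (by omega))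
      _ = δ ^ (m + 1) * (δ ^ x.1 * ζ ^ b) := mul_left_comm _ _ _
      _ ≤ δ ^ (m + 1) * (ζ ^ x.1 * ζ ^ b) :=
          mul_le_mul' le_rfl (mul_le_mul' (pow_le_pow_left' hδ _) le_rfl)
      _ = δ ^ (m + 1) * ζ ^ (n - 1) := by rw [← pow_add]; congr 2; omega

end Nef87
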