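import Pool.Agent.Lib_helper87.Nef.Local

/-!
# Local bounds for clusters
-/

namespace Nef87

open Polynomial Finset

variable {K : Type*} [Field K] {Γ : Type*} [LinearOrderedCommGroupWithZero Γ] {v : Valuation K Γ}

lemma Gz_split (m : ℕ) (z : Fin 6 → K) (T : Finset (Fin 6)) :
    Gz m z = (∏ j ∈ T, (1 - C (z j) * X)) ^ (m + 1) * ∏ j ∈ Tᶜ, (1 - C (z j) * X) ^ (m + 1) := by
  rw [Gz, Fz, ← Finset.prod_mul_prod_compl T, mul_pow, Finset.prod_pow Tᶜ]

/-- `5`-element cluster. -/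
lemma bound_G_five {m : ℕ} {δ ζ : Γ} (hδ : δ ≤ ζ) (z : Fin 6 → K) (T : Finset (Fin 6))
    (hT : T.card = 5) (b : Fin 6) (hb : b ∈ T) (h1 : ∀ i ∈ T, v (z i - z b) ≤ δ)
    (h2 : ∀ i, v (z i - z b) ≤ ζ) (n : ℕ) :
    v ((Gz m (fun j => z j - z b)).coeff (n + (m + 1))) ≤ δ ^ n * ζ ^ (m + 1) := by
  rw [Gz_split m _ T]
  refine bound_q hδ ?_ ?_ (m + 1) n ?_
  · exact (Bd.prod T _ fun i hi => Bd.linear (h1 i hi)).pow _
  · exact Bd.prod _ _ fun i _ => (Bd.linear (h2 i)).pow _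
  · refine (natDegree_prod_le _ _).trans ?_
    have hc : Tᶜ.card = 1 := by
      rw [Finset.card_compl, hT]; simp
    have h3 : ∀ i ∈ Tᶜ, ((1 - C (z i - z b) * X : K[X]) ^ (m + 1)).natDegree ≤ m + 1 := by
      intro i _
      refine (natDegree_pow_le).trans ?_
      have : (1 - C (z i - z b) * X : K[X]).natDegree ≤ 1 := by
        have : (1 - C (z i - z b) * X : K[X]) = C (-(z i - z b)) * X + C 1 := by simp; ring
        rw [this]
        exact natDegree_linear_le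
      nlinarith
    have h4 := Finset.sum_le_card_nsmul _ _ _ h3
    rw [hc] at h4
    simpa using h4

/-- `3`-element cluster. -/
lemma bound_G_three {m : ℕ} [Fact (2 * m + 3).Prime] [CharP K (2 * m + 3)] {δ ζ : Γ} (hδ : δ ≤ ζ)
    (z : Fin 6 → K) (T : Finset (Fin 6)) (hT : T.card = 3) (b : Fin 6) (hb : b ∈ T)
    (h1 : ∀ i ∈ T, v (z i - z b) ≤ δ) (h1' : ∀ i ∉ T, ∀ j ∉ T, v (z i - z j) ≤ δ)
    (h2 : ∀ i, v (z i - z b) ≤ ζ) (n : ℕ) (hn : m + n < 2 * m + 3) :
    v ((Gz m (fun j => z j - z b)).coeff (m + n)) ≤ max (δ ^ n * ζ ^ m) (δ ^ (m + 1) * ζ ^ (n - 1)) := by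
  have hc : Tᶜ.card = 3 := by
    rw [Finset.card_compl, hT]; simp
  obtain ⟨c, hcT⟩ : Tᶜ.Nonempty := by
    rw [← Finset.card_pos]; omega
  rw [Gz_split m _ T]
  refine bound_p (w := z c - z b) hδ (h2 c) ?_ ?_ n hn
  · exact (Bd.prod T _ fun i hi => Bd.linear (h1 i hi)).pow _
  · have := EE.prod (v := v) (δ := δ) (w := z c - z b) (fun j => z j - z b) Tᶜ (fun i hi => ?_) (m + 1)
    · rwa [hc] at this
    · have e : z i - z b - (z c - z b) = z i - z c := by ring
      rw [e]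
      exact h1' i (by simpa using hi) c (by simpa using hcT)

/-- Data of a cluster: `T` has `3` or `5` elements. -/
structure Clu (v : Valuation K Γ) (z : Fin 6 → K) (T : Finset (Fin 6)) (δ ζ : Γ) : Prop where
  card : T.card = 3 ∨ T.card = 5
  inT : ∀ i ∈ T, ∀ j ∈ T, v (z i - z j) ≤ δ
  outT : ∀ i ∉ T, ∀ j ∉ T, v (z i - z j) ≤ δ
  all : ∀ i j, v (z i - z j) ≤ ζ
  le : δ ≤ ζ

section

variable {m : ℕ} [hp : Fact (2 * m + 3).Prime] [CharP K (2 * m + 3)] {δ ζ : Γ} {z : Fin 6 → K}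
  {T : Finset (Fin 6)}

lemma Clu.nonempty (h : Clu v z T δ ζ) : T.Nonempty := by
  rw [← Finset.card_pos]
  rcases h.card with h | h <;> omega

lemma pow_exch {a b : ℕ} (hδ : δ ≤ ζ) (h : a + b = a + b) (c : ℕ) :
    δ ^ (a + c) * ζ ^ b ≤ δ ^ a * ζ ^ (b + c) := by
  rw [pow_add, mul_assoc, add_comm b c, pow_add]
  exact mul_le_mul' le_rfl (mul_le_mul' (pow_le_pow_left' hδ _) le_rfl)

lemma Clu.Phi_le (h : Clu v z T δ ζ) :
    v ((Gz m z).coeff (2 * m + 1)) ≤ δ ^ m * ζ ^ (m + 1) := by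
  obtain ⟨b, hb⟩ := h.nonempty
  rw [← Phi_translate m hp.out z (z b)]
  rcases h.card with hc | hc
  · have h1 := bound_G_three (m := m) h.le z T hc b hb (fun i hi => h.inT i hi b hb) h.outT
      (fun i => h.all i b) (m + 1) (by omega)
    rw [show 2 * m + 1 = m + (m + 1) by ring]
    refine h1.trans (max_le ?_ ?_)
    · exact pow_exch h.le rfl 1
    · rw [Nat.add_sub_cancel]
      exact pow_exch h.le rfl 1
  · have h1 := bound_G_five (m := m) h.le z T hc b hb (fun i hi => h.inT i hi b hb)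
      (fun i => h.all i b) m
    rwa [show 2 * m + 1 = m + (m + 1) by ring]

lemma Clu.Theta_le (h : Clu v z T δ ζ) (hPhi : (Gz m z).coeff (2 * m + 1) = 0) :
    v ((Gz m z).coeff (2 * m + 2)) ≤ δ ^ (m + 1) * ζ ^ (m + 1) := by
  obtain ⟨b, hb⟩ := h.nonempty
  rw [← Theta_translate m hp.out z (z b) hPhi]
  rcases h.card with hc | hc
  · have h1 := bound_G_three (m := m) h.le z T hc b hb (fun i hi => h.inT i hi b hb) h.outT
      (fun i => h.all i b) (m + 2) (by omega)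
    rw [show 2 * m + 2 = m + (m + 2) by ring]
    refine h1.trans (max_le ?_ ?_)
    · exact pow_exch (a := m + 1) h.le rfl 1
    · rw [show m + 2 - 1 = m + 1 by omega]
  · have h1 := bound_G_five (m := m) h.le z T hc b hb (fun i hi => h.inT i hi b hb)
      (fun i => h.all i b) (m + 1)
    rwa [show 2 * m + 2 = (m + 1) + (m + 1) by ring]

lemma prod_diff_le (h : Clu v z T δ ζ) {b : Fin 6} (hb : b ∈ T) :
    v (∏ j ∈ univ.erase b, (z b - z j)) ≤ δ ^ (T.card - 1) * ζ ^ (6 - T.card) := by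
  have hsplit : (univ.erase b : Finset (Fin 6)) = (T.erase b) ∪ Tᶜ := by
    ext j
    simp only [mem_erase, mem_univ, and_true, mem_union, mem_compl]
    constructor
    · intro hj
      by_cases hjT : j ∈ T
      · exact Or.inl ⟨hj, hjT⟩
      · exact Or.inr hjT
    · rintro (hj | hj)
      · exact hj.1
      · rintro rfl; exact hj hb
  have hdisj : Disjoint (T.erase b) Tᶜ := by
    rw [Finset.disjoint_left]
    intro j hj hj'
    simp only [mem_erase, mem_compl] at hj hj'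
    exact hj' hj.2
  rw [hsplit, Finset.prod_union hdisj, map_mul, map_prod, map_prod]
  refine mul_le_mul' ?_ ?_
  · calc ∏ j ∈ T.erase b, v (z b - z j) ≤ ∏ j ∈ T.erase b, δ :=
          Finset.prod_le_prod' fun j hj => h.inT b hb j (mem_of_mem_erase hj)
      _ = δ ^ (T.card - 1) := by rw [Finset.prod_const, Finset.card_erase_of_mem hb]
  · calc ∏ j ∈ Tᶜ, v (z b - z j) ≤ ∏ j ∈ Tᶜ, ζ := Finset.prod_le_prod' fun j _ => h.all b j
      _ = ζ ^ (6 - T.card) := by rw [Finset.prod_const, Finset.card_compl]; simp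

/-- Bound for the values of `E` at the points of a cluster with `3` elements. -/
lemma Clu.W_three (hm : 1 ≤ m) (h : Clu v z T δ ζ) (hc : T.card = 3) {b : Fin 6} (hb : b ∈ T) :
    v ((Ez m z).eval (z b)) ≤ δ ^ (m + 2) * ζ ^ (m + 3) := by
  rw [eval_Ez, map_mul, eval_Rz m hp.out z (z b)]
  have h1 := bound_G_three (m := m) h.le z T hc b hb (fun i hi => h.inT i hi b hb) h.outT
      (fun i => h.all i b) m (by omega)
  have h2 : v ((Gz m (fun j => z j - z b)).coeff (2 * m)) ≤ δ ^ m * ζ ^ m := by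
    rw [show 2 * m = m + m by ring]
    refine h1.trans (max_le le_rfl ?_)
    have := pow_exch (a := m) (b := m - 1) h.le rfl 1
    rwa [Nat.sub_add_cancel hm] at this
  have h3 := prod_diff_le h hb
  rw [hc] at h3
  calc v _ * v _ ≤ (δ ^ (3 - 1) * ζ ^ (6 - 3)) * (δ ^ m * ζ ^ m) := mul_le_mul' h3 h2
    _ = δ ^ (m + 2) * ζ ^ (m + 3) := by
      rw [mul_mul_mul_comm, ← pow_add, ← pow_add]
      congr 2 <;> omega

/-- Bound for the values of `E` at the points of a cluster with `5` elements. -/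
lemma Clu.W_five (hm : 1 ≤ m) (h : Clu v z T δ ζ) (hc : T.card = 5) {b : Fin 6} (hb : b ∈ T) :
    v ((Ez m z).eval (z b)) ≤ δ ^ (m + 3) * ζ ^ (m + 2) := by
  rw [eval_Ez, map_mul, eval_Rz m hp.out z (z b)]
  have h2 := bound_G_five (m := m) h.le z T hc b hb (fun i hi => h.inT i hi b hb)
      (fun i => h.all i b) (m - 1)
  rw [show (m - 1) + (m + 1) = 2 * m by omega] at h2
  have h3 := prod_diff_le h hb
  rw [hc] at h3
  calc v _ * v _ ≤ (δ ^ (5 - 1) * ζ ^ (6 - 5)) * (δ ^ (m - 1) * ζ ^ (m + 1)) := mul_le_mul' h3 h2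
    _ = δ ^ (m + 3) * ζ ^ (m + 2) := by
      rw [mul_mul_mul_comm, ← pow_add, ← pow_add]
      congr 2 <;> omega

lemma Clu.W_le (hm : 1 ≤ m) (h : Clu v z T δ ζ) {b : Fin 6} (hb : b ∈ T) :
    v ((Ez m z).eval (z b)) ≤ δ ^ (m + 2) * ζ ^ (m + 3) := by
  rcases h.card with hc | hc
  · exact h.W_three hm hc hb
  · exact (h.W_five hm hc hb).trans (pow_exch (a := m + 2) (b := m + 2) h.le rfl 1)

end

end Nef87
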