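import Pool.Agent.Lib_helper87.Nef.Points

/-!
# Local inequalities in logarithmic form
-/

namespace Nef87

open Polynomial Finset
open scoped WithZero
open NefRed

lemma card_oddSet : Fintype.card OddSet = 16 := by decide

section

variable {K : Type} [Field K] {v : Valuation K ℤᵐ⁰}

lemma exists_special (v : Valuation K ℤᵐ⁰) (y : Fin 5 → K) :
    ∃ S₀ : OddSet, ∀ S, S ≠ S₀ → vmax v (projS S y) = vmax v y := by
  by_cases h : ∃ S : OddSet, vmax v (projS S y) < vmax v y
  · obtain ⟨S₀, h0⟩ := h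
    refine ⟨S₀, fun S hS => ?_⟩
    by_contra hne
    exact hS (projS_unique y S S₀ (lt_of_le_of_ne (projS_le S y) hne) h0)
  · push Not at h
    exact ⟨⟨{0}, by decide⟩, fun S _ => le_antisymm (projS_le S y) (h S)⟩

/-- The sum of the sixteen logarithms. -/
lemma sum_special (y : Fin 5 → K) (S₀ : OddSet)
    (h : ∀ S, S ≠ S₀ → vmax v (projS S y) = vmax v y) :
    ∑ S : OddSet, WithZero.log (vmax v (projS S y)) =
      15 * WithZero.log (vmax v y) + WithZero.log (vmax v (projS S₀ y)) := by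
  rw [← Finset.sum_erase_add _ _ (Finset.mem_univ S₀)]
  congr 1
  rw [Finset.sum_congr rfl (g := fun _ => WithZero.log (vmax v y))]
  · rw [Finset.sum_const, Finset.card_erase_of_mem (Finset.mem_univ _), Finset.card_univ,
      card_oddSet]
    simp
  · intro S hS
    rw [h S (Finset.ne_of_mem_erase hS)]

lemma log_le_of_le {x a b : ℤᵐ⁰} (hx : x ≠ 0) (ha : a ≠ 0) (hb : b ≠ 0) {α β : ℕ}
    (h : x ≤ a ^ α * b ^ β) :
    WithZero.log x ≤ α * WithZero.log a + β * WithZero.log b := by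
  have h1 := WithZero.log_le_log hx (mul_ne_zero (pow_ne_zero α ha) (pow_ne_zero β hb)) |>.mpr h
  rw [WithZero.log_mul (pow_ne_zero α ha) (pow_ne_zero β hb), WithZero.log_pow,
    WithZero.log_pow] at h1
  simpa using h1

variable {m : ℕ} [hp : Fact (2 * m + 3).Prime] [CharP K (2 * m + 3)]

/-- All four local inequalities are consequences of bounds for a special odd set. -/
lemma log_of_special {y : Fin 5 → K} (hy : ∃ i, y i ≠ 0) (hS : ∀ S : OddSet, ∃ i, projS S y i ≠ 0)
    {S₀ : OddSet} (h : ∀ S, S ≠ S₀ → vmax v (projS S y) = vmax v y) {x : K} (hx : x ≠ 0) {α β : ℕ}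
    (hle : v x ≤ vmax v (projS S₀ y) ^ α * vmax v y ^ β) :
    WithZero.log (v x) ≤ α * ∑ S : OddSet, WithZero.log (vmax v (projS S y)) +
      (β - 15 * α) * WithZero.log (vmax v y) := by
  have h1 := log_le_of_le ((Valuation.ne_zero_iff v).mpr hx) (vmax_ne_zero v _ (hS S₀))
    (vmax_ne_zero v _ hy) hle
  rw [sum_special y S₀ h]
  linarith

lemma local_Phi {y : Fin 5 → K} (hy : ∃ i, y i ≠ 0) (hS : ∀ S : OddSet, ∃ i, projS S y i ≠ 0)
    (hx : (Gz m (six y)).coeff (2 * m + 1) ≠ 0) :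
    WithZero.log (v ((Gz m (six y)).coeff (2 * m + 1))) ≤
      (m : ℕ) * ∑ S : OddSet, WithZero.log (vmax v (projS S y)) +
      (((m + 1 : ℕ) : ℤ) - 15 * (m : ℕ)) * WithZero.log (vmax v y) := by
  obtain ⟨S₀, h0⟩ := exists_special v y
  exact log_of_special hy hS h0 hx (clu_projS S₀ y).Phi_le

lemma local_Theta {y : Fin 5 → K} (hy : ∃ i, y i ≠ 0) (hS : ∀ S : OddSet, ∃ i, projS S y i ≠ 0)
    (hPhi : (Gz m (six y)).coeff (2 * m + 1) = 0) (hx : (Gz m (six y)).coeff (2 * m + 2) ≠ 0) :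
    WithZero.log (v ((Gz m (six y)).coeff (2 * m + 2))) ≤
      (m + 1 : ℕ) * ∑ S : OddSet, WithZero.log (vmax v (projS S y)) +
      (((m + 1 : ℕ) : ℤ) - 15 * (m + 1 : ℕ)) * WithZero.log (vmax v y) := by
  obtain ⟨S₀, h0⟩ := exists_special v y
  exact log_of_special hy hS h0 hx ((clu_projS S₀ y).Theta_le hPhi)

/-- Every index lies in some cluster. -/
lemma exists_mem_clT (i : Fin 6) : ∃ S : OddSet, i ∈ clT S := by
  revert i
  decide

lemma W_le_all (hm : 1 ≤ m) (y : Fin 5 → K) (i : Fin 6) :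
    v ((Ez m (six y)).eval (six y i)) ≤ vmax v y ^ (2 * m + 5) := by
  obtain ⟨S, hi⟩ := exists_mem_clT i
  refine ((clu_projS S y).W_le hm hi).trans ?_
  rw [show 2 * m + 5 = (m + 2) + (m + 3) by ring, pow_add _ (m + 2) (m + 3)]
  exact mul_le_mul' (pow_le_pow_left' (projS_le S y) _) le_rfl

lemma Clu.compl {Γ : Type*} [LinearOrderedCommGroupWithZero Γ] {v : Valuation K Γ}
    {z : Fin 6 → K} {T : Finset (Fin 6)} {δ ζ : Γ} (h : Clu v z T δ ζ) (hc : T.card = 3) :
    Clu v z Tᶜ δ ζ where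
  card := by left; rw [Finset.card_compl, hc]; simp
  inT := fun i hi j hj => h.outT i (by simpa using hi) j (by simpa using hj)
  outT := fun i hi j hj => h.inT i (by simpa using hi) j (by simpa using hj)
  all := h.all
  le := h.le

lemma Psi_mul {z : Fin 6 → K} (hPhi : (Gz m z).coeff (2 * m + 1) = 0)
    (hTh : (Gz m z).coeff (2 * m + 2) = 0) (i j : Fin 6) :
    (Ez m z).coeff 1 * (z i - z j) = (Ez m z).eval (z i) - (Ez m z).eval (z j) := by
  have h := Ez_linear m z hPhi hTh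
  have h1 : ∀ a, (Ez m z).eval a = (Ez m z).coeff 1 * a + (Ez m z).coeff 0 := by
    intro a
    conv_lhs => rw [h]
    simp
  rw [h1, h1]; ring

lemma local_Psi_bound (hm : 1 ≤ m) {y : Fin 5 → K} (hy : ∃ i, y i ≠ 0)
    (hS : ∀ S : OddSet, ∃ i, projS S y i ≠ 0)
    (hPhi : (Gz m (six y)).coeff (2 * m + 1) = 0) (hTh : (Gz m (six y)).coeff (2 * m + 2) = 0)
    (S₀ : OddSet) :
    v ((Ez m (six y)).coeff 1) ≤ vmax v (projS S₀ y) ^ (m + 2) * vmax v y ^ (m + 2) := by
  set a := vmax v y with ha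
  set d := vmax v (projS S₀ y) with hd
  have ha0 : a ≠ 0 := vmax_ne_zero v _ hy
  have hd0 : d ≠ 0 := vmax_ne_zero v _ (hS S₀)
  have hclu := clu_projS (v := v) S₀ y
  rw [← ha, ← hd] at hclu
  -- from differences
  have key : ∀ i j (e B : ℤᵐ⁰), e ≠ 0 → v (six y i - six y j) = e →
      v ((Ez m (six y)).eval (six y i)) ≤ B * e → v ((Ez m (six y)).eval (six y j)) ≤ B * e →
      v ((Ez m (six y)).coeff 1) ≤ B := by
    intro i j e B he hij hi hj
    have h1 : v ((Ez m (six y)).coeff 1) * e ≤ B * e := by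
      rw [← hij, ← map_mul, Psi_mul hPhi hTh, hij]
      exact (v.map_sub _ _).trans (max_le hi hj)
    exact le_of_mul_le_mul_right h1 (zero_lt_iff.mpr he)
  rcases (projS_le (v := v) S₀ y).lt_or_eq with hlt | heq
  · rcases hclu.card with hc | hc
    · obtain ⟨i, j, hij⟩ := exists_diff_eq (v := v) y
      have hns : ¬ sameCl S₀ i j := by
        intro h
        have := diff_le_of_sameCl (v := v) S₀ y i j h
        rw [hij] at this
        exact absurd hlt (not_lt.mpr this)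
      have hW : ∀ i : Fin 6, v ((Ez m (six y)).eval (six y i)) ≤ d ^ (m + 2) * a ^ (m + 2) * a := by
        intro i
        rw [mul_assoc, ← pow_succ]
        by_cases hi : i ∈ clT S₀
        · exact hclu.W_three hm hc hi
        · exact (hclu.compl hc).W_three hm (by rw [Finset.card_compl, hc]; simp) (by simpa using hi)
      exact key i j a _ ha0 hij (hW i) (hW j)
    · obtain ⟨i, j, hs, hij⟩ := exists_sameCl (v := v) S₀ y
      rw [sameCl_iff] at hs
      have hW : ∀ i ∈ clT S₀, v ((Ez m (six y)).eval (six y i)) ≤ d ^ (m + 2) * a ^ (m + 2) * d := by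
        intro i hi
        rw [mul_right_comm, ← pow_succ]
        exact hclu.W_five hm hc hi
      by_cases hi : i ∈ clT S₀
      · exact key i j d _ hd0 hij (hW i hi) (hW j (hs.mp hi))
      · exfalso
        have hj : j ∉ clT S₀ := fun hj => hi (hs.mpr hj)
        have hcc : (clT S₀)ᶜ.card = 1 := by rw [Finset.card_compl, hc]; simp
        obtain ⟨c, hcc⟩ := Finset.card_eq_one.mp hcc
        have h1 : i ∈ (clT S₀)ᶜ := by simpa using hi
        have h2 : j ∈ (clT S₀)ᶜ := by simpa using hj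
        rw [hcc, Finset.mem_singleton] at h1 h2
        rw [h1, h2, sub_self, map_zero] at hij
        exact hd0 hij.symm
  · obtain ⟨i, j, hij⟩ := exists_diff_eq (v := v) y
    have hda : d = a := heq
    rw [hda]
    have hW : ∀ i : Fin 6, v ((Ez m (six y)).eval (six y i)) ≤ a ^ (m + 2) * a ^ (m + 2) * a := by
      intro i
      rw [← pow_add, ← pow_succ, show m + 2 + (m + 2) + 1 = 2 * m + 5 by ring]
      exact W_le_all hm y i
    exact key i j a _ ha0 hij (hW i) (hW j)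

lemma local_Psi (hm : 1 ≤ m) {y : Fin 5 → K} (hy : ∃ i, y i ≠ 0)
    (hS : ∀ S : OddSet, ∃ i, projS S y i ≠ 0)
    (hPhi : (Gz m (six y)).coeff (2 * m + 1) = 0) (hTh : (Gz m (six y)).coeff (2 * m + 2) = 0)
    (hx : (Ez m (six y)).coeff 1 ≠ 0) :
    WithZero.log (v ((Ez m (six y)).coeff 1)) ≤
      (m + 2 : ℕ) * ∑ S : OddSet, WithZero.log (vmax v (projS S y)) +
      (((m + 2 : ℕ) : ℤ) - 15 * (m + 2 : ℕ)) * WithZero.log (vmax v y) := by
  obtain ⟨S₀, h0⟩ := exists_special v y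
  exact log_of_special hy hS h0 hx (local_Psi_bound hm hy hS hPhi hTh S₀)

lemma local_c (hm : 1 ≤ m) {y : Fin 5 → K} (hy : ∃ i, y i ≠ 0)
    (hS : ∀ S : OddSet, ∃ i, projS S y i ≠ 0)
    (hPhi : (Gz m (six y)).coeff (2 * m + 1) = 0) (hTh : (Gz m (six y)).coeff (2 * m + 2) = 0)
    (hPsi : (Ez m (six y)).coeff 1 = 0)
    (hx : (Ez m (six y)).coeff 0 ≠ 0) :
    WithZero.log (v ((Ez m (six y)).coeff 0)) ≤
      (m + 2 : ℕ) * ∑ S : OddSet, WithZero.log (vmax v (projS S y)) +
      (((m + 3 : ℕ) : ℤ) - 15 * (m + 2 : ℕ)) * WithZero.log (vmax v y) := by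
  obtain ⟨S₀, h0⟩ := exists_special v y
  refine log_of_special hy hS h0 hx ?_
  obtain ⟨b, hb⟩ := (clu_projS (v := v) S₀ y).nonempty
  have h1 := (clu_projS (v := v) S₀ y).W_le hm hb
  have h2 := Ez_linear m (six y) hPhi hTh
  rw [hPsi, C_0, zero_mul, zero_add] at h2
  rw [h2] at h1
  simpa using h1

end

end Nef87
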