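import Pool.Agent.Lib_helper87.Nef.Zoom

/-!
# Lower bound for `c`: reduction, scaling, translation
-/

namespace Nef87

open Polynomial Finset
open scoped WithZero
open NefRed

section Scale

variable {A : Type*} [CommRing A]

lemma Fz_scale (s : A) (z : Fin 6 → A) :
    Fz (fun i => s * z i) = (Fz z).comp (C s * X) := by
  unfold Fz
  rw [Polynomial.prod_comp]
  refine Finset.prod_congr rfl fun i _ => ?_
  simp only [sub_comp, one_comp, mul_comp, C_comp, X_comp, C_mul]
  ring

lemma coeff_Gz_scale (m : ℕ) (s : A) (z : Fin 6 → A) (j : ℕ) :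
    (Gz m (fun i => s * z i)).coeff j = s ^ j * (Gz m z).coeff j := by
  unfold Gz
  rw [Fz_scale, ← pow_comp, comp_C_mul_X_coeff, _root_.mul_comm]

lemma fz_scale (s : A) (z : Fin 6 → A) :
    (fz (fun i => s * z i)).comp (C s * X) = C (s ^ 6) * fz z := by
  unfold fz
  rw [Polynomial.prod_comp, C_pow]
  have h6 : (C s : A[X]) ^ 6 = ∏ _i : Fin 6, C s := by simp
  rw [h6, ← Finset.prod_mul_distrib]
  refine Finset.prod_congr rfl fun i _ => ?_
  simp only [sub_comp, X_comp, C_comp, C_mul, mul_comp]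
  ring

lemma Rz_scale (m : ℕ) (s : A) (z : Fin 6 → A) :
    (Rz m (fun i => s * z i)).comp (C s * X) = C (s ^ (2 * m)) * Rz m z := by
  ext j
  rw [comp_C_mul_X_coeff, coeff_C_mul]
  by_cases h : j ≤ 2 * m
  · rw [coeff_Rz m _ j (2 * m - j) (by omega), coeff_Rz m z j (2 * m - j) (by omega),
      coeff_Gz_scale]
    have : s ^ (2 * m) = s ^ (2 * m - j) * s ^ j := by rw [← pow_add]; congr 1; omega
    rw [this]; ring
  · rw [coeff_eq_zero_of_natDegree_lt (lt_of_le_of_lt (natDegree_Rz m z) (by omega)),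
      coeff_eq_zero_of_natDegree_lt (lt_of_le_of_lt (natDegree_Rz m _) (by omega))]
    ring

lemma Ez_scale (m : ℕ) (s : A) (z : Fin 6 → A) :
    C s * (Ez m (fun i => s * z i)).comp (C s * X) = C (s ^ (2 * m + 6)) * Ez m z := by
  have hdR : C s * (derivative (Rz m fun i => s * z i)).comp (C s * X) =
      derivative ((Rz m fun i => s * z i).comp (C s * X)) := by
    rw [derivative_comp]; simp
  have hdf : C s * (derivative (fz fun i => s * z i)).comp (C s * X) =
      derivative ((fz fun i => s * z i).comp (C s * X)) := by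
    rw [derivative_comp]; simp
  have h1 : C s * (Ez m (fun i => s * z i)).comp (C s * X) =
      2 * (fz fun i => s * z i).comp (C s * X) * (C s * (derivative (Rz m fun i => s * z i)).comp
        (C s * X)) + (C s * (derivative (fz fun i => s * z i)).comp (C s * X)) *
        (Rz m fun i => s * z i).comp (C s * X) := by
    simp only [Ez, add_comp, mul_comp, ofNat_comp]
    push_cast
    ring
  rw [h1, hdR, hdf, fz_scale, Rz_scale, derivative_C_mul, derivative_C_mul, Ez, pow_add, C_mul]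
  ring

end Scale

section ScaleField

variable {K : Type*} [Field K]

lemma Ez_scale_const (m : ℕ) (s : K) (hs : s ≠ 0) (z : Fin 6 → K) (c : K) (h : Ez m z = C c) :
    Ez m (fun i => s * z i) = C (s ^ (2 * m + 5) * c) := by
  have h1 := Ez_scale m s z
  rw [h, ← C_mul] at h1
  have h2 : (Ez m (fun i => s * z i)).comp (C s * X) = C (s ^ (2 * m + 5) * c) := by
    have h3 : C s * (Ez m (fun i => s * z i)).comp (C s * X) = C s * C (s ^ (2 * m + 5) * c) := by
      rw [h1, ← C_mul]; congr 1; ring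
    exact mul_left_cancel₀ (C_ne_zero.mpr hs) h3
  have h4 := congrArg (fun P => P.comp (C s⁻¹ * X)) h2
  simp only [comp_assoc, C_comp] at h4
  have h5 : (C s * X : K[X]).comp (C s⁻¹ * X) = X := by
    simp only [mul_comp, C_comp, X_comp]
    rw [← mul_assoc, ← C_mul, mul_inv_cancel₀ hs, C_1, one_mul]
  rwa [h5, comp_X] at h4

lemma Ez_translate_const (m : ℕ) [CharP K (2 * m + 3)] (hprime : (2 * m + 3).Prime)
    (z : Fin 6 → K) (a c : K) (h : Ez m z = C c) : Ez m (fun i => z i - a) = C c := by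
  have h1 := Ez_comp m hprime z a
  rw [h] at h1
  have h4 := congrArg (fun P => P.comp (X + C a)) h1
  simp only [comp_assoc, C_comp] at h4
  have h5 : (X - C a : K[X]).comp (X + C a) = X := by
    simp
  rwa [h5, comp_X] at h4

end ScaleField

/-- Lower bound after normalisation and translation. -/
lemma lower_core {K : Type} [Field K] (v : Valuation K ℤᵐ⁰) {m : ℕ}
    [hp : Fact (2 * m + 3).Prime] [CharP K (2 * m + 3)]
    (z : Fin 6 → K) (hint : ∀ i, v (z i) ≤ 1) (T : Finset (Fin 6)) (i₁ j₁ k₀ : Fin 6)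
    (hi₁ : i₁ ∈ T) (hj₁ : j₁ ∈ T) (hk₀ : k₀ ∉ T) (hz : z j₁ = 0) (hz1 : z i₁ ≠ 0)
    (hd : v (z i₁) < 1) (hT : ∀ i ∈ T, v (z i) ≤ v (z i₁)) (hout : ∀ i ∉ T, v (z i) = 1)
    (c : K) (hE : Ez m z = C c) (hc : v c < 1) :
    ∃ n, T.card + 2 * n = 2 * m + 3 ∧ v (z i₁) ^ (n + (T.card - 1)) ≤ v c := by
  classical
  let O := v.valuationSubring
  let zO : Fin 6 → O := fun i => ⟨z i, hint i⟩
  let res := IsLocalRing.residue O
  have hzO : O.subtype ∘ zO = z := rfl
  have hinj : Function.Injective (Polynomial.map O.subtype) :=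
    Polynomial.map_injective _ Subtype.val_injective
  have hEO : Ez m zO = C (⟨c, hc.le⟩ : O) := by
    apply hinj
    rw [Ez_map, hzO, hE, Polynomial.map_C]; rfl
  have hEr : Ez m (res ∘ zO) = 0 := by
    rw [← Ez_map, hEO, Polynomial.map_C]
    have : res (⟨c, hc.le⟩ : O) = 0 := (res_eq_zero_iff v _).mpr hc
    rw [this, C_0]
  have hchar : CharP (IsLocalRing.ResidueField O) (2 * m + 3) := charP_res v
  have hres0 : ∀ i, (res ∘ zO) i = 0 ↔ i ∈ T := by
    intro i
    rw [Function.comp_apply, res_eq_zero_iff v (zO i)]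
    show v (z i) < 1 ↔ i ∈ T
    constructor
    · intro h
      by_contra hi
      rw [hout i hi] at h
      exact lt_irrefl _ h
    · intro h
      exact lt_of_le_of_lt (hT i h) hd
  have hne : (res ∘ zO) j₁ ≠ (res ∘ zO) k₀ := by
    rw [(hres0 j₁).mpr hj₁]
    intro h
    exact hk₀ ((hres0 k₀).mp h.symm)
  obtain ⟨_, h2, _⟩ := two_clusters (res ∘ zO) (Rz m (res ∘ zO)) (Rz_monic m _)
    (natDegree_Rz_eq m _) hEr j₁ k₀ hne
  rw [(hres0 j₁).mpr hj₁] at h2
  have hfil : (univ.filter fun i => (res ∘ zO) i = 0) = T := by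
    ext i
    rw [Finset.mem_filter]
    exact ⟨fun h => (hres0 i).mp h.2, fun h => ⟨mem_univ _, (hres0 i).mpr h⟩⟩
  rw [hfil] at h2
  refine ⟨_, h2, ?_⟩
  have hRO : (Rz m zO).map O.subtype = Rz m z := by rw [Rz_map, hzO]
  have hRc : ∀ j, ((Rz m zO).coeff j : K) = (Rz m z).coeff j := by
    intro j
    rw [← hRO, coeff_map]; rfl
  refine zoom v z T h2 i₁ j₁ hi₁ hj₁ hz hz1 hd hT hout (Rz m z) ?_ ?_ c hE
  · intro j
    rw [← hRc]
    exact ((Rz m zO).coeff j).2
  · rw [← hRc, ← isUnit_O_iff v]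
    have h3 : (Rz m (res ∘ zO)).coeff ((Rz m (res ∘ zO)).rootMultiplicity 0) ≠ 0 := by
      rw [rootMultiplicity_eq_natTrailingDegree']
      intro h
      exact (Rz_monic m _).ne_zero (coeff_natTrailingDegree_eq_zero.mp h)
    rw [← Rz_map, coeff_map] at h3
    rw [← IsLocalRing.residue_ne_zero_iff_isUnit]
    convert h3 using 3
    rw [Rz_map]

end Nef87
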