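import Pool.Agent.Lib_helper87.Nef.Spread5

namespace NefRed

open scoped WithZero
open Polynomial IntermediateField Filter

lemma aeval_map_int2 {R S : Type} [CommRing R] [CommRing S] (φ : R →+* S) {m : ℕ}
    (η : Fin m → R[X][X]) (P : MvPolynomial (Fin m) ℤ) :
    (MvPolynomial.aeval η P).map (mapRingHom φ) =
      MvPolynomial.aeval (fun i => (η i).map (mapRingHom φ)) P :=
  aeval_map_int (mapRingHom (mapRingHom φ)) η P

theorem spread_aux (k : Type) [Field k] [CharZero k] [IsAlgClosed k] [Algebra.IsAlgebraic ℚ k]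
    (K : Type) [Field K] [Algebra k K] (hK : IsFunctionField k K) {m : ℕ} (y : Fin m → K) :
    ∃ c : K, c ≠ 0 ∧
      ∀ (J r : ℕ) (B : Fin J → Fin r → MvPolynomial (Fin m) ℤ),
        (∀ j, ∃ l, MvPolynomial.aeval (fun i => c * y i) (B j l) ≠ 0) →
        ∃ p0 : ℕ, ∀ p : ℕ, p.Prime → p0 < p →
          ∃ (κ : Type) (_ : Field κ) (_ : IsAlgClosed κ) (_ : CharP κ p) (s : ℕ)
            (L : Fin s → Type) (_ : ∀ i, Field (L i)) (_ : ∀ i, Algebra κ (L i))
            (_ : ∀ i, Algebra (RatFunc κ) (L i)) (_ : ∀ i, IsScalarTower κ (RatFunc κ) (L i))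
            (_ : ∀ i, FiniteDimensional (RatFunc κ) (L i))
            (_ : ∀ i, Algebra.IsSeparable (RatFunc κ) (L i)) (z : ∀ i, Fin m → L i),
            (∀ i j, ∃ l, MvPolynomial.aeval (z i) (B j l) ≠ 0) ∧
            ∀ j, ∑ i, degO1 κ (fun l => MvPolynomial.aeval (z i) (B j l)) =
              degO1 k (fun l => MvPolynomial.aeval (fun i => c * y i) (B j l)) := by
  classical
  obtain ⟨alg, tower, fd, sep, pb, G, η, c, hGmon, hGk, hc, hη⟩ := exists_model k K hK y
  refine ⟨c, hc, fun J r B hB => ?_⟩
  set φ := algebraMap k[X] (RatFunc k) with hφ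
  have hφinj : Function.Injective φ := RatFunc.algebraMap_injective k
  -- values
  have hval : ∀ j l, aeval pb.gen ((MvPolynomial.aeval η (B j l)).map φ) =
      MvPolynomial.aeval (fun i => c * y i) (B j l) := by
    intro j l
    have h1 := aeval_map_int (((aeval pb.gen : (RatFunc k)[X] →ₐ[RatFunc k] K).toRingHom).comp
      (mapRingHom φ)) η (B j l)
    have h2 : (fun i => c * y i) = fun i => (((aeval pb.gen : (RatFunc k)[X] →ₐ[RatFunc k] K).toRingHom).comp
      (mapRingHom φ)) (η i) := by
      funext i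
      exact hη i
    rw [h2, ← h1]
    rfl
  let b : Fin J → Fin r → k[X][X] := fun j l => MvPolynomial.aeval η (B j l)
  obtain ⟨M, hM⟩ : ∃ M : ℕ, ∀ j l, (b j l).natDegree ≤ M :=
    ⟨∑ j, ∑ l, (b j l).natDegree, fun j l =>
      (Finset.single_le_sum (f := fun l => (b j l).natDegree) (fun _ _ => Nat.zero_le _)
        (Finset.mem_univ l)).trans
      (Finset.single_le_sum (f := fun j => ∑ l, (b j l).natDegree) (fun _ _ => Nat.zero_le _)
        (Finset.mem_univ j))⟩
  obtain ⟨N0, hN0⟩ : ∃ N0 : ℕ, N0 = G.natDegree * r + 1 := ⟨_, rfl⟩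
  have hGpos : 0 < G.natDegree := by
    have h1 : (G.map φ).natDegree = G.natDegree := hGmon.natDegree_map _
    rw [← h1, hGk]
    exact minpoly.natDegree_pos pb.isIntegral_gen
  have hrN : r ≤ N0 := by
    have : r ≤ G.natDegree * r := Nat.le_mul_of_pos_left r hGpos
    omega
  let res : Fin J → ℕ → k[X] := fun j a => G.resultant (comb (b j) (a : k)) G.natDegree M
  have hres : ∀ j, ∃ a < N0, res j a ≠ 0 := by
    intro j
    have h1 : ∃ l, aeval pb.gen ((b j l).map φ) ≠ 0 := by
      obtain ⟨l, hl⟩ := hB j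
      exact ⟨l, by rw [hval j l]; exact hl⟩
    obtain ⟨a, ha, hne⟩ := exists_comb_ne (k := k) (N0 := N0) _ h1 hrN
    refine ⟨a, ha, fun h0 => hne ?_⟩
    have h2 := res_eq_norm k K pb G hGmon hGk (comb (b j) (a : k)) M
      (natDegree_comb_le _ _ M (hM j))
    have h3 : G.resultant (comb (b j) (a : k)) G.natDegree M = 0 := h0
    rw [h3, map_zero] at h2
    have h4 := Algebra.norm_eq_zero_iff.mp h2.symm
    rwa [aeval_comb] at h4
  choose g n u hg0 hgn hgu using fun j => exists_gcd_data N0 (res j) (hres j)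
  -- separability
  have hsep : (minpoly (RatFunc k) pb.gen).Separable :=
    Algebra.IsSeparable.isSeparable (RatFunc k) pb.gen
  obtain ⟨U', W', hUW'⟩ := hsep
  obtain ⟨d, hd, η', hη'⟩ := clear_denoms (fun i : Bool => if i then U' else W')
  have hUW : η' true * G + η' false * derivative G = C d := by
    apply Polynomial.map_injective φ hφinj
    rw [Polynomial.map_add, Polynomial.map_mul, Polynomial.map_mul, ← derivative_map,
      Polynomial.map_C, hη' true, hη' false, hGk]
    simp only [if_true, Bool.false_eq_true, if_false]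
    rw [mul_assoc, mul_assoc, ← mul_add, hUW', mul_one]
  -- everything lifts to valuation rings over large primes
  have ev1 := eventually_lift2 (k := k) G
  have ev2 : ∀ᶠ V : ValuationSubring k in nf k, ∀ i, ∃ Q : Polynomial (Polynomial V),
      Q.map (mapRingHom V.subtype) = η i := Filter.eventually_all.mpr fun i => eventually_lift2 _
  have ev3 : ∀ᶠ V : ValuationSubring k in nf k, ∀ j, ∃ Q : Polynomial V,
      Q.map V.subtype = g j := Filter.eventually_all.mpr fun i => eventually_lift _
  have ev4 : ∀ᶠ V : ValuationSubring k in nf k, ∀ j, ∀ a ∈ Finset.range N0, ∃ Q : Polynomial V,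
      Q.map V.subtype = n j a := Filter.eventually_all.mpr fun i =>
        (Filter.eventually_all_finset _).mpr fun a _ => eventually_lift _
  have ev5 : ∀ᶠ V : ValuationSubring k in nf k, ∀ j, ∀ a ∈ Finset.range N0, ∃ Q : Polynomial V,
      Q.map V.subtype = u j a := Filter.eventually_all.mpr fun i =>
        (Filter.eventually_all_finset _).mpr fun a _ => eventually_lift _
  have ev6 : ∀ᶠ V : ValuationSubring k in nf k, ∀ i, ∃ Q : Polynomial (Polynomial V),
      Q.map (mapRingHom V.subtype) = η' i := Filter.eventually_all.mpr fun i => eventually_lift2 _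
  have ev7 := eventually_lift (k := k) d
  have ev8 : ∀ᶠ V : ValuationSubring k in nf k, V.valuation d.leadingCoeff = 1 :=
    eventually_unit _ (leadingCoeff_ne_zero.mpr hd)
  have ev9 : ∀ᶠ V : ValuationSubring k in nf k, ∀ j, V.valuation (g j).leadingCoeff = 1 :=
    Filter.eventually_all.mpr fun j => eventually_unit _ (leadingCoeff_ne_zero.mpr (hg0 j))
  have ev10 : ∀ᶠ V : ValuationSubring k in nf k, ∀ j, ∀ a ∈ Finset.range N0,
      (g j * n j a ≠ 0 → V.valuation (g j * n j a).leadingCoeff = 1) :=
    Filter.eventually_all.mpr fun j => (Filter.eventually_all_finset _).mpr fun a _ => by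
      by_cases h : g j * n j a = 0
      · exact Filter.Eventually.of_forall fun V h' => absurd h h'
      · filter_upwards [eventually_unit _ (leadingCoeff_ne_zero.mpr h)] with V hV _
        exact hV
  obtain ⟨p1, hp1⟩ := (eventually_nf k).mp (ev1.and (ev2.and (ev3.and (ev4.and (ev5.and (ev6.and
    (ev7.and (ev8.and (ev9.and ev10)))))))))
  refine ⟨max p1 N0, fun p hp hlt => ?_⟩
  obtain ⟨V, hV⟩ := exists_above k p hp
  obtain ⟨⟨Gv, hGv⟩, h2, h3, h4, h5, h6, ⟨dv, hdv⟩, h8, h9, h10⟩ :=
    hp1 V p hp (lt_of_le_of_lt (le_max_left _ _) hlt) hV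
  choose ηv hηv using h2
  choose gv hgv using h3
  choose nv0 hnv0 using h4
  choose uv0 huv0 using h5
  choose η'v hη'v using h6
  let nv : Fin J → ℕ → Polynomial V := fun j a =>
    if h : a ∈ Finset.range N0 then nv0 j a h else 0
  let uv : Fin J → ℕ → Polynomial V := fun j a =>
    if h : a ∈ Finset.range N0 then uv0 j a h else 0
  have hnv : ∀ j, ∀ a < N0, (nv j a).map V.subtype = n j a := by
    intro j a ha
    have ha' := Finset.mem_range.mpr ha
    simp only [nv, dif_pos ha']
    exact hnv0 j a ha'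
  have huv : ∀ j, ∀ a < N0, (uv j a).map V.subtype = u j a := by
    intro j a ha
    have ha' := Finset.mem_range.mpr ha
    simp only [uv, dif_pos ha']
    exact huv0 j a ha'
  have hinj : Function.Injective V.subtype := Subtype.val_injective
  have hinj1 : Function.Injective (mapRingHom V.subtype) := Polynomial.map_injective _ hinj
  have hinj2 : Function.Injective (Polynomial.map (mapRingHom V.subtype)) :=
    Polynomial.map_injective _ hinj1
  have hGvmon : Gv.Monic := Polynomial.monic_of_injective hinj1 (by rw [hGv]; exact hGmon)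
  have hGvdeg : Gv.natDegree = G.natDegree := by
    rw [← hGv, natDegree_map_eq_of_injective hinj1]
  have hbv : ∀ j l, (MvPolynomial.aeval ηv (B j l)).map (mapRingHom V.subtype) = b j l := by
    intro j l
    have h1 := aeval_map_int2 V.subtype ηv (B j l)
    rw [h1]
    have h2 : (fun i => (ηv i).map (mapRingHom V.subtype)) = η := funext hηv
    rw [h2]
  have hcombv : ∀ j (a : ℕ), (comb (fun l => MvPolynomial.aeval ηv (B j l)) (a : V)).map
      (mapRingHom V.subtype) = comb (b j) (a : k) := by
    intro j a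
    rw [comb_map, map_natCast]
    congr 1
    funext l
    exact hbv j l
  have hκ := residue_isAlgClosed V
  have hchar := residue_charP V p hp hV
  have hgd := fun j => residue_natDegree V (gv j) (fun _ => by rw [hgv]; exact h9 j)
  have key := reduce V.subtype (IsLocalRing.residue V) pb Gv hGvmon (by rw [hGv, hGk])
    (η'v true) (η'v false) dv ?_ ?_ ηv B M ?_ N0 ?_ ?_ gv nv uv ?_ ?_ ?_ ?_ (fun j => (hgd j).1) ?_
  · obtain ⟨s, L, i1, i2, i3, i4, i5, i6, z, hz1, hz2⟩ := key
    refine ⟨IsLocalRing.ResidueField V, inferInstance, hκ, hchar, s, L, i1, i2, i3, i4, i5, i6, z,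
      hz1, fun j => ?_⟩
    rw [hz2 j]
    have h2 : (fun i => c * y i) = fun i => aeval pb.gen (((ηv i).map
        (mapRingHom V.subtype)).map (algebraMap k[X] (RatFunc k))) := by
      funext i
      rw [hηv i]
      exact hη i
    rw [h2]
  · -- separability identity
    apply hinj2
    rw [Polynomial.map_add, Polynomial.map_mul, Polynomial.map_mul, ← derivative_map,
      Polynomial.map_C, hη'v true, hη'v false, hGv, hUW, coe_mapRingHom, hdv]
  · have h := residue_natDegree V dv (fun _ => by rw [hdv]; exact h8)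
    refine h.2 ?_
    rintro rfl
    rw [Polynomial.map_zero] at hdv
    exact hd hdv.symm
  · intro j l
    have h1 := hM j l
    rwa [← hbv j l, natDegree_map_eq_of_injective hinj1] at h1
  · intro x y hx hy hxy
    have hlt' : N0 < p := lt_of_le_of_lt (le_max_right _ _) hlt
    exact CharP.natCast_injOn_Iio (IsLocalRing.ResidueField V) p
      (by simp only [Set.mem_Iio]; omega) (by simp only [Set.mem_Iio]; omega) hxy
  · rw [hGvdeg]; omega
  · intro j
    rw [hgv]; exact hg0 j
  · intro j
    refine (hgd j).2 ?_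
    intro h
    have h1 := hgv j
    rw [h, Polynomial.map_zero] at h1
    exact hg0 j h1.symm
  · intro j a ha
    apply hinj1
    rw [← resultant_map_map, hGv, hcombv, hGvdeg, coe_mapRingHom, Polynomial.map_mul, hgv,
      hnv j a ha]
    exact hgn j a ha
  · intro j
    apply hinj1
    rw [map_sum, map_one, ← hgu j]
    refine Finset.sum_congr rfl fun a ha => ?_
    have ha' := Finset.mem_range.mp ha
    rw [coe_mapRingHom, Polynomial.map_mul, hnv j a ha', huv j a ha']
  · intro j a ha
    refine (residue_natDegree V (gv j * nv j a) ?_).1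
    intro hne
    rw [Polynomial.map_mul, hgv, hnv j a ha]
    refine h10 j a (Finset.mem_range.mpr ha) ?_
    intro h
    apply hne
    apply hinj1
    rw [map_zero, coe_mapRingHom, Polynomial.map_mul, hgv, hnv j a ha, h]

theorem spread (K : Type) [Field K] [Algebra (AlgebraicClosure ℚ) K]
    (hK : IsFunctionField (AlgebraicClosure ℚ) K) {m : ℕ} (y : Fin m → K) :
    ∃ c : K, c ≠ 0 ∧
      ∀ (J r : ℕ) (B : Fin J → Fin r → MvPolynomial (Fin m) ℤ),
        (∀ j, ∃ l, MvPolynomial.aeval (fun i => c * y i) (B j l) ≠ 0) →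
        ∃ p0 : ℕ, ∀ p : ℕ, p.Prime → p0 < p →
          ∃ (κ : Type) (_ : Field κ) (_ : IsAlgClosed κ) (_ : CharP κ p) (s : ℕ)
            (L : Fin s → Type) (_ : ∀ i, Field (L i)) (_ : ∀ i, Algebra κ (L i))
            (_ : ∀ i, Algebra (RatFunc κ) (L i)) (_ : ∀ i, IsScalarTower κ (RatFunc κ) (L i))
            (_ : ∀ i, FiniteDimensional (RatFunc κ) (L i))
            (_ : ∀ i, Algebra.IsSeparable (RatFunc κ) (L i)) (z : ∀ i, Fin m → L i),
            (∀ i j, ∃ l, MvPolynomial.aeval (z i) (B j l) ≠ 0) ∧
            ∀ j, ∑ i, degO1 κ (fun l => MvPolynomial.aeval (z i) (B j l)) =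
              degO1 (AlgebraicClosure ℚ)
                (fun l => MvPolynomial.aeval (fun i => c * y i) (B j l)) := by
  have h : @Algebra.IsAlgebraic ℚ (AlgebraicClosure ℚ) _ _ DivisionRing.toRatAlgebra := by
    have h := AlgebraicClosure.isAlgebraic ℚ
    have e : (DivisionRing.toRatAlgebra : Algebra ℚ (AlgebraicClosure ℚ)) =
      AlgebraicClosure.instAlgebra ℚ := Subsingleton.elim _ _
    rw [e]
    exact h
  exact spread_aux (AlgebraicClosure ℚ) K hK y

end NefRed
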