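import Pool.Agent.Lib_helper87.Nef.NefP
import Pool.Agent.Lib_helper87.Nef.Spread6

/-!
# Nonnegativity in characteristic zero (points away from the centres)
-/

namespace Nef87

open Finset
open scoped WithZero
open NefRed

lemma vmax_smul {K ι : Type} [Field K] [Fintype ι] (v : Valuation K ℤᵐ⁰) (c : K) (x : ι → K) :
    vmax v (fun i => c * x i) = v c * vmax v x := by
  unfold vmax
  by_cases hc : v c = 0
  · rw [hc, zero_mul]
    rw [← bot_eq_zero, Finset.sup_eq_bot_iff]
    intro i _
    rw [map_mul, hc, zero_mul]; rfl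
  · apply le_antisymm
    · refine Finset.sup_le fun i hi => ?_
      rw [map_mul]
      exact mul_le_mul' le_rfl (Finset.le_sup (f := fun i => v (x i)) hi)
    · have h1 : Finset.univ.sup (fun i => v (x i)) ≤
          (v c)⁻¹ * Finset.univ.sup (fun i => v (c * x i)) := by
        refine Finset.sup_le fun i hi => ?_
        have h2 : v (c * x i) ≤ Finset.univ.sup (fun i => v (c * x i)) :=
          Finset.le_sup (f := fun i => v (c * x i)) hi
        calc v (x i) = (v c)⁻¹ * v (c * x i) := by rw [map_mul, inv_mul_cancel_left₀ hc]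
          _ ≤ _ := mul_le_mul' le_rfl h2
      calc v c * Finset.univ.sup (fun i => v (x i)) ≤
            v c * ((v c)⁻¹ * Finset.univ.sup (fun i => v (c * x i))) := mul_le_mul' le_rfl h1
        _ = _ := by rw [mul_inv_cancel_left₀ hc]

section

variable {k : Type} [Field k] [IsAlgClosed k] {K : Type} [Field K] [Algebra k K]
  [Algebra (RatFunc k) K] [IsScalarTower k (RatFunc k) K]
  [FiniteDimensional (RatFunc k) K] [Algebra.IsSeparable (RatFunc k) K]

lemma log_support_finite {c : K} (hc : c ≠ 0) :
    (Function.support fun v : Place k K => WithZero.log (v.val c)).Finite := by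
  refine (finite_support k K c hc).subset ?_
  intro v hv h
  apply hv
  show WithZero.log (v.val c) = 0
  rw [h, WithZero.log_one]

theorem degO1_smul {ι : Type} [Fintype ι] (c : K) (hc : c ≠ 0) (x : ι → K) (hx : ∃ i, x i ≠ 0) :
    degO1 k (fun i => c * x i) = degO1 k x := by
  unfold degO1
  have h : ∀ v : Place k K, WithZero.log (vmax v.val fun i => c * x i) =
      WithZero.log (v.val c) + WithZero.log (vmax v.val x) := by
    intro v
    rw [vmax_smul, WithZero.log_mul ((Valuation.ne_zero_iff _).mpr hc) (vmax_ne_zero v.val x hx)]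
  simp_rw [h]
  rw [finsum_add_distrib (log_support_finite (k := k) hc) (vmax_support_finite (k := k) x hx),
    product_formula k K c hc, zero_add]

end

/-- The seventeen blocks of linear forms. -/
noncomputable def blocks (a : Option OddSet) : Fin 5 → MvPolynomial (Fin 5) ℤ :=
  match a with
  | none => MvPolynomial.X
  | some S => projS S MvPolynomial.X

lemma aeval_blocks_some {K : Type} [CommRing K] (S : OddSet) (y : Fin 5 → K) (l : Fin 5) :
    MvPolynomial.aeval y (blocks (some S) l) = projS S y l := by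
  simp only [blocks, projS]
  split_ifs <;> simp

lemma aeval_blocks_none {K : Type} [CommRing K] (y : Fin 5 → K) (l : Fin 5) :
    MvPolynomial.aeval y (blocks none l) = y l := by
  simp [blocks]

lemma projS_smul {K : Type} [CommRing K] (S : OddSet) (c : K) (y : Fin 5 → K) (l : Fin 5) :
    projS S (fun i => c * y i) l = c * projS S y l := by
  simp only [projS]
  split_ifs <;> ring

noncomputable def eOpt : Fin 17 ≃ Option OddSet :=
  (Fintype.equivFinOfCardEq (by rw [Fintype.card_option, card_oddSet])).symm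

/-- **Nonnegativity over `ℚbar`** for points that are not one of the sixteen centres. -/
theorem nonneg_char_zero (K : Type) [Field K] [Algebra (AlgebraicClosure ℚ) K]
    (hK : IsFunctionField (AlgebraicClosure ℚ) K) (y : Fin 5 → K) (hy : ∃ i, y i ≠ 0)
    (hS : ∀ S : OddSet, ∃ i, projS S y i ≠ 0) :
    0 ≤ ∑ S : OddSet, degO1 (AlgebraicClosure ℚ) (projS S y) -
      14 * degO1 (AlgebraicClosure ℚ) y := by
  classical
  obtain ⟨c, hc, hspread⟩ := spread K hK y
  obtain ⟨alg, tower, fd, sep, _⟩ := exists_model (AlgebraicClosure ℚ) K hK y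
  have hcy : ∀ S : OddSet, degO1 (AlgebraicClosure ℚ) (projS S fun i => c * y i) =
      degO1 (AlgebraicClosure ℚ) (projS S y) := by
    intro S
    have : (projS S fun i => c * y i) = fun l => c * projS S y l := funext fun l => projS_smul S c y l
    rw [this, degO1_smul c hc _ (hS S)]
  have hcy0 : degO1 (AlgebraicClosure ℚ) (fun i => c * y i) = degO1 (AlgebraicClosure ℚ) y :=
    degO1_smul c hc y hy
  obtain ⟨p0, hp0⟩ := hspread 17 5 (fun j => blocks (eOpt j)) (by
    intro j
    cases h : eOpt j with
    | none =>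
      obtain ⟨i, hi⟩ := hy
      refine ⟨i, ?_⟩
      rw [aeval_blocks_none]
      exact mul_ne_zero hc hi
    | some S =>
      obtain ⟨i, hi⟩ := hS S
      refine ⟨i, ?_⟩
      rw [aeval_blocks_some, projS_smul]
      exact mul_ne_zero hc hi)
  -- choose a large prime
  obtain ⟨p, hpge, hp⟩ := Nat.exists_infinite_primes
    (max (p0 + 1) (2 * (degO1 (AlgebraicClosure ℚ) y).toNat + 7))
  have hp1 : p0 < p := lt_of_lt_of_le (Nat.lt_succ_self p0) ((le_max_left _ _).trans hpge)
  have hp2 : 2 * (degO1 (AlgebraicClosure ℚ) y).toNat + 7 ≤ p := (le_max_right _ _).trans hpge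
  have hodd : Odd p := hp.odd_of_ne_two (by omega)
  obtain ⟨m', hm'⟩ := hodd
  obtain ⟨m, rfl⟩ : ∃ m, p = 2 * m + 3 := ⟨m' - 1, by omega⟩
  have hm : 1 ≤ m := by omega
  have hmy : degO1 (AlgebraicClosure ℚ) y < m := by
    have h1 : (degO1 (AlgebraicClosure ℚ) y).toNat < m := by omega
    omega
  obtain ⟨κ, fκ, acκ, chκ, s, L, fL, aL, aR, tL, fdL, sepL, z, hz1, hz2⟩ := hp0 _ hp hp1
  have : Fact (2 * m + 3).Prime := ⟨hp⟩
  -- translate the block conditions
  have hz1y : ∀ i, ∃ l, z i l ≠ 0 := by
    intro i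
    obtain ⟨l, hl⟩ := hz1 i (eOpt.symm none)
    rw [Equiv.apply_symm_apply, aeval_blocks_none] at hl
    exact ⟨l, hl⟩
  have hz1S : ∀ i (S : OddSet), ∃ l, projS S (z i) l ≠ 0 := by
    intro i S
    obtain ⟨l, hl⟩ := hz1 i (eOpt.symm (some S))
    rw [Equiv.apply_symm_apply, aeval_blocks_some] at hl
    exact ⟨l, hl⟩
  have hz2y : ∑ i, degO1 κ (z i) = degO1 (AlgebraicClosure ℚ) y := by
    have := hz2 (eOpt.symm none)
    simp only [Equiv.apply_symm_apply, aeval_blocks_none] at this
    rw [← hcy0, ← this]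
  have hz2S : ∀ S : OddSet, ∑ i, degO1 κ (projS S (z i)) =
      degO1 (AlgebraicClosure ℚ) (projS S y) := by
    intro S
    have := hz2 (eOpt.symm (some S))
    simp only [Equiv.apply_symm_apply, aeval_blocks_some] at this
    rw [← hcy S, ← this]
  have hnn : ∀ i, 0 ≤ degO1 κ (z i) := fun i => degO1_nonneg_of_proj (hz1y i)
  have hle : ∀ i, degO1 κ (z i) < m := by
    intro i
    refine lt_of_le_of_lt ?_ hmy
    rw [← hz2y]
    exact Finset.single_le_sum (fun j _ => hnn j) (Finset.mem_univ i)
  have hpos : ∀ i, 0 ≤ ∑ S : OddSet, degO1 κ (projS S (z i)) - 14 * degO1 κ (z i) := by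
    intro i
    have : CharP (L i) (2 * m + 3) := charP_of_injective_algebraMap (algebraMap κ (L i)).injective _
    exact nonneg_of_small hm (hz1y i) (hz1S i) (hle i)
  have hsum := Finset.sum_nonneg fun i (_ : i ∈ Finset.univ) => hpos i
  rw [Finset.sum_sub_distrib, Finset.sum_comm, ← Finset.mul_sum, hz2y,
    Finset.sum_congr rfl fun S _ => hz2S S] at hsum
  exact hsum

end Nef87
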