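import Pool.Agent.Lib_helper87.Nef.Lower
import Pool.Agent.Lib_helper87.Nef.NefZero

/-!
# Lower bound for `c` in terms of the projections; negativity
-/

namespace Nef87

open Polynomial Finset
open scoped WithZero
open NefRed

section Local

variable {K : Type} [Field K] {v : Valuation K ℤᵐ⁰}

/-- If `δ < ζ` all differences between the two clusters have the same absolute value. -/
lemma cross_eq {y : Fin 5 → K} {S₀ : OddSet} (hlt : vmax v (projS S₀ y) < vmax v y) {i j : Fin 6}
    (h : ¬ sameCl S₀ i j) : v (six y i - six y j) = vmax v y := by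
  obtain ⟨k, l, hkl⟩ := exists_diff_eq (v := v) y
  have hns : ¬ sameCl S₀ k l := by
    intro h
    have := diff_le_of_sameCl (v := v) S₀ y k l h
    rw [hkl] at this
    exact absurd hlt (not_lt.mpr this)
  refine le_antisymm (diff_le y i j) ?_
  by_contra hcon
  rw [not_le] at hcon
  -- one of `k, l` is in the cluster of `i`, the other in the cluster of `j`
  have key : ∀ k l : Fin 6, sameCl S₀ k i → sameCl S₀ j l → v (six y k - six y l) < vmax v y := by
    intro k l h1 h2
    have e : six y k - six y l = (six y k - six y i) + ((six y i - six y j) + (six y j - six y l)) := by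
      ring
    rw [e]
    refine v.map_add_lt (lt_of_le_of_lt (diff_le_of_sameCl S₀ y k i h1) hlt) ?_
    exact v.map_add_lt hcon (lt_of_le_of_lt (diff_le_of_sameCl S₀ y j l h2) hlt)
  unfold sameCl at h hns key
  by_cases hk : (k ∈ S₀.1.map Fin.castSuccEmb ↔ i ∈ S₀.1.map Fin.castSuccEmb)
  · have h2 : (j ∈ S₀.1.map Fin.castSuccEmb ↔ l ∈ S₀.1.map Fin.castSuccEmb) := by tauto
    have := key k l hk h2
    rw [hkl] at this
    exact lt_irrefl _ this
  · have h1 : (l ∈ S₀.1.map Fin.castSuccEmb ↔ i ∈ S₀.1.map Fin.castSuccEmb) := by tauto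
    have h2 : (j ∈ S₀.1.map Fin.castSuccEmb ↔ k ∈ S₀.1.map Fin.castSuccEmb) := by tauto
    have := key l k h1 h2
    rw [← Valuation.map_neg, neg_sub] at this
    rw [hkl] at this
    exact lt_irrefl _ this

variable {m : ℕ} [hp : Fact (2 * m + 3).Prime] [CharP K (2 * m + 3)]

/-- If the reduction of `E` vanishes, the point reduces to one of the sixteen centres. -/
lemma exists_small_of_reduction {y : Fin 5 → K} (hy1 : ∀ i, v (y i) ≤ 1) (hy2 : ∃ i, v (y i) = 1)
    {c : K} (hE : Ez m (six y) = C c) (hc : v c < 1) :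
    ∃ S : OddSet, vmax v (projS S y) < 1 := by
  classical
  let O := v.valuationSubring
  let yO : Fin 5 → O := fun i => ⟨y i, hy1 i⟩
  let res := IsLocalRing.residue O
  have hsub : O.subtype ∘ (six yO) = six y := by
    funext i
    induction i using Fin.lastCases with
    | last => rw [Function.comp_apply, six_last, six_last, map_zero]
    | cast i => rw [Function.comp_apply, six_castSucc, six_castSucc]; rfl
  have hres : res ∘ (six yO) = six (res ∘ yO) := by
    funext i
    induction i using Fin.lastCases with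
    | last => rw [Function.comp_apply, six_last, six_last, map_zero]
    | cast i => rw [Function.comp_apply, six_castSucc, six_castSucc]; rfl
  have hinj : Function.Injective (Polynomial.map O.subtype) :=
    Polynomial.map_injective _ Subtype.val_injective
  have hEO : Ez m (six yO) = C (⟨c, hc.le⟩ : O) := by
    apply hinj
    rw [Ez_map, hsub, hE, Polynomial.map_C]; rfl
  have hEr : Ez m (six (res ∘ yO)) = 0 := by
    rw [← hres, ← Ez_map, hEO, Polynomial.map_C]
    have : res (⟨c, hc.le⟩ : O) = 0 := (res_eq_zero_iff v _).mpr hc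
    rw [this, C_0]
  have hchar : CharP (IsLocalRing.ResidueField O) (2 * m + 3) := charP_res v
  have hyr : ∃ i, (res ∘ yO) i ≠ 0 := by
    obtain ⟨i, hi⟩ := hy2
    refine ⟨i, fun h => ?_⟩
    have := (res_eq_zero_iff v (yO i)).mp h
    have h2 : v (y i) < 1 := this
    rw [hi] at h2
    exact lt_irrefl _ h2
  obtain ⟨S, hS⟩ := exists_projS_eq_zero (m := m) (res ∘ yO) hyr (Rz m _) (Rz_monic m _)
    (natDegree_Rz_eq m _) hEr
  refine ⟨S, ?_⟩
  obtain ⟨i, hi⟩ := vmax_attained v (projS S y) 0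
  rw [hi]
  have h1 : res (projS S yO i) = 0 := by
    have h2 := hS i
    have h3 : projS S (res ∘ yO) i = res (projS S yO i) := by
      simp only [projS]
      split_ifs <;> simp
    rw [← h3, h2]
  have h4 : ((projS S yO i : O) : K) = projS S y i := by
    simp only [projS]
    split_ifs <;> rfl
  have := (res_eq_zero_iff v _).mp h1
  rwa [h4] at this

lemma six_smul (s : K) (y : Fin 5 → K) : six (fun i => s * y i) = fun i => s * six y i := by
  funext i
  induction i using Fin.lastCases with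
  | last => rw [six_last, six_last, mul_zero]
  | cast i => rw [six_castSucc, six_castSucc]

/-- The lower bound. -/
theorem lower_bound (hm : 1 ≤ m) {y : Fin 5 → K} (hy : ∃ i, y i ≠ 0)
    (hS : ∀ S : OddSet, ∃ i, projS S y i ≠ 0)
    {S₀ : OddSet} (h0 : ∀ S, S ≠ S₀ → vmax v (projS S y) = vmax v y) {c : K}
    (hE : Ez m (six y) = C c) :
    ∃ n, (clT S₀).card + 2 * n = 2 * m + 3 ∧
      vmax v (projS S₀ y) ^ (n + ((clT S₀).card - 1)) *
        vmax v y ^ (2 * m + 5 - (n + ((clT S₀).card - 1))) ≤ v c := by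
  classical
  obtain ⟨n, hn⟩ : ∃ n, (clT S₀).card + 2 * n = 2 * m + 3 := by
    rcases clT_card S₀ with h | h
    · exact ⟨m, by omega⟩
    · exact ⟨m - 1, by omega⟩
  refine ⟨n, hn, ?_⟩
  set μ := (clT S₀).card with hμ
  set α := n + (μ - 1) with hα
  have hμ35 : μ = 3 ∨ μ = 5 := clT_card S₀
  have hα' : α ≤ 2 * m + 5 := by omega
  set a := vmax v y with ha
  set δ := vmax v (projS S₀ y) with hδ
  have ha0 : a ≠ 0 := vmax_ne_zero v _ hy
  have hδ0 : δ ≠ 0 := vmax_ne_zero v _ (hS S₀)
  have hδa : δ ≤ a := projS_le S₀ y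
  -- normalise
  obtain ⟨i₀, hi₀⟩ := vmax_attained v y 0
  have hyi₀ : y i₀ ≠ 0 := by
    intro h
    rw [h, map_zero] at hi₀
    exact ha0 hi₀
  set s := (y i₀)⁻¹ with hs
  have hs0 : s ≠ 0 := inv_ne_zero hyi₀
  have hvs : v s = a⁻¹ := by rw [hs, map_inv₀, ← hi₀]
  set c₁ := s ^ (2 * m + 5) * c with hc₁
  have hE₁ : Ez m (six fun i => s * y i) = C c₁ := by
    rw [six_smul, Ez_scale_const m s hs0 _ c hE]
  have hvc₁ : v c₁ * a ^ (2 * m + 5) = v c := by
    rw [hc₁, map_mul, map_pow, hvs, mul_right_comm, ← mul_pow, inv_mul_cancel₀ ha0, one_pow, one_mul]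
  have hsplit : a ^ (2 * m + 5) = a ^ α * a ^ (2 * m + 5 - α) := by
    rw [← pow_add]; congr 1; omega
  by_cases hc : 1 ≤ v c₁
  · calc δ ^ α * a ^ (2 * m + 5 - α) ≤ a ^ α * a ^ (2 * m + 5 - α) :=
          mul_le_mul' (pow_le_pow_left' hδa _) le_rfl
      _ = 1 * a ^ (2 * m + 5) := by rw [← hsplit, one_mul]
      _ ≤ v c₁ * a ^ (2 * m + 5) := mul_le_mul' hc le_rfl
      _ = v c := hvc₁
  · rw [not_le] at hc
    have hy1 : ∀ i, v (s * y i) ≤ 1 := by
      intro i
      rw [map_mul, hvs]
      calc a⁻¹ * v (y i) ≤ a⁻¹ * a := mul_le_mul' le_rfl (le_vmax v y i)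
        _ = 1 := inv_mul_cancel₀ ha0
    have hy2 : ∃ i, v (s * y i) = 1 := ⟨i₀, by rw [map_mul, hvs, ← hi₀, inv_mul_cancel₀ ha0]⟩
    obtain ⟨S, hSlt⟩ := exists_small_of_reduction (m := m) hy1 hy2 hE₁ hc
    have hproj : (projS S fun i => s * y i) = fun l => s * projS S y l :=
      funext fun l => projS_smul S s y l
    rw [hproj, vmax_smul, hvs] at hSlt
    have hSlt' : vmax v (projS S y) < a := by
      calc vmax v (projS S y) = a * (a⁻¹ * vmax v (projS S y)) := by rw [mul_inv_cancel_left₀ ha0]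
        _ < a * 1 := mul_lt_mul_of_pos_left hSlt (zero_lt_iff.mpr ha0)
        _ = a := mul_one a
    have hSS : S = S₀ := by
      by_contra hne
      rw [h0 S hne] at hSlt'
      exact lt_irrefl _ hSlt'
    have hlt : δ < a := by rw [hSS] at hSlt'; exact hSlt'
    -- the pair realising `δ`
    obtain ⟨i₁, j₁, hsame, hij⟩ := exists_sameCl (v := v) S₀ y
    have hij0 : i₁ ≠ j₁ := by
      rintro rfl
      rw [sub_self, map_zero] at hij
      exact hδ0 hij.symm
    obtain ⟨T, hTi, hTcard, hTsame⟩ : ∃ T : Finset (Fin 6), i₁ ∈ T ∧ T.card = μ ∧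
        ∀ i j, sameCl S₀ i j ↔ (i ∈ T ↔ j ∈ T) := by
      by_cases hi : i₁ ∈ clT S₀
      · exact ⟨clT S₀, hi, hμ.symm, fun i j => sameCl_iff S₀ i j⟩
      · have hj : j₁ ∉ clT S₀ := fun hj => hi (((sameCl_iff S₀ i₁ j₁).mp hsame).mpr hj)
        have hcompl : ((clT S₀)ᶜ).card = 6 - μ := by rw [Finset.card_compl]; simp [hμ]
        refine ⟨(clT S₀)ᶜ, by simpa using hi, ?_, fun i j => ?_⟩
        · rcases hμ35 with h | h
          · omega
          · exfalso
            have hcc : ((clT S₀)ᶜ).card = 1 := by omega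
            obtain ⟨x, hx⟩ := Finset.card_eq_one.mp hcc
            have h1 : i₁ ∈ (clT S₀)ᶜ := by simpa using hi
            have h2 : j₁ ∈ (clT S₀)ᶜ := by simpa using hj
            rw [hx, Finset.mem_singleton] at h1 h2
            exact hij0 (h1.trans h2.symm)
        · rw [sameCl_iff, mem_compl, mem_compl, not_iff_not]
    have hTj : j₁ ∈ T := ((hTsame i₁ j₁).mp hsame).mp hTi
    obtain ⟨k₀, hk₀⟩ : ∃ k₀, k₀ ∉ T := by
      by_contra hcon
      push Not at hcon
      have : T = univ := Finset.eq_univ_iff_forall.mpr hcon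
      rw [this] at hTcard
      simp at hTcard
      omega
    have hz : ∀ i, six (fun i => s * y i) i - six (fun i => s * y i) j₁ =
        s * (six y i - six y j₁) := by
      intro i
      rw [six_smul]; ring
    have hvz : ∀ i, v (six (fun i => s * y i) i - six (fun i => s * y i) j₁) =
        a⁻¹ * v (six y i - six y j₁) := by
      intro i
      rw [hz, map_mul, hvs]
    have hvi₁ : v (six (fun i => s * y i) i₁ - six (fun i => s * y i) j₁) = a⁻¹ * δ := by
      rw [hvz, hij]
    have hcore := lower_core v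
      (fun i => six (fun i => s * y i) i - six (fun i => s * y i) j₁) (m := m) ?_ T i₁ j₁ k₀ hTi hTj
      hk₀ (sub_self _) ?_ ?_ ?_ ?_ c₁ (Ez_translate_const m hp.out _ _ _ hE₁) hc
    · obtain ⟨n', hn', hle⟩ := hcore
      have hnn : n' = n := by omega
      rw [hnn, hTcard] at hle
      have hle' : (a⁻¹ * δ) ^ α ≤ v c₁ := by
        rw [← hvi₁]; exact hle
      calc δ ^ α * a ^ (2 * m + 5 - α) = (a⁻¹ * δ) ^ α * a ^ (2 * m + 5) := by
            rw [hsplit, mul_pow, ← mul_assoc, mul_right_comm ((a⁻¹) ^ α), ← mul_pow,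
              inv_mul_cancel₀ ha0, one_pow, one_mul]
        _ ≤ v c₁ * a ^ (2 * m + 5) := mul_le_mul' hle' le_rfl
        _ = v c := hvc₁
    · intro i
      rw [hvz]
      calc a⁻¹ * v (six y i - six y j₁) ≤ a⁻¹ * a := mul_le_mul' le_rfl (diff_le y i j₁)
        _ = 1 := inv_mul_cancel₀ ha0
    · rw [← Valuation.ne_zero_iff v, hvi₁]
      exact mul_ne_zero (inv_ne_zero ha0) hδ0
    · rw [hvi₁]
      calc a⁻¹ * δ < a⁻¹ * a := mul_lt_mul_of_pos_left hlt (zero_lt_iff.mpr (inv_ne_zero ha0))
        _ = 1 := inv_mul_cancel₀ ha0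
    · intro i hi
      rw [hvi₁, hvz]
      refine mul_le_mul' le_rfl (diff_le_of_sameCl S₀ y i j₁ ?_)
      exact (hTsame i j₁).mpr (iff_of_true hi hTj)
    · intro i hi
      rw [hvz, cross_eq hlt, inv_mul_cancel₀ ha0]
      intro h
      exact hi (((hTsame i j₁).mp h).mpr hTj)

end Local

end Nef87
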