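import Pool.Agent.Lib_helper87.Nef.CharP2

/-!
# Polynomials with zero derivative in characteristic `p`
-/

namespace Nef87

open Polynomial Finset

variable {K : Type*} [Field K]

lemma dvd_rootMultiplicity {p : ℕ} [hp : Fact p.Prime] [CharP K p] (g : K[X]) (hg : derivative g = 0)
    (a : K) : p ∣ g.rootMultiplicity a := by
  have h := expand_contract p hg hp.out.ne_zero
  have : ExpChar K p := ExpChar.prime hp.out
  rw [← h, rootMultiplicity_expand]
  exact Dvd.intro _ rfl

/-- Sum of multiplicities over a finite set of points. -/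
lemma sum_rootMultiplicity_le (g : K[X]) (s : Finset K) :
    ∑ a ∈ s, g.rootMultiplicity a ≤ g.natDegree := by
  classical
  calc ∑ a ∈ s, g.rootMultiplicity a = ∑ a ∈ s, g.roots.count a := by
        simp_rw [count_roots]
    _ = ∑ a ∈ s.filter (· ∈ g.roots), g.roots.count a := by
        rw [Finset.sum_filter_of_ne]
        intro a _ h
        exact Multiset.count_ne_zero.mp h
    _ ≤ ∑ a ∈ g.roots.toFinset, g.roots.count a := by
        refine Finset.sum_le_sum_of_subset ?_
        intro a ha
        exact Multiset.mem_toFinset.mpr (Finset.mem_filter.mp ha).2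
    _ = Multiset.card g.roots := Multiset.toFinset_sum_count_eq _
    _ ≤ g.natDegree := card_roots' g

lemma root_mult_ge {p : ℕ} [hp : Fact p.Prime] [CharP K p] {g : K[X]} (hg0 : g ≠ 0)
    (hg : derivative g = 0) {a : K} (ha : g.eval a = 0) : p ≤ g.rootMultiplicity a := by
  have h1 : 0 < g.rootMultiplicity a := (rootMultiplicity_pos hg0).mpr ha
  exact Nat.le_of_dvd h1 (dvd_rootMultiplicity g hg a)

/-- If `deg g < 2p` and `g' = 0` then `g` has at most one root. -/
lemma roots_eq_of_lt {p : ℕ} [hp : Fact p.Prime] [CharP K p] {g : K[X]} (hg0 : g ≠ 0)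
    (hg : derivative g = 0) (hd : g.natDegree < 2 * p) {a b : K} (ha : g.eval a = 0)
    (hb : g.eval b = 0) : a = b := by
  classical
  by_contra hne
  have h1 := sum_rootMultiplicity_le g {a, b}
  rw [Finset.sum_pair hne] at h1
  have h2 := root_mult_ge hg0 hg ha
  have h3 := root_mult_ge hg0 hg hb
  omega

/-- Multiplicity of a root of the sextic. -/
lemma rootMultiplicity_prod {ι : Type*} [DecidableEq K] (s : Finset ι) (z : ι → K) (a : K) :
    (∏ i ∈ s, (X - C (z i))).rootMultiplicity a = (s.filter fun i => z i = a).card := by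
  rw [← count_roots]
  have h : (∏ i ∈ s, (X - C (z i))).roots = s.val.map z := by
    have := roots_multiset_prod_X_sub_C (s.val.map z)
    rw [Multiset.map_map] at this
    exact this
  rw [h, Multiset.count_map, Finset.card_def, Finset.filter_val]
  congr 1
  refine Multiset.filter_congr fun i _ => ?_
  exact eq_comm

/-- The structure of a sextic `f` with `(f R^2)' = 0`, `deg R = p - 3`. -/
lemma two_clusters {m : ℕ} [hp : Fact (2 * m + 3).Prime] [CharP K (2 * m + 3)] [DecidableEq K]
    (z : Fin 6 → K) (R : K[X]) (hR : R.Monic) (hRd : R.natDegree = 2 * m)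
    (hE : 2 * fz z * derivative R + derivative (fz z) * R = 0) (i₀ j₀ : Fin 6)
    (hij : z i₀ ≠ z j₀) :
    (∀ i, z i = z i₀ ∨ z i = z j₀) ∧
      (univ.filter fun i => z i = z i₀).card + 2 * R.rootMultiplicity (z i₀) = 2 * m + 3 ∧
      (univ.filter fun i => z i = z j₀).card + 2 * R.rootMultiplicity (z j₀) = 2 * m + 3 := by
  classical
  set g := fz z * R ^ 2 with hg
  have hgm : g.Monic := (fz_monic z).mul (hR.pow 2)
  have hg0 : g ≠ 0 := hgm.ne_zero
  have hder : derivative g = 0 := by
    rw [hg, derivative_mul, derivative_pow]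
    have : derivative (fz z) * R ^ 2 + fz z * (C ((2 : ℕ) : K) * R ^ (2 - 1) * derivative R) =
        R * (2 * fz z * derivative R + derivative (fz z) * R) := by
      simp only [Nat.cast_ofNat, show (2 - 1 : ℕ) = 1 from rfl, pow_one]
      have h2 : (C (2 : K) : K[X]) = 2 := rfl
      rw [h2]
      ring
    rw [this, hE, mul_zero]
  have hdeg : g.natDegree = 2 * (2 * m + 3) := by
    rw [hg, natDegree_mul (fz_monic z).ne_zero (pow_ne_zero 2 hR.ne_zero), natDegree_pow,
      natDegree_fz, hRd]
    ring
  have hroot : ∀ i, g.eval (z i) = 0 := by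
    intro i
    rw [hg, eval_mul, eval_fz, zero_mul]
  have hmult : ∀ a, g.rootMultiplicity a = (univ.filter fun i => z i = a).card +
      2 * R.rootMultiplicity a := by
    intro a
    rw [hg, rootMultiplicity_mul hg0, ← rootMultiplicity_prod univ z a]
    congr 1
    rw [← count_roots, roots_pow, Multiset.count_nsmul, count_roots]
  have hge : ∀ i, 2 * m + 3 ≤ g.rootMultiplicity (z i) := fun i => root_mult_ge hg0 hder (hroot i)
  have hsum := sum_rootMultiplicity_le g {z i₀, z j₀}
  rw [Finset.sum_pair hij, hdeg] at hsum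
  have h1 := hge i₀
  have h2 := hge j₀
  refine ⟨fun i => ?_, ?_, ?_⟩
  · by_contra hcon
    push Not at hcon
    have hsum3 := sum_rootMultiplicity_le g {z i, z i₀, z j₀}
    rw [Finset.sum_insert (by simp [hcon.1, hcon.2]), Finset.sum_pair hij, hdeg] at hsum3
    have h3 := hge i
    have : 0 < 2 * m + 3 := by omega
    omega
  · rw [← hmult]; omega
  · rw [← hmult]; omega

end Nef87
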