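import Pool.Agent.Lib_helper87.Nef.LocalLog
import Pool.Agent.Lib_helper87.Nef.Mult

/-!
# Nonnegativity for curves of small degree in characteristic `p`
-/

namespace Nef87

open Polynomial Finset
open scoped WithZero
open NefRed

/-- If `E = 0` then the point is one of the sixteen points. -/
lemma exists_projS_eq_zero {K : Type} [Field K] {m : ℕ} [hp : Fact (2 * m + 3).Prime]
    [CharP K (2 * m + 3)] (y : Fin 5 → K) (hy : ∃ i, y i ≠ 0) (R : K[X]) (hR : R.Monic)
    (hRd : R.natDegree = 2 * m)
    (hE : 2 * fz (six y) * derivative R + derivative (fz (six y)) * R = 0) :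
    ∃ S : OddSet, ∀ i, projS S y i = 0 := by
  classical
  obtain ⟨i₀, hi₀⟩ := hy
  have hij : six y i₀.castSucc ≠ six y (Fin.last 5) := by
    rw [six_castSucc, six_last]; exact hi₀
  obtain ⟨h1, h2, _⟩ := two_clusters (six y) R hR hRd hE i₀.castSucc (Fin.last 5) hij
  rw [six_castSucc] at h1 h2
  rw [six_last] at h1
  set S : Finset (Fin 5) := univ.filter fun i => y i = y i₀ with hS
  have hcard : S.card = (univ.filter fun i => six y i = y i₀).card := by
    have h3 : (univ.filter fun i => six y i = y i₀) = S.map Fin.castSuccEmb := by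
      ext i
      induction i using Fin.lastCases with
      | last =>
        have h4 : ¬ (six y (Fin.last 5) = y i₀) := by rw [six_last]; exact fun h => hi₀ h.symm
        constructor
        · intro h; exact absurd (Finset.mem_filter.mp h).2 h4
        · intro h
          obtain ⟨a, _, ha⟩ := Finset.mem_map.mp h
          exact absurd ha (Fin.castSucc_ne_last a)
      | cast i =>
        rw [Finset.mem_filter, six_castSucc]
        simp [S]
    rw [h3, Finset.card_map]
  have hodd : Odd S.card := by
    rw [hcard]
    have h5 : Odd ((univ.filter fun i => six y i = y i₀).card +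
        2 * R.rootMultiplicity (y i₀)) := by
      rw [h2]
      exact ⟨m + 1, by ring⟩
    rw [Nat.odd_add] at h5
    exact h5.mpr (even_two_mul _)
  refine ⟨⟨S, hodd⟩, fun i => ?_⟩
  unfold projS
  split_ifs with hi
  · have hmin := S.min'_mem (OddSet.nonempty ⟨S, hodd⟩)
    have e1 : y i = y i₀ := (Finset.mem_filter.mp hi).2
    have e2 : y (S.min' (OddSet.nonempty ⟨S, hodd⟩)) = y i₀ := (Finset.mem_filter.mp hmin).2
    rw [e1, e2, sub_self]
  · rcases h1 i.castSucc with h | h
    · rw [six_castSucc] at h
      have hmem : i ∈ S := Finset.mem_filter.mpr ⟨Finset.mem_univ i, h⟩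
      exact absurd hmem hi
    · rwa [six_castSucc] at h

section Sum

variable {k : Type} [Field k] [IsAlgClosed k] {K : Type} [Field K] [Algebra k K]
  [Algebra (RatFunc k) K] [IsScalarTower k (RatFunc k) K]
  [FiniteDimensional (RatFunc k) K] [Algebra.IsSeparable (RatFunc k) K]

lemma vmax_support_finite {ι : Type} [Fintype ι] (b : ι → K) (hb : ∃ l, b l ≠ 0) :
    (Function.support fun v : Place k K => WithZero.log (vmax v.val b)).Finite := by
  classical
  have h1 : {v : Place k K | vmax v.val b ≠ 1} ⊆
      ⋃ l ∈ {l | b l ≠ 0}, {v : Place k K | v.val (b l) ≠ 1} := by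
    intro v hv
    by_contra hcon
    simp only [Set.mem_iUnion, not_exists, Set.mem_ofPred_eq, not_not] at hcon
    apply hv
    obtain ⟨l, hl⟩ := hb
    apply le_antisymm
    · refine Finset.sup_le fun i _ => ?_
      by_cases hi : b i = 0
      · rw [hi, map_zero]; exact zero_le
      · exact (hcon i hi).le
    · rw [← hcon l hl]
      exact le_vmax v.val b l
  refine Set.Finite.subset ?_ h1 |>.subset ?_
  · exact Set.Finite.biUnion (Set.toFinite _) fun l hl => finite_support k K (b l) hl
  · intro v hv h
    apply hv
    show WithZero.log (vmax v.val b) = 0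
    rw [h, WithZero.log_one]

/-- Summing a local inequality over all places. -/
lemma sum_local {x : K} (hx : x ≠ 0) {y : Fin 5 → K} (hy : ∃ i, y i ≠ 0)
    (hS : ∀ S : OddSet, ∃ i, projS S y i ≠ 0) (α β : ℤ)
    (h : ∀ v : Place k K, WithZero.log (v.val x) ≤
      α * ∑ S : OddSet, WithZero.log (vmax v.val (projS S y)) + β * WithZero.log (vmax v.val y)) :
    0 ≤ α * ∑ S : OddSet, degO1 k (projS S y) + β * degO1 k y := by
  classical
  have f1 : (Function.support fun v : Place k K => WithZero.log (v.val x)).Finite := by
    refine (finite_support k K x hx).subset ?_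
    intro v hv h
    apply hv
    show WithZero.log (v.val x) = 0
    rw [h, WithZero.log_one]
  have f2 := fun S : OddSet => vmax_support_finite (k := k) (projS S y) (hS S)
  have f3 := vmax_support_finite (k := k) y hy
  let T : Finset (Place k K) := f1.toFinset ∪ (univ.biUnion fun S => (f2 S).toFinset) ∪ f3.toFinset
  have e1 : ∑ v ∈ T, WithZero.log (v.val x) = 0 := by
    rw [← product_formula k K x hx]
    refine (finsum_eq_sum_of_support_subset _ ?_).symm
    intro v hv
    simp only [T, Finset.coe_union, Set.mem_union, Set.Finite.coe_toFinset]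
    exact Or.inl (Or.inl hv)
  have e2 : ∀ S : OddSet, degO1 k (projS S y) = ∑ v ∈ T, WithZero.log (vmax v.val (projS S y)) := by
    intro S
    refine finsum_eq_sum_of_support_subset _ ?_
    intro v hv
    have : v ∈ (univ.biUnion fun S => (f2 S).toFinset) :=
      Finset.mem_biUnion.mpr ⟨S, Finset.mem_univ _, (Set.Finite.mem_toFinset _).mpr hv⟩
    exact Finset.mem_coe.mpr (Finset.mem_union_left _ (Finset.mem_union_right _ this))
  have e3 : degO1 k y = ∑ v ∈ T, WithZero.log (vmax v.val y) := by
    refine finsum_eq_sum_of_support_subset _ ?_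
    intro v hv
    exact Finset.mem_coe.mpr (Finset.mem_union_right _ ((Set.Finite.mem_toFinset _).mpr hv))
  have h2 := Finset.sum_le_sum fun v (_ : v ∈ T) => h v
  rw [e1, Finset.sum_add_distrib, ← Finset.mul_sum, ← Finset.mul_sum, Finset.sum_comm,
    ← e3] at h2
  rw [Finset.sum_congr rfl fun S _ => e2 S]
  exact h2

lemma degO1_nonneg_of_proj {y : Fin 5 → K} (hy : ∃ i, y i ≠ 0) : 0 ≤ degO1 k y := by
  classical
  obtain ⟨i, hi⟩ := hy
  have f1 : (Function.support fun v : Place k K => WithZero.log (v.val (y i))).Finite := by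
    refine (finite_support k K (y i) hi).subset ?_
    intro v hv h
    apply hv
    show WithZero.log (v.val (y i)) = 0
    rw [h, WithZero.log_one]
  rw [← product_formula k K (y i) hi]
  refine finsum_le_finsum' f1 (vmax_support_finite (k := k) y ⟨i, hi⟩) fun v => ?_
  exact (WithZero.log_le_log ((Valuation.ne_zero_iff _).mpr hi)
    (vmax_ne_zero v.val _ ⟨i, hi⟩)).mpr (le_vmax v.val y i)

/-- **Curves of small degree are not negative in characteristic `p`.** -/
theorem nonneg_of_small {m : ℕ} (hm : 1 ≤ m) [hp : Fact (2 * m + 3).Prime] [CharP K (2 * m + 3)]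
    {y : Fin 5 → K} (hy : ∃ i, y i ≠ 0) (hS : ∀ S : OddSet, ∃ i, projS S y i ≠ 0)
    (hsmall : degO1 k y < m) :
    0 ≤ ∑ S : OddSet, degO1 k (projS S y) - 14 * degO1 k y := by
  have hy0 : 0 ≤ degO1 k y := degO1_nonneg_of_proj hy
  set h := degO1 k y with hh
  set s := ∑ S : OddSet, degO1 k (projS S y) with hs
  have hm' : (1 : ℤ) ≤ m := by exact_mod_cast hm
  by_cases hPhi : (Gz m (six y)).coeff (2 * m + 1) = 0
  · by_cases hTh : (Gz m (six y)).coeff (2 * m + 2) = 0
    · by_cases hPsi : (Ez m (six y)).coeff 1 = 0
      · by_cases hc : (Ez m (six y)).coeff 0 = 0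
        · exfalso
          have hE : Ez m (six y) = 0 := by
            rw [Ez_linear m (six y) hPhi hTh, hPsi, hc]; simp
          obtain ⟨S, h0⟩ := exists_projS_eq_zero (m := m) y hy (Rz m (six y)) (Rz_monic m _)
            (natDegree_Rz_eq m _) hE
          obtain ⟨i, hi⟩ := hS S
          exact hi (h0 i)
        · have h1 := sum_local (k := k) hc hy hS _ _
            (fun v => local_c (v := v.val) hm hy hS hPhi hTh hPsi hc)
          rw [← hh, ← hs] at h1
          push_cast at h1
          -- (m+2)(s - 14 h) + h ≥ 0
          have h2 : 0 ≤ ((m : ℤ) + 2) * (s - 14 * h) + h := by linarith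
          by_contra hneg
          push Not at hneg
          have h3 : s - 14 * h ≤ -1 := by omega
          nlinarith
      · have h1 := sum_local (k := k) hPsi hy hS _ _
            (fun v => local_Psi (v := v.val) hm hy hS hPhi hTh hPsi)
        rw [← hh, ← hs] at h1
        push_cast at h1
        have h2 : 0 ≤ ((m : ℤ) + 2) * (s - 14 * h) := by linarith
        exact nonneg_of_mul_nonneg_right h2 (by linarith)
    · have h1 := sum_local (k := k) hTh hy hS _ _
          (fun v => local_Theta (v := v.val) hy hS hPhi hTh)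
      rw [← hh, ← hs] at h1
      push_cast at h1
      have h2 : 0 ≤ ((m : ℤ) + 1) * (s - 14 * h) := by linarith
      exact nonneg_of_mul_nonneg_right h2 (by linarith)
  · have h1 := sum_local (k := k) hPhi hy hS _ _
        (fun v => local_Phi (v := v.val) hy hS hPhi)
    rw [← hh, ← hs] at h1
    push_cast at h1
    have h2 : 0 ≤ (m : ℤ) * (s - 14 * h) + h := by linarith
    by_contra hneg
    push Not at hneg
    have h3 : s - 14 * h ≤ -1 := by omega
    nlinarith

end Sum

end Nef87
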