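import Pool.Agent.Lib_helper87.Nef.Lower2

/-!
# Negativity of curves on which `E` is a nonzero constant
-/

namespace Nef87

open Polynomial Finset
open scoped WithZero
open NefRed

/-- The discriminant-like product. -/
def disc6 {K : Type*} [CommRing K] (z : Fin 6 → K) : K :=
  ∏ i, ∏ j ∈ univ.erase i, (z i - z j)

section Local

variable {K : Type} [Field K] {v : Valuation K ℤᵐ⁰}

lemma Clu.disc_three {Γ : Type*} [LinearOrderedCommGroupWithZero Γ] {v : Valuation K Γ}
    {z : Fin 6 → K} {T : Finset (Fin 6)} {δ ζ : Γ} (h : Clu v z T δ ζ) (hc : T.card = 3) :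
    v (disc6 z) ≤ δ ^ 12 * ζ ^ 18 := by
  unfold disc6
  rw [map_prod]
  have h1 : ∀ i : Fin 6, v (∏ j ∈ univ.erase i, (z i - z j)) ≤ δ ^ 2 * ζ ^ 3 := by
    intro i
    by_cases hi : i ∈ T
    · have := prod_diff_le h hi
      rwa [hc] at this
    · have := prod_diff_le (h.compl hc) (b := i) (by simpa using hi)
      rwa [show Tᶜ.card = 3 by rw [Finset.card_compl, hc]; simp] at this
  calc ∏ i, v (∏ j ∈ univ.erase i, (z i - z j)) ≤ ∏ _i : Fin 6, (δ ^ 2 * ζ ^ 3) :=
        Finset.prod_le_prod' fun i _ => h1 i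
    _ = δ ^ 12 * ζ ^ 18 := by
        rw [Finset.prod_const, mul_pow, ← pow_mul, ← pow_mul]; simp

lemma Clu.disc_five {Γ : Type*} [LinearOrderedCommGroupWithZero Γ] {v : Valuation K Γ}
    {z : Fin 6 → K} {T : Finset (Fin 6)} {δ ζ : Γ} (h : Clu v z T δ ζ) (hc : T.card = 5) :
    v (disc6 z) ≤ δ ^ 20 * ζ ^ 10 := by
  unfold disc6
  rw [map_prod, ← Finset.prod_mul_prod_compl T]
  have h1 : ∏ i ∈ T, v (∏ j ∈ univ.erase i, (z i - z j)) ≤ (δ ^ 4 * ζ ^ 1) ^ 5 := by
    calc ∏ i ∈ T, v (∏ j ∈ univ.erase i, (z i - z j)) ≤ ∏ _i ∈ T, (δ ^ 4 * ζ ^ 1) := by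
          refine Finset.prod_le_prod' fun i hi => ?_
          have := prod_diff_le h hi
          rwa [hc] at this
      _ = (δ ^ 4 * ζ ^ 1) ^ 5 := by rw [Finset.prod_const, hc]
  have hcc : Tᶜ.card = 1 := by rw [Finset.card_compl, hc]; simp
  have h2 : ∏ i ∈ Tᶜ, v (∏ j ∈ univ.erase i, (z i - z j)) ≤ (ζ ^ 5) ^ 1 := by
    calc ∏ i ∈ Tᶜ, v (∏ j ∈ univ.erase i, (z i - z j)) ≤ ∏ _i ∈ Tᶜ, ζ ^ 5 := by
          refine Finset.prod_le_prod' fun i _ => ?_
          rw [map_prod]
          calc ∏ j ∈ univ.erase i, v (z i - z j) ≤ ∏ _j ∈ univ.erase i, ζ :=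
                Finset.prod_le_prod' fun j _ => h.all i j
            _ = ζ ^ 5 := by rw [Finset.prod_const, Finset.card_erase_of_mem (mem_univ _)]; simp
      _ = (ζ ^ 5) ^ 1 := by rw [Finset.prod_const, hcc]
  calc _ ≤ (δ ^ 4 * ζ ^ 1) ^ 5 * (ζ ^ 5) ^ 1 := mul_le_mul' h1 h2
    _ = δ ^ 20 * ζ ^ 10 := by
      rw [mul_pow, ← pow_mul, ← pow_mul, ← pow_mul, mul_assoc, ← pow_add]

variable {m : ℕ} [hp : Fact (2 * m + 3).Prime] [CharP K (2 * m + 3)]

/-- Local inequality for `disc6 / c ^ 8`. -/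
lemma local_neg (hm : 1 ≤ m) {y : Fin 5 → K} (hy : ∃ i, y i ≠ 0)
    (hS : ∀ S : OddSet, ∃ i, projS S y i ≠ 0) {c : K} (hc0 : c ≠ 0) (hD : disc6 (six y) ≠ 0)
    (hE : Ez m (six y) = C c) :
    WithZero.log (v (disc6 (six y) / c ^ 8)) ≤
      (-(8 * m + 4 : ℤ)) * ∑ S : OddSet, WithZero.log (vmax v (projS S y)) +
      (112 * m + 54 : ℤ) * WithZero.log (vmax v y) := by
  obtain ⟨S₀, h0⟩ := exists_special v y
  have hclu := clu_projS (v := v) S₀ y
  obtain ⟨n, hn, hle⟩ := lower_bound (m := m) hm hy hS h0 hE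
  rw [sum_special y S₀ h0]
  set a := vmax v y with ha
  set d := vmax v (projS S₀ y) with hd
  have ha0 : a ≠ 0 := vmax_ne_zero v _ hy
  have hd0 : d ≠ 0 := vmax_ne_zero v _ (hS S₀)
  have hvc : v c ≠ 0 := (Valuation.ne_zero_iff v).mpr hc0
  have hvD : v (disc6 (six y)) ≠ 0 := (Valuation.ne_zero_iff v).mpr hD
  rw [map_div₀, map_pow, WithZero.log_div hvD (pow_ne_zero 8 hvc), WithZero.log_pow]
  have hlog : ∀ {x : ℤᵐ⁰} {α β : ℕ}, d ^ α * a ^ β ≤ x → x ≠ 0 →
      α * WithZero.log d + β * WithZero.log a ≤ WithZero.log x := by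
    intro x α β h hx
    have h1 := (WithZero.log_le_log (mul_ne_zero (pow_ne_zero α hd0) (pow_ne_zero β ha0)) hx).mpr h
    rw [WithZero.log_mul (pow_ne_zero α hd0) (pow_ne_zero β ha0), WithZero.log_pow,
      WithZero.log_pow] at h1
    simpa using h1
  have hlc := hlog hle hvc
  rcases hclu.card with hcard | hcard
  · have hD1 := log_le_of_le hvD hd0 ha0 (hclu.disc_three hcard)
    have hn' : n = m := by omega
    rw [hcard, hn'] at hlc
    have e1 : ((m + (3 - 1) : ℕ) : ℤ) = m + 2 := by push_cast; ring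
    have e2 : ((2 * m + 5 - (m + (3 - 1)) : ℕ) : ℤ) = m + 3 := by omega
    rw [e1, e2] at hlc
    rw [nsmul_eq_mul]
    push_cast at hD1 ⊢
    linarith
  · have hD1 := log_le_of_le hvD hd0 ha0 (hclu.disc_five hcard)
    have hn' : n + 1 = m := by omega
    rw [hcard] at hlc
    have e1 : ((n + (5 - 1) : ℕ) : ℤ) = m + 3 := by omega
    have e2 : ((2 * m + 5 - (n + (5 - 1)) : ℕ) : ℤ) = m + 2 := by omega
    rw [e1, e2] at hlc
    rw [nsmul_eq_mul]
    push_cast at hD1 ⊢
    linarith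

end Local

section Global

variable {k : Type} [Field k] [IsAlgClosed k] {K : Type} [Field K] [Algebra k K]
  [Algebra (RatFunc k) K] [IsScalarTower k (RatFunc k) K]
  [FiniteDimensional (RatFunc k) K] [Algebra.IsSeparable (RatFunc k) K]

/-- The degree of a nonconstant point is positive. -/
lemma degO1_pos {y : Fin 5 → K} {i j : Fin 5} (hj : y j ≠ 0)
    (hij : ∀ c : k, y i / y j ≠ algebraMap k K c) : 0 < degO1 k y := by
  classical
  -- normalise by `y j`
  set x := y i / y j with hx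
  have hy : ∃ l, y l ≠ 0 := ⟨j, hj⟩
  have hs : degO1 k (fun l => (y j)⁻¹ * y l) = degO1 k y := degO1_smul _ (inv_ne_zero hj) y hy
  rw [← hs]
  -- a place where `x` has a pole
  have hpole : ∃ v : Place k K, 1 < v.val x := by
    by_contra hcon
    push Not at hcon
    have hall : ∀ c : k, ∀ v : Place k K, v.val (x - algebraMap k K c) = 1 := by
      intro c
      have hne : x - algebraMap k K c ≠ 0 := sub_ne_zero.mpr (hij c)
      have hle : ∀ v : Place k K, v.val (x - algebraMap k K c) ≤ 1 := by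
        intro v
        refine (v.val.map_sub _ _).trans (max_le (hcon v) ?_)
        by_cases hc : c = 0
        · rw [hc, map_zero, map_zero]; exact zero_le
        · exact (v.triv c hc).le
      have hsum := product_formula k K _ hne
      intro v
      by_contra hv
      have hlt : v.val (x - algebraMap k K c) < 1 := lt_of_le_of_ne (hle v) hv
      have h1 : ∀ w : Place k K, 0 ≤ -WithZero.log (w.val (x - algebraMap k K c)) := by
        intro w
        have := (WithZero.log_le_log ((Valuation.ne_zero_iff _).mpr hne) one_ne_zero).mpr (hle w)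
        rw [WithZero.log_one] at this
        linarith
      have h2 : 0 < ∑ᶠ w : Place k K, -WithZero.log (w.val (x - algebraMap k K c)) := by
        refine finsum_pos h1 ⟨v, ?_⟩ ?_
        · have := (WithZero.log_lt_log ((Valuation.ne_zero_iff _).mpr hne) one_ne_zero).mpr hlt
          rw [WithZero.log_one] at this
          linarith
        · refine (log_support_finite (k := k) hne).subset ?_
          intro w hw h
          apply hw
          have h' : WithZero.log (w.val (x - algebraMap k K c)) = 0 := h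
          simp [h']
      rw [finsum_neg_distrib, hsum] at h2
      simp at h2
    obtain ⟨v, -⟩ := exists_pole k K
    obtain ⟨c, hc⟩ := exists_residue v x (hcon v)
    rw [hall c v] at hc
    exact lt_irrefl _ hc
  obtain ⟨v, hv⟩ := hpole
  have h1 : ∀ w : Place k K, (1 : ℤᵐ⁰) ≤ vmax w.val (fun l => (y j)⁻¹ * y l) := by
    intro w
    have := le_vmax w.val (fun l => (y j)⁻¹ * y l) j
    simpa [inv_mul_cancel₀ hj] using this
  refine finsum_pos (fun w => ?_) ⟨v, ?_⟩ ?_
  · have := (WithZero.log_le_log one_ne_zero (zero_lt_one.trans_le (h1 w)).ne').mpr (h1 w)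
    rwa [WithZero.log_one] at this
  · have h2 : (1 : ℤᵐ⁰) < vmax v.val (fun l => (y j)⁻¹ * y l) := by
      refine lt_of_lt_of_le hv ?_
      have := le_vmax v.val (fun l => (y j)⁻¹ * y l) i
      rwa [← div_eq_inv_mul] at this
    have := (WithZero.log_lt_log one_ne_zero (zero_lt_one.trans_le (h1 v)).ne').mpr h2
    rwa [WithZero.log_one] at this
  · exact vmax_support_finite (k := k) _ ⟨j, by simp [inv_mul_cancel₀ hj]⟩

/-- **Negativity.** -/
theorem neg_of_const {m : ℕ} (hm : 1 ≤ m) [hp : Fact (2 * m + 3).Prime] [CharP K (2 * m + 3)]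
    {y : Fin 5 → K} (hy : ∃ i, y i ≠ 0) (hS : ∀ S : OddSet, ∃ i, projS S y i ≠ 0)
    {c : K} (hc0 : c ≠ 0) (hD : disc6 (six y) ≠ 0) (hE : Ez m (six y) = C c)
    (hpos : 0 < degO1 k y) :
    ∑ S : OddSet, degO1 k (projS S y) - 14 * degO1 k y < 0 := by
  have h1 := sum_local (k := k) (div_ne_zero hD (pow_ne_zero 8 hc0)) hy hS _ _
    (fun v => local_neg (v := v.val) hm hy hS hc0 hD hE)
  set h := degO1 k y with hh
  set s := ∑ S : OddSet, degO1 k (projS S y) with hs
  by_contra hcon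
  push Not at hcon
  have hm' : (1 : ℤ) ≤ m := by exact_mod_cast hm
  nlinarith

end Global

end Nef87
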