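import Pool.Agent.Lib_helper87.Nef.Local2
import Pool.Agent.Lib_helper85.NefPlaces

/-!
# The sixteen points and the projections from them
-/

namespace Nef87

open Polynomial Finset
open scoped WithZero

/-- The sixteen subsets of `{0,1,2,3,4}` with an odd number of elements. -/
abbrev OddSet := {S : Finset (Fin 5) // Odd S.card}

lemma OddSet.nonempty (S : OddSet) : S.1.Nonempty := by
  rw [← Finset.card_pos]
  exact S.2.pos

/-- Projection of `y` from the point `1_S`: the coordinates are `y_i - y_{min S}` for `i ∈ S` and
`y_i` for `i ∉ S`. -/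
def projS {K : Type*} [Sub K] (S : OddSet) (y : Fin 5 → K) : Fin 5 → K :=
  fun i => if i ∈ S.1 then y i - y (S.1.min' S.nonempty) else y i

/-- The six points `y_0, ..., y_4, 0`. -/
def six {K : Type*} [Zero K] (y : Fin 5 → K) : Fin 6 → K := Fin.snoc (α := fun _ => K) y 0

lemma six_castSucc {K : Type*} [Zero K] (y : Fin 5 → K) (i : Fin 5) :
    six y i.castSucc = y i := by
  unfold six
  rw [Fin.snoc_castSucc]

lemma six_last {K : Type*} [Zero K] (y : Fin 5 → K) : six y (Fin.last 5) = 0 := by
  unfold six
  rw [Fin.snoc_last]

/-- The cluster with 3 or 5 elements attached to an odd set. -/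
def clT (S : OddSet) : Finset (Fin 6) :=
  if S.1.card = 1 then (S.1.map Fin.castSuccEmb)ᶜ else S.1.map Fin.castSuccEmb

lemma clT_card (S : OddSet) : (clT S).card = 3 ∨ (clT S).card = 5 := by
  have h5 : S.1.card ≤ 5 := by simpa using Finset.card_le_univ S.1
  obtain ⟨k, hk⟩ := S.2
  unfold clT
  split_ifs with h
  · right
    rw [Finset.card_compl, Finset.card_map, h]; simp
  · rw [Finset.card_map]
    omega

/-- Being in the same cluster. -/
def sameCl (S : OddSet) (i j : Fin 6) : Prop :=
  i ∈ S.1.map Fin.castSuccEmb ↔ j ∈ S.1.map Fin.castSuccEmb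

lemma sameCl_iff (S : OddSet) (i j : Fin 6) : sameCl S i j ↔ (i ∈ clT S ↔ j ∈ clT S) := by
  unfold sameCl clT
  split_ifs with h
  · rw [mem_compl, mem_compl, not_iff_not]
  · rfl

section

variable {K : Type} [Field K] {v : Valuation K ℤᵐ⁰}

open NefRed

lemma le_projS (S : OddSet) (y : Fin 5 → K) (i : Fin 5) : v (projS S y i) ≤ vmax v (projS S y) :=
  le_vmax v _ i

/-- Differences inside a cluster are bounded by the size of the projection. -/
lemma diff_le_of_sameCl (S : OddSet) (y : Fin 5 → K) (i j : Fin 6) (h : sameCl S i j) :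
    v (six y i - six y j) ≤ vmax v (projS S y) := by
  have hin : ∀ i ∈ S.1, v (y i - y (S.1.min' S.nonempty)) ≤ vmax v (projS S y) := by
    intro i hi
    have := le_projS (v := v) S y i
    rwa [projS, if_pos hi] at this
  have hout : ∀ i ∉ S.1, v (y i) ≤ vmax v (projS S y) := by
    intro i hi
    have := le_projS (v := v) S y i
    rwa [projS, if_neg hi] at this
  have key : ∀ i : Fin 6, i ∉ S.1.map Fin.castSuccEmb → v (six y i) ≤ vmax v (projS S y) := by
    intro i hi
    induction i using Fin.lastCases with
    | last => rw [six_last, map_zero]; exact zero_le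
    | cast i =>
      rw [six_castSucc]
      exact hout i (fun h => hi (by simpa using h))
  by_cases hi : i ∈ S.1.map Fin.castSuccEmb
  · have hj := h.mp hi
    rw [Finset.mem_map] at hi hj
    obtain ⟨i', hi', rfl⟩ := hi
    obtain ⟨j', hj', rfl⟩ := hj
    simp only [Fin.coe_castSuccEmb, six_castSucc]
    have e : y i' - y j' = (y i' - y (S.1.min' S.nonempty)) - (y j' - y (S.1.min' S.nonempty)) := by
      ring
    rw [e]
    exact (v.map_sub _ _).trans (max_le (hin i' hi') (hin j' hj'))
  · have hj : j ∉ S.1.map Fin.castSuccEmb := fun hj => hi (h.mpr hj)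
    exact (v.map_sub _ _).trans (max_le (key i hi) (key j hj))

/-- The size of the projection is attained by a difference inside a cluster. -/
lemma exists_sameCl (S : OddSet) (y : Fin 5 → K) :
    ∃ i j, sameCl S i j ∧ v (six y i - six y j) = vmax v (projS S y) := by
  obtain ⟨i, hi⟩ := vmax_attained v (projS S y) 0
  rw [hi, projS]
  split_ifs with h
  · refine ⟨i.castSucc, (S.1.min' S.nonempty).castSucc, ?_, ?_⟩
    · unfold sameCl
      have h1 := S.1.min'_mem S.nonempty
      exact iff_of_true (by simpa using h) (by simpa using h1)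
    · rw [six_castSucc, six_castSucc]
  · refine ⟨i.castSucc, Fin.last 5, ?_, ?_⟩
    · unfold sameCl
      refine iff_of_false (by simpa using h) ?_
      rw [Finset.mem_map]
      rintro ⟨a, _, ha⟩
      exact Fin.castSucc_ne_last a ha
    · rw [six_castSucc, six_last, sub_zero]

lemma diff_le (y : Fin 5 → K) (i j : Fin 6) : v (six y i - six y j) ≤ vmax v y := by
  have key : ∀ i : Fin 6, v (six y i) ≤ vmax v y := by
    intro i
    induction i using Fin.lastCases with
    | last => rw [six_last, map_zero]; exact zero_le
    | cast i => rw [six_castSucc]; exact le_vmax v y i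
  exact (v.map_sub _ _).trans (max_le (key i) (key j))

lemma projS_le (S : OddSet) (y : Fin 5 → K) : vmax v (projS S y) ≤ vmax v y := by
  obtain ⟨i, j, _, h⟩ := exists_sameCl (v := v) S y
  rw [← h]
  exact diff_le y i j

lemma exists_diff_eq (y : Fin 5 → K) : ∃ i j, v (six y i - six y j) = vmax v y := by
  obtain ⟨i, hi⟩ := vmax_attained v y 0
  exact ⟨i.castSucc, Fin.last 5, by rw [six_castSucc, six_last, sub_zero, hi]⟩

/-- At most one of the sixteen projections is smaller than the point. -/
lemma projS_unique (y : Fin 5 → K) (S S' : OddSet) (h : vmax v (projS S y) < vmax v y)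
    (h' : vmax v (projS S' y) < vmax v y) : S = S' := by
  obtain ⟨i, hi⟩ := vmax_attained v y 0
  have hmem : ∀ S : OddSet, vmax v (projS S y) < vmax v y → i ∈ S.1 := by
    intro S hS
    by_contra hiS
    have := le_projS (v := v) S y i
    rw [projS, if_neg hiS, ← hi] at this
    exact absurd hS (not_lt.mpr this)
  have key : ∀ S S' : OddSet, vmax v (projS S y) < vmax v y → vmax v (projS S' y) < vmax v y →
      S.1 ⊆ S'.1 := by
    intro S S' hS hS' t ht
    by_contra htS'
    have h1 := le_projS (v := v) S' y t
    rw [projS, if_neg htS'] at h1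
    have h2 := diff_le_of_sameCl (v := v) S y i.castSucc t.castSucc
      (by unfold sameCl; exact iff_of_true (by simpa using hmem S hS) (by simpa using ht))
    rw [six_castSucc, six_castSucc] at h2
    have h3 : v (y i) < vmax v y := by
      have e : y i = (y i - y t) + y t := by ring
      rw [e]
      exact v.map_add_lt (lt_of_le_of_lt h2 hS) (lt_of_le_of_lt h1 hS')
    rw [hi] at h3
    exact lt_irrefl _ h3
  exact Subtype.ext (Finset.Subset.antisymm (key S S' h h') (key S' S h' h))

/-- The cluster data attached to an odd set. -/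
lemma clu_projS (S : OddSet) (y : Fin 5 → K) :
    Clu v (six y) (clT S) (vmax v (projS S y)) (vmax v y) where
  card := clT_card S
  inT := fun i hi j hj => diff_le_of_sameCl S y i j ((sameCl_iff S i j).mpr (iff_of_true hi hj))
  outT := fun i hi j hj => diff_le_of_sameCl S y i j ((sameCl_iff S i j).mpr (iff_of_false hi hj))
  all := diff_le y
  le := projS_le S y

end

end Nef87
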