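import Pool.Agent.Lib_helper87.Nef.TmpDefs

namespace NefRed

open scoped WithZero
open Polynomial

/-- The norm of `s(α)` is a resultant. -/
theorem norm_aeval_eq_resultant {F L : Type*} [Field F] [Field L] [Algebra F L]
    [FiniteDimensional F L] [Algebra.IsSeparable F L] (pb : PowerBasis F L) (s : F[X]) (n : ℕ)
    (hn : s.natDegree ≤ n) :
    Algebra.norm F (aeval pb.gen s) =
      (minpoly F pb.gen).resultant s (minpoly F pb.gen).natDegree n := by
  classical
  let E := AlgebraicClosure F
  apply (algebraMap F E).injective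
  rw [← resultant_map_map]
  have hmon : (minpoly F pb.gen).Monic := minpoly.monic pb.isIntegral_gen
  have hsplit : ((minpoly F pb.gen).map (algebraMap F E)).Splits := IsAlgClosed.splits _
  have h1 := resultant_eq_prod_eval ((minpoly F pb.gen).map (algebraMap F E))
    (s.map (algebraMap F E)) n (by rwa [natDegree_map]) hsplit
  rw [natDegree_map] at h1
  rw [h1, (hmon.map _).leadingCoeff, one_pow, one_mul,
    Algebra.norm_eq_prod_embeddings F E (aeval pb.gen s)]
  rw [Fintype.prod_equiv (pb.liftEquiv')
    (fun σ : L →ₐ[F] E => σ (aeval pb.gen s)) (fun x => (s.map (algebraMap F E)).eval x.1) ?_]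
  · rw [Finset.prod_mem_multiset, Finset.prod_eq_multiset_prod, Multiset.toFinset_val,
      Multiset.dedup_eq_self.mpr]
    · exact nodup_roots (.map (Algebra.IsSeparable.isSeparable F pb.gen))
    · intro x; rfl
  · intro σ
    rw [PowerBasis.liftEquiv'_apply_coe, eval_map_algebraMap, aeval_algHom_apply]

/-- The polynomial `∑_l c^l b_l`. -/
noncomputable def comb {k : Type} [CommRing k] {r : ℕ} (b : Fin r → k[X][X]) (c : k) : k[X][X] :=
  ∑ l : Fin r, C (C (c ^ (l : ℕ))) * b l

lemma natDegree_comb_le {k : Type} [CommRing k] {r : ℕ} (b : Fin r → k[X][X]) (c : k) (M : ℕ)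
    (hM : ∀ l, (b l).natDegree ≤ M) : (comb b c).natDegree ≤ M := by
  unfold comb
  refine natDegree_sum_le_of_forall_le _ _ fun l _ => ?_
  refine (natDegree_C_mul_le _ _).trans (hM l)

theorem height_model (k : Type) [Field k] [IsAlgClosed k] {ι : Type} [Fintype ι]
    (K : ι → Type) [∀ i, Field (K i)] [∀ i, Algebra k (K i)] [∀ i, Algebra (RatFunc k) (K i)]
    [∀ i, IsScalarTower k (RatFunc k) (K i)] [∀ i, FiniteDimensional (RatFunc k) (K i)]
    [∀ i, Algebra.IsSeparable (RatFunc k) (K i)]
    (pb : ∀ i, PowerBasis (RatFunc k) (K i))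
    (G : k[X][X]) (hG : G.Monic)
    (hprod : G.map (algebraMap k[X] (RatFunc k)) = ∏ i, minpoly (RatFunc k) (pb i).gen)
    {r : ℕ} (b : Fin r → k[X][X]) (M : ℕ) (hM : ∀ l, (b l).natDegree ≤ M)
    (N0 : ℕ) (hinj : ∀ x y : ℕ, x < N0 → y < N0 → (x : k) = y → x = y)
    (hN0 : G.natDegree * r < N0)
    (g : k[X]) (hg : g ≠ 0) (n u : ℕ → k[X])
    (hn : ∀ a < N0, G.resultant (comb b (a : k)) G.natDegree M = g * n a)
    (hu : ∑ a ∈ Finset.range N0, u a * n a = 1) :
    (∀ i, ∃ l, aeval (pb i).gen ((b l).map (algebraMap k[X] (RatFunc k))) ≠ 0) ∧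
    ∑ i, degO1 k (fun l => aeval (pb i).gen ((b l).map (algebraMap k[X] (RatFunc k)))) =
      (((Finset.range N0).sup fun a => (g * n a).natDegree : ℕ) : ℤ) - g.natDegree := by
  classical
  set F := RatFunc k with hF
  set φ := algebraMap k[X] (RatFunc k) with hφ
  -- degrees
  have hmon : ∀ i, (minpoly F (pb i).gen).Monic := fun i => minpoly.monic (pb i).isIntegral_gen
  have hdeg : ∑ i, Module.finrank F (K i) = G.natDegree := by
    have h1 : (G.map φ).natDegree = G.natDegree := hG.natDegree_map φ
    rw [← h1, hprod, natDegree_prod_of_monic _ _ fun i _ => hmon i]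
    refine Finset.sum_congr rfl fun i _ => ?_
    rw [(pb i).natDegree_minpoly, (pb i).finrank]
  -- the norm
  have hsum : ∀ (i : ι) (c : k), (∑ l : Fin r, algebraMap k (K i) (c ^ (l : ℕ)) *
      aeval (pb i).gen ((b l).map φ)) = aeval (pb i).gen ((comb b c).map φ) := by
    intro i c
    unfold comb
    rw [Polynomial.map_sum, map_sum]
    refine Finset.sum_congr rfl fun l _ => ?_
    rw [Polynomial.map_mul, map_mul, Polynomial.map_C, aeval_C]
    congr 1
    rw [IsScalarTower.algebraMap_apply k F (K i)]
    congr 1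
  have hnorm : ∀ c : k, φ (G.resultant (comb b c) G.natDegree M) =
      ∏ i, Algebra.norm F (∑ l : Fin r, algebraMap k (K i) (c ^ (l : ℕ)) *
        aeval (pb i).gen ((b l).map φ)) := by
    intro c
    have hcd : ((comb b c).map φ).natDegree ≤ M :=
      natDegree_map_le.trans (natDegree_comb_le b c M hM)
    have h1 : (G.map φ).natDegree = G.natDegree := hG.natDegree_map φ
    rw [← resultant_map_map, hprod, ← h1, hprod, resultant_prod_left _ _ _ _ ?_ hcd]
    · refine Finset.prod_congr rfl fun i _ => ?_
      rw [hsum, norm_aeval_eq_resultant (pb i) _ M hcd]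
    · rw [Finset.prod_eq_one fun i _ => hmon i]
      exact one_ne_zero
  -- nonvanishing
  have hnv : ∀ i, ∃ l, aeval (pb i).gen ((b l).map φ) ≠ 0 := by
    intro i
    by_contra hcon
    push Not at hcon
    have h0 : ∀ a < N0, n a = 0 := by
      intro a ha
      have h1 := hnorm (a : k)
      rw [hn a ha, Finset.prod_eq_zero (Finset.mem_univ i)] at h1
      · rw [map_eq_zero_iff φ (RatFunc.algebraMap_injective k)] at h1
        exact (mul_eq_zero.mp h1).resolve_left hg
      · rw [Finset.sum_eq_zero fun l _ => by rw [hcon l, mul_zero], Algebra.norm_zero]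
    rw [Finset.sum_eq_zero] at hu
    · exact zero_ne_one hu
    · intro a ha
      rw [h0 a (Finset.mem_range.mp ha), mul_zero]
  refine ⟨hnv, ?_⟩
  -- index set
  set S : Finset k := (Finset.range N0).image (fun a : ℕ => (a : k)) with hS
  have hinjOn : Set.InjOn (fun a : ℕ => (a : k)) (Finset.range N0 : Set ℕ) := by
    intro x hx y hy hxy
    simp only [Finset.coe_range, Set.mem_Iio] at hx hy
    exact hinj x y hx hy hxy
  have hcard : S.card = N0 := by
    rw [hS, Finset.card_image_of_injOn hinjOn, Finset.card_range]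
  let idx : k → ℕ := Function.invFunOn (fun a : ℕ => (a : k)) (Finset.range N0 : Set ℕ)
  have hidx : ∀ a < N0, idx (a : k) = a := by
    intro a ha
    have ha' : a ∈ (Finset.range N0 : Set ℕ) := by simpa using ha
    exact hinjOn.leftInvOn_invFunOn ha'
  have key := height_family k K (fun i l => aeval (pb i).gen ((b l).map φ)) hnv S
    (by rw [hdeg, hcard]; exact hN0) (fun c => G.resultant (comb b c) G.natDegree M)
    (fun c _ => hnorm c) g (fun c => n (idx c)) (fun c => u (idx c)) ?_ ?_
  · rw [key]
    congr 2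
    rw [hS, Finset.sup_image]
    refine Finset.sup_congr rfl fun a ha => ?_
    have ha' := Finset.mem_range.mp ha
    simp only [Function.comp]
    rw [hn a ha']
  · intro c hc
    obtain ⟨a, ha, rfl⟩ := Finset.mem_image.mp hc
    have ha' := Finset.mem_range.mp ha
    rw [hidx a ha', hn a ha']
  · rw [hS, Finset.sum_image hinjOn, ← hu]
    refine Finset.sum_congr rfl fun a ha => ?_
    rw [hidx a (Finset.mem_range.mp ha)]

end NefRed
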