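import Pool.Agent.Lib_helper87.Nef.Spread1

namespace NefRed

open scoped WithZero
open Polynomial

/-- A monic separable polynomial is a product of monic irreducible separable polynomials. -/
lemma exists_factors {F : Type} [Field F] (P : F[X]) (hP : P.Monic) (hs : P.Separable) :
    ∃ (s : ℕ) (f : Fin s → F[X]), (∀ i, Irreducible (f i)) ∧ (∀ i, (f i).Monic) ∧
      (∀ i, (f i).Separable) ∧ P = ∏ i, f i := by
  classical
  set l := (UniqueFactorizationMonoid.normalizedFactors P).toList with hl
  have hmem : ∀ i : Fin l.length, l.get i ∈ UniqueFactorizationMonoid.normalizedFactors P := by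
    intro i
    rw [← Multiset.mem_toList]
    exact List.get_mem l i
  have hirr : ∀ i : Fin l.length, Irreducible (l.get i) := fun i =>
    UniqueFactorizationMonoid.irreducible_of_normalized_factor _ (hmem i)
  have hmon : ∀ i : Fin l.length, (l.get i).Monic := by
    intro i
    have h1 := UniqueFactorizationMonoid.normalize_normalized_factor _ (hmem i)
    rw [← h1]
    exact monic_normalize (hirr i).ne_zero
  have hprod : P = ∏ i : Fin l.length, l.get i := by
    have h1 : ∏ i : Fin l.length, l.get i = l.prod := by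
      conv_rhs => rw [← List.ofFn_get l]
      rw [List.prod_ofFn]
    have h2 : l.prod = (UniqueFactorizationMonoid.normalizedFactors P).prod := by
      rw [hl, Multiset.prod_toList]
    have h3 := UniqueFactorizationMonoid.prod_normalizedFactors hP.ne_zero
    rw [h1, h2]
    refine (eq_of_monic_of_associated ?_ hP h3).symm
    rw [← h2, ← h1]
    exact monic_prod_of_monic _ _ fun i _ => hmon i
  refine ⟨l.length, fun i => l.get i, hirr, hmon, fun i => ?_, hprod⟩
  refine hs.of_dvd ?_
  rw [hprod]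
  exact Finset.dvd_prod_of_mem _ (Finset.mem_univ i)

lemma isSeparable_adjoinRoot {F : Type} [Field F] (f : F[X]) [Fact (Irreducible f)]
    (hs : f.Separable) (hf : f.Monic) : Algebra.IsSeparable F (AdjoinRoot f) := by
  have h1 : IsSeparable F (AdjoinRoot.root f) := by
    unfold IsSeparable
    rw [AdjoinRoot.minpoly_root (hf.ne_zero)]
    rw [hf.leadingCoeff, inv_one, C_1, mul_one]
    exact hs
  have h2 : IntermediateField.adjoin F {AdjoinRoot.root f} = ⊤ :=
    IntermediateField.adjoin_root_eq_top f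
  have h3 := (IntermediateField.isSeparable_adjoin_simple_iff_isSeparable F (AdjoinRoot f)).mpr h1
  rw [h2] at h3
  exact Algebra.IsSeparable.of_algHom F (⊤ : IntermediateField F (AdjoinRoot f))
    (IntermediateField.topEquiv (F := F) (E := AdjoinRoot f)).symm.toAlgHom

lemma comb_map {R S : Type} [CommRing R] [CommRing S] (φ : R →+* S) {r : ℕ} (b : Fin r → R[X][X])
    (c : R) : (comb b c).map (mapRingHom φ) = comb (fun l => (b l).map (mapRingHom φ)) (φ c) := by
  unfold comb
  rw [Polynomial.map_sum]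
  refine Finset.sum_congr rfl fun l _ => ?_
  simp [Polynomial.map_mul]

lemma aeval_map_int {R S : Type} [CommRing R] [CommRing S] (φ : R →+* S) {m : ℕ} (η : Fin m → R)
    (P : MvPolynomial (Fin m) ℤ) :
    φ (MvPolynomial.aeval η P) = MvPolynomial.aeval (fun i => φ (η i)) P := by
  have := MvPolynomial.comp_aeval_apply (R := ℤ) (f := η) φ.toIntAlgHom P
  simpa using this

/-- Data over `R` specialised along `φ : R → k'`. -/
theorem height_model_map {R k : Type} [CommRing R] [Nontrivial R] [Field k] [IsAlgClosed k]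
    (φ : R →+* k) {ι : Type} [Fintype ι]
    (K : ι → Type) [∀ i, Field (K i)] [∀ i, Algebra k (K i)] [∀ i, Algebra (RatFunc k) (K i)]
    [∀ i, IsScalarTower k (RatFunc k) (K i)] [∀ i, FiniteDimensional (RatFunc k) (K i)]
    [∀ i, Algebra.IsSeparable (RatFunc k) (K i)]
    (pb : ∀ i, PowerBasis (RatFunc k) (K i))
    (G : R[X][X]) (hG : G.Monic)
    (hprod : (G.map (mapRingHom φ)).map (algebraMap k[X] (RatFunc k)) =
      ∏ i, minpoly (RatFunc k) (pb i).gen)
    {r : ℕ} (b : Fin r → R[X][X]) (M : ℕ) (hM : ∀ l, (b l).natDegree ≤ M)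
    (N0 : ℕ) (hinj : ∀ x y : ℕ, x < N0 → y < N0 → (x : k) = y → x = y)
    (hN0 : G.natDegree * r < N0)
    (g : R[X]) (hg : g.map φ ≠ 0) (n u : ℕ → R[X])
    (hn : ∀ a < N0, G.resultant (comb b (a : R)) G.natDegree M = g * n a)
    (hu : ∑ a ∈ Finset.range N0, u a * n a = 1) :
    (∀ i, ∃ l, aeval (pb i).gen
      (((b l).map (mapRingHom φ)).map (algebraMap k[X] (RatFunc k))) ≠ 0) ∧
    ∑ i, degO1 k (fun l => aeval (pb i).gen
      (((b l).map (mapRingHom φ)).map (algebraMap k[X] (RatFunc k)))) =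
      (((Finset.range N0).sup fun a => ((g * n a).map φ).natDegree : ℕ) : ℤ) -
        (g.map φ).natDegree := by
  have hGd : (G.map (mapRingHom φ)).natDegree = G.natDegree := hG.natDegree_map _
  have h := height_model k K pb (G.map (mapRingHom φ)) (hG.map _) hprod
    (fun l => (b l).map (mapRingHom φ)) M (fun l => natDegree_map_le.trans (hM l)) N0 hinj
    (by rw [hGd]; exact hN0) (g.map φ) hg (fun a => (n a).map φ) (fun a => (u a).map φ) ?_ ?_
  · refine ⟨h.1, ?_⟩
    rw [h.2]
    simp only [Polynomial.map_mul]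
  · intro a ha
    rw [hGd, ← Polynomial.map_mul, ← hn a ha]
    have h1 : comb (fun l => (b l).map (mapRingHom φ)) (a : k) =
        (comb b (a : R)).map (mapRingHom φ) := by
      rw [comb_map, map_natCast]
    rw [h1, resultant_map_map]
    rfl
  · have h2 := congrArg (Polynomial.map φ) hu
    simpa [Polynomial.map_sum] using h2

lemma aeval_gen_map {R k K : Type} [CommRing R] [Field k] [Field K] [Algebra (RatFunc k) K]
    (φ : R →+* k) (x : K) {m : ℕ} (η : Fin m → R[X][X]) (P : MvPolynomial (Fin m) ℤ) :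
    aeval x (((MvPolynomial.aeval η P).map (mapRingHom φ)).map (algebraMap k[X] (RatFunc k))) =
      MvPolynomial.aeval (fun i => aeval x (((η i).map (mapRingHom φ)).map
        (algebraMap k[X] (RatFunc k)))) P :=
  aeval_map_int (((aeval x : (RatFunc k)[X] →ₐ[RatFunc k] K).toRingHom).comp
    ((mapRingHom (algebraMap k[X] (RatFunc k))).comp (mapRingHom (mapRingHom φ)))) η P

theorem reduce {R k κ : Type} [CommRing R] [Nontrivial R] [Field k] [IsAlgClosed k] [CharZero k]
    [Field κ] [IsAlgClosed κ] (ι : R →+* k) (π : R →+* κ)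
    {K : Type} [Field K] [Algebra k K] [Algebra (RatFunc k) K] [IsScalarTower k (RatFunc k) K]
    [FiniteDimensional (RatFunc k) K] [Algebra.IsSeparable (RatFunc k) K]
    (pb : PowerBasis (RatFunc k) K)
    (G : R[X][X]) (hG : G.Monic)
    (hGk : (G.map (mapRingHom ι)).map (algebraMap k[X] (RatFunc k)) = minpoly (RatFunc k) pb.gen)
    (U W : R[X][X]) (d : R[X]) (hUW : U * G + W * derivative G = C d) (hd : d.map π ≠ 0)
    {m : ℕ} (η : Fin m → R[X][X]) {J r : ℕ} (B : Fin J → Fin r → MvPolynomial (Fin m) ℤ)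
    (M : ℕ) (hM : ∀ j l, (MvPolynomial.aeval η (B j l)).natDegree ≤ M)
    (N0 : ℕ) (hinj : ∀ x y : ℕ, x < N0 → y < N0 → (x : κ) = y → x = y)
    (hN0 : G.natDegree * r < N0)
    (g : Fin J → R[X]) (n u : Fin J → ℕ → R[X])
    (hgk : ∀ j, (g j).map ι ≠ 0) (hgκ : ∀ j, (g j).map π ≠ 0)
    (hn : ∀ j, ∀ a < N0, G.resultant (comb (fun l => MvPolynomial.aeval η (B j l)) (a : R))
      G.natDegree M = g j * n j a)
    (hu : ∀ j, ∑ a ∈ Finset.range N0, u j a * n j a = 1)
    (hdg : ∀ j, ((g j).map ι).natDegree = ((g j).map π).natDegree)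
    (hdn : ∀ j, ∀ a < N0, ((g j * n j a).map ι).natDegree = ((g j * n j a).map π).natDegree) :
    ∃ (s : ℕ) (L : Fin s → Type) (_ : ∀ i, Field (L i)) (_ : ∀ i, Algebra κ (L i))
      (_ : ∀ i, Algebra (RatFunc κ) (L i)) (_ : ∀ i, IsScalarTower κ (RatFunc κ) (L i))
      (_ : ∀ i, FiniteDimensional (RatFunc κ) (L i))
      (_ : ∀ i, Algebra.IsSeparable (RatFunc κ) (L i)) (z : ∀ i, Fin m → L i),
      (∀ i j, ∃ l, MvPolynomial.aeval (z i) (B j l) ≠ 0) ∧
      ∀ j, ∑ i, degO1 κ (fun l => MvPolynomial.aeval (z i) (B j l)) =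
        degO1 k (fun l => MvPolynomial.aeval (fun i => aeval pb.gen
          (((η i).map (mapRingHom ι)).map (algebraMap k[X] (RatFunc k)))) (B j l)) := by
  classical
  -- the reduced polynomial
  set ψ := algebraMap κ[X] (RatFunc κ) with hψ
  set Gκ : (RatFunc κ)[X] := (G.map (mapRingHom π)).map ψ with hGκ
  have hmon : Gκ.Monic := (hG.map _).map _
  have hsep : Gκ.Separable := by
    have h1 := congrArg (fun P : R[X][X] => (P.map (mapRingHom π)).map ψ) hUW
    simp only [Polynomial.map_add, Polynomial.map_mul, Polynomial.map_C, coe_mapRingHom] at h1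
    rw [← derivative_map, ← derivative_map] at h1
    have h2 : ψ (d.map π) ≠ 0 := by
      rw [hψ]
      exact (map_ne_zero_iff _ (RatFunc.algebraMap_injective κ)).mpr hd
    refine ⟨C (ψ (d.map π))⁻¹ * (U.map (mapRingHom π)).map ψ,
      C (ψ (d.map π))⁻¹ * (W.map (mapRingHom π)).map ψ, ?_⟩
    rw [hGκ, mul_assoc, mul_assoc, ← mul_add, h1, ← C_mul, inv_mul_cancel₀ h2, C_1]
  obtain ⟨s, f, hirr, hfm, hfs, hprod⟩ := exists_factors Gκ hmon hsep
  have : ∀ i, Fact (Irreducible (f i)) := fun i => ⟨hirr i⟩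
  let L : Fin s → Type := fun i => AdjoinRoot (f i)
  have hfin : ∀ i, FiniteDimensional (RatFunc κ) (AdjoinRoot (f i)) := fun i =>
    (AdjoinRoot.powerBasis (hirr i).ne_zero).finite
  have hsp : ∀ i, Algebra.IsSeparable (RatFunc κ) (AdjoinRoot (f i)) := fun i =>
    isSeparable_adjoinRoot (f i) (hfs i) (hfm i)
  let pbL : ∀ i, PowerBasis (RatFunc κ) (AdjoinRoot (f i)) := fun i =>
    AdjoinRoot.powerBasis (hirr i).ne_zero
  have hmin : ∀ i, minpoly (RatFunc κ) (pbL i).gen = f i := by
    intro i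
    have : (pbL i).gen = AdjoinRoot.root (f i) := rfl
    rw [this, AdjoinRoot.minpoly_root (hirr i).ne_zero, (hfm i).leadingCoeff, inv_one, C_1, mul_one]
  have hκ := fun j => height_model_map π (fun i => AdjoinRoot (f i)) pbL G hG
    (by rw [← hGκ, hprod]; exact Finset.prod_congr rfl fun i _ => (hmin i).symm)
    (fun l => MvPolynomial.aeval η (B j l)) M (hM j) N0 hinj hN0 (g j) (hgκ j) (n j) (u j)
    (hn j) (hu j)
  have hk := fun j => height_model_map ι (fun _ : Unit => K) (fun _ => pb) G hG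
    (by rw [hGk]; simp)
    (fun l => MvPolynomial.aeval η (B j l)) M (hM j) N0
    (fun x y _ _ h => Nat.cast_injective h) hN0 (g j) (hgk j) (n j) (u j)
    (hn j) (hu j)
  refine ⟨s, fun i => AdjoinRoot (f i), inferInstance, inferInstance, inferInstance, inferInstance,
    hfin, hsp, fun i a => aeval (pbL i).gen (((η a).map (mapRingHom π)).map ψ), ?_, ?_⟩
  · intro i j
    obtain ⟨l, hl⟩ := (hκ j).1 i
    refine ⟨l, ?_⟩
    rwa [aeval_gen_map] at hl
  · intro j
    have h1 := (hκ j).2
    have h2 := (hk j).2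
    simp only [aeval_gen_map, Finset.univ_unique, Finset.sum_singleton] at h1 h2
    rw [h1, h2, hdg j]
    congr 2
    refine Finset.sup_congr rfl fun a ha => ?_
    exact (hdn j a (Finset.mem_range.mp ha)).symm

end NefRed
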