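import Pool.Agent.Lib_helper87.Nef.Spread2

namespace NefRed

open scoped WithZero
open Polynomial IntermediateField

lemma clear_denoms {k : Type} [Field k] {ι : Type} [Fintype ι] (q : ι → (RatFunc k)[X]) :
    ∃ b : k[X], b ≠ 0 ∧ ∃ η : ι → k[X][X], ∀ i,
      (η i).map (algebraMap k[X] (RatFunc k)) = C (algebraMap k[X] (RatFunc k) b) * q i := by
  classical
  have h := fun i => IsLocalization.integerNormalization_spec (nonZeroDivisors k[X]) (q i)
  choose b hb0 hb using h
  refine ⟨∏ i, (b i : k[X]), Finset.prod_ne_zero_iff.mpr fun i _ =>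
    nonZeroDivisors.ne_zero (hb0 i), fun i => C (∏ j ∈ Finset.univ.erase i, (b j : k[X])) *
      IsLocalization.integerNormalization (nonZeroDivisors k[X]) (q i), fun i => ?_⟩
  rw [Polynomial.map_mul, hb i, Polynomial.map_C]
  rw [← Finset.mul_prod_erase Finset.univ _ (Finset.mem_univ i), map_mul, C_mul]
  have : b i • q i = C (algebraMap k[X] (RatFunc k) (b i : k[X])) * q i := by
    rw [← algebraMap_smul (RatFunc k), smul_eq_C_mul]
  rw [this]
  ring

theorem exists_model (k : Type) [Field k] [CharZero k] (K : Type) [Field K] [Algebra k K]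
    (hK : IsFunctionField k K) {m : ℕ} (y : Fin m → K) :
    ∃ (_ : Algebra (RatFunc k) K) (_ : IsScalarTower k (RatFunc k) K)
      (_ : FiniteDimensional (RatFunc k) K) (_ : Algebra.IsSeparable (RatFunc k) K)
      (pb : PowerBasis (RatFunc k) K) (G : k[X][X]) (η : Fin m → k[X][X]) (c : K),
      G.Monic ∧ G.map (algebraMap k[X] (RatFunc k)) = minpoly (RatFunc k) pb.gen ∧ c ≠ 0 ∧
      ∀ i, c * y i = aeval pb.gen ((η i).map (algebraMap k[X] (RatFunc k))) := by
  classical
  obtain ⟨T, hT, hfin⟩ := hK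
  let e := RatFunc.algEquivOfTranscendental T hT
  let alg : Algebra (RatFunc k) K := ((algebraMap k⟮T⟯ K).comp (e : RatFunc k →+* k⟮T⟯)).toAlgebra
  have halg : ∀ x : RatFunc k, algebraMap (RatFunc k) K x = algebraMap k⟮T⟯ K (e x) := fun x => rfl
  have tower : IsScalarTower k (RatFunc k) K := by
    refine IsScalarTower.of_algebraMap_eq fun x => ?_
    rw [halg, AlgEquiv.commutes, ← IsScalarTower.algebraMap_apply]
  have fd : FiniteDimensional (RatFunc k) K := by
    refine Module.Finite.of_equiv_equiv (A₁ := k⟮T⟯) (B₁ := K) (e.symm : k⟮T⟯ ≃+* RatFunc k)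
      (RingEquiv.refl K) ?_
    ext x
    simp [halg]
  have ch : CharZero (RatFunc k) := charZero_of_injective_algebraMap (algebraMap k (RatFunc k)).injective
  have sep : Algebra.IsSeparable (RatFunc k) K := inferInstance
  refine ⟨alg, tower, fd, sep, ?_⟩
  -- primitive element
  obtain ⟨θ, hθ⟩ := Field.exists_primitive_element (RatFunc k) K
  let : Algebra k[X] K := ((algebraMap (RatFunc k) K).comp (algebraMap k[X] (RatFunc k))).toAlgebra
  have : IsScalarTower k[X] (RatFunc k) K := IsScalarTower.of_algebraMap_eq fun x => rfl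
  have hθalg : IsAlgebraic k[X] θ := by
    rw [IsFractionRing.isAlgebraic_iff k[X] (RatFunc k) K]
    exact (Algebra.IsAlgebraic.isAlgebraic θ)
  obtain ⟨a, ha, hint⟩ := hθalg.exists_integral_multiple
  have ha' : algebraMap k[X] (RatFunc k) a ≠ 0 :=
    (map_ne_zero_iff _ (RatFunc.algebraMap_injective k)).mpr ha
  set α : K := a • θ with hα
  have hα' : α = algebraMap (RatFunc k) K (algebraMap k[X] (RatFunc k) a) * θ := by
    rw [hα, Algebra.smul_def]; rfl
  have hadj : (RatFunc k)⟮α⟯ = ⊤ := by
    rw [eq_top_iff, ← hθ, adjoin_simple_le_iff]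
    have h1 : θ = (algebraMap (RatFunc k) K (algebraMap k[X] (RatFunc k) a))⁻¹ * α := by
      rw [hα', inv_mul_cancel_left₀]
      exact (_root_.map_ne_zero _).mpr ha'
    rw [h1, ← map_inv₀]
    exact mul_mem (IntermediateField.algebraMap_mem _ _) (mem_adjoin_simple_self _ _)
  have hαint : IsIntegral (RatFunc k) α := Algebra.IsIntegral.isIntegral α
  have hadj' : Algebra.adjoin (RatFunc k) {α} = ⊤ := by
    have := IntermediateField.adjoin_simple_toSubalgebra_of_isAlgebraic hαint.isAlgebraic
    rw [← this, hadj]; rfl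
  let pb : PowerBasis (RatFunc k) K := PowerBasis.ofAdjoinEqTop hαint hadj'
  have hgen : pb.gen = α := PowerBasis.ofAdjoinEqTop_gen _ _
  have hmin : minpoly (RatFunc k) α = (minpoly k[X] α).map (algebraMap k[X] (RatFunc k)) :=
    minpoly.isIntegrallyClosed_eq_field_fractions (RatFunc k) K hint
  -- coordinates
  have hy : ∀ i, ∃ q : (RatFunc k)[X], y i = aeval pb.gen q := fun i => by
    have : y i ∈ Algebra.adjoin (RatFunc k) {α} := by rw [hadj']; trivial
    rw [Algebra.adjoin_singleton_eq_range_aeval] at this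
    obtain ⟨q, hq⟩ := this
    exact ⟨q, by rw [hgen]; exact hq.symm⟩
  choose q hq using hy
  obtain ⟨b, hb, η, hη⟩ := clear_denoms q
  refine ⟨pb, minpoly k[X] α, η, algebraMap (RatFunc k) K (algebraMap k[X] (RatFunc k) b),
    minpoly.monic hint, by rw [hgen, hmin], ?_, fun i => ?_⟩
  · exact (_root_.map_ne_zero _).mpr ((map_ne_zero_iff _ (RatFunc.algebraMap_injective k)).mpr hb)
  · rw [hη i, map_mul, aeval_C, hq i]

end NefRed
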