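import Pool.Agent.Lib_helper87.Nef.Spread3

namespace NefRed

open scoped WithZero
open Polynomial IntermediateField Filter

section Val

variable (k : Type) [Field k] [CharZero k]

/-- Existence of valuation subrings above a prime. -/
lemma exists_above (p : ℕ) (hp : p.Prime) :
    ∃ V : ValuationSubring k, (p : k) ∈ V.nonunits := by
  let A : Subring k := (Int.castRingHom k).range
  let x : A := ⟨(p : k), ⟨(p : ℤ), by simp⟩⟩
  have hI : Ideal.span {x} ≠ ⊤ := by
    intro h
    rw [Ideal.eq_top_iff_one, Ideal.mem_span_singleton] at h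
    obtain ⟨⟨_, ⟨y, rfl⟩⟩, hy⟩ := h
    have h1 : ((p : ℤ) * y : ℤ) = 1 := by
      have := congrArg Subtype.val hy
      simp only [x, Subring.coe_one, Subring.coe_mul] at this
      have h2 : ((1 : ℤ) : k) = (((p : ℤ) * y : ℤ) : k) := by
        push_cast
        simpa using this
      exact (Int.cast_injective h2).symm
    have h3 : (p : ℤ) ∣ 1 := ⟨y, h1.symm⟩
    have h4 := Int.natAbs_dvd_natAbs.mpr h3
    simp at h4
    exact hp.one_lt.ne' h4
  obtain ⟨V, _, hV⟩ := Ideal.image_subset_nonunits_valuationSubring (Ideal.span {x}) hI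
  exact ⟨V, hV ⟨x, Ideal.mem_span_singleton_self x, rfl⟩⟩

/-- Filter of valuation subrings above large primes. -/
def nf : Filter (ValuationSubring k) :=
  ⨅ n : ℕ, 𝓟 {V | ∃ p : ℕ, p.Prime ∧ n < p ∧ (p : k) ∈ V.nonunits}

lemma eventually_nf {P : ValuationSubring k → Prop} :
    (∀ᶠ V in nf k, P V) ↔
      ∃ n : ℕ, ∀ V : ValuationSubring k, ∀ p : ℕ, p.Prime → n < p → (p : k) ∈ V.nonunits → P V := by
  have hb := Filter.hasBasis_iInf_principal
    (s := fun n : ℕ => {V : ValuationSubring k | ∃ p : ℕ, p.Prime ∧ n < p ∧ (p : k) ∈ V.nonunits})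
    (by
      intro a b
      refine ⟨max a b, ?_, ?_⟩
      · rintro V ⟨p, hp, h1, h2⟩
        exact ⟨p, hp, lt_of_le_of_lt (le_max_left _ _) h1, h2⟩
      · rintro V ⟨p, hp, h1, h2⟩
        exact ⟨p, hp, lt_of_le_of_lt (le_max_right _ _) h1, h2⟩)
  rw [nf, hb.eventually_iff]
  constructor
  · rintro ⟨n, _, h⟩
    exact ⟨n, fun V p hp h1 h2 => h ⟨p, hp, h1, h2⟩⟩
  · rintro ⟨n, h⟩
    exact ⟨n, trivial, fun V ⟨p, hp, h1, h2⟩ => h V p hp h1 h2⟩

variable {k}

lemma int_unit_of_lt (y : ℤ) (hy : y ≠ 0) (V : ValuationSubring k) (p : ℕ) (hp : p.Prime)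
    (h1 : y.natAbs < p) (h2 : (p : k) ∈ V.nonunits) : V.valuation (y : k) = 1 := by
  have hle : V.valuation (y : k) ≤ 1 := (V.valuation_le_one_iff _).mpr (intCast_mem V y)
  refine le_antisymm hle ?_
  by_contra hlt
  rw [not_le] at hlt
  have hcop : IsCoprime y (p : ℤ) := by
    rw [Int.isCoprime_iff_gcd_eq_one, Int.gcd_comm]
    have : ¬ (p : ℤ) ∣ y := by
      intro h
      have h3 := Int.natAbs_dvd_natAbs.mpr h
      simp only [Int.natAbs_natCast] at h3
      have := Nat.le_of_dvd (Int.natAbs_pos.mpr hy) h3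
      omega
    have h4 := (Nat.Prime.coprime_iff_not_dvd hp).mpr (fun h => this (Int.natCast_dvd.mpr h))
    simpa [Int.gcd] using h4
  obtain ⟨a, b, hab⟩ := hcop
  have h5 : ((a : k) * y + b * p) = 1 := by exact_mod_cast congrArg (Int.cast : ℤ → k) hab
  have h6 : V.valuation ((a : k) * y + b * p) < 1 := by
    refine Valuation.map_add_lt _ ?_ ?_
    · rw [map_mul]
      have : V.valuation (a : k) ≤ 1 := (V.valuation_le_one_iff _).mpr (intCast_mem V a)
      exact lt_of_le_of_lt (mul_le_of_le_one_left' this) hlt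
    · rw [map_mul]
      have : V.valuation (b : k) ≤ 1 := (V.valuation_le_one_iff _).mpr (intCast_mem V b)
      exact lt_of_le_of_lt (mul_le_of_le_one_left' this) (V.mem_nonunits_iff.mp h2)
  rw [h5, map_one] at h6
  exact lt_irrefl _ h6

lemma eventually_mem [Algebra.IsAlgebraic ℚ k] (a : k) : ∀ᶠ V in nf k, a ∈ V := by
  have h1 : IsAlgebraic ℤ a := by
    rw [IsFractionRing.isAlgebraic_iff ℤ ℚ k]
    exact Algebra.IsAlgebraic.isAlgebraic a
  obtain ⟨y, hy, hint⟩ := h1.exists_integral_multiple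
  rw [eventually_nf]
  refine ⟨y.natAbs, fun V p hp h2 h3 => ?_⟩
  have hu := int_unit_of_lt y hy V p hp h2 h3
  have h4 : y • a ∈ V := by
    have h5 : IsIntegral V (y • a) := hint.tower_top
    have h6 : V.valuation.Integers V :=
      ⟨Subtype.val_injective, fun x => V.valuation_le_one x,
        fun x hx => ⟨⟨x, (V.valuation_le_one_iff x).mp hx⟩, rfl⟩⟩
    exact (V.valuation_le_one_iff _).mp (h6.isIntegral_iff_v_le_one.mp h5)
  rw [← V.valuation_le_one_iff] at h4 ⊢
  rwa [zsmul_eq_mul, map_mul, hu, one_mul] at h4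

lemma eventually_unit [Algebra.IsAlgebraic ℚ k] (a : k) (ha : a ≠ 0) :
    ∀ᶠ V in nf k, V.valuation a = 1 := by
  filter_upwards [eventually_mem a, eventually_mem a⁻¹] with V h1 h2
  rw [← V.valuation_le_one_iff] at h1 h2
  rw [map_inv₀] at h2
  have h3 : 0 < V.valuation a := zero_lt_iff.mpr ((Valuation.ne_zero_iff _).mpr ha)
  rw [inv_le_one₀ h3] at h2
  exact le_antisymm h1 h2

lemma eventually_lift [Algebra.IsAlgebraic ℚ k] (P : k[X]) :
    ∀ᶠ V : ValuationSubring k in nf k, ∃ Q : Polynomial V, Q.map V.subtype = P := by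
  have h : ∀ᶠ V in nf k, ∀ n ∈ P.support, P.coeff n ∈ V :=
    (Filter.eventually_all_finset _).mpr fun n _ => eventually_mem _
  filter_upwards [h] with V hV
  have : P ∈ Polynomial.lifts V.subtype := by
    rw [Polynomial.lifts_iff_coeff_lifts]
    intro n
    by_cases hn : n ∈ P.support
    · exact ⟨⟨_, hV n hn⟩, rfl⟩
    · rw [Polynomial.notMem_support_iff] at hn
      exact ⟨0, by rw [hn, map_zero]⟩
  exact (Polynomial.mem_lifts _).mp this

lemma eventually_lift2 [Algebra.IsAlgebraic ℚ k] (P : k[X][X]) :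
    ∀ᶠ V : ValuationSubring k in nf k, ∃ Q : Polynomial (Polynomial V), Q.map (mapRingHom V.subtype) = P := by
  have h : ∀ᶠ V : ValuationSubring k in nf k, ∀ n ∈ P.support, ∃ Q : Polynomial V, Q.map V.subtype = P.coeff n :=
    (Filter.eventually_all_finset _).mpr fun n _ => eventually_lift _
  filter_upwards [h] with V hV
  have : P ∈ Polynomial.lifts (mapRingHom V.subtype) := by
    rw [Polynomial.lifts_iff_coeff_lifts]
    intro n
    by_cases hn : n ∈ P.support
    · obtain ⟨Q, hQ⟩ := hV n hn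
      exact ⟨Q, hQ⟩
    · rw [Polynomial.notMem_support_iff] at hn
      exact ⟨0, by rw [hn, map_zero]⟩
  exact (Polynomial.mem_lifts _).mp this

end Val

end NefRed
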