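import Pool.Agent.Lib_helper87.Nef.Spread4

namespace NefRed

open scoped WithZero
open Polynomial IntermediateField Filter

section Residue

variable {k : Type} [Field k]

lemma residue_charP (V : ValuationSubring k) (p : ℕ) (hp : p.Prime) (h : (p : k) ∈ V.nonunits) :
    CharP (IsLocalRing.ResidueField V) p := by
  have h0 : ((p : ℕ) : IsLocalRing.ResidueField V) = 0 := by
    have h1 : ((p : V) : k) ∈ V.nonunits := by simpa using h
    rw [V.coe_mem_nonunits_iff] at h1
    have := (IsLocalRing.residue_eq_zero_iff (p : V)).mpr h1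
    simpa using this
  obtain ⟨q, hq⟩ := CharP.exists (IsLocalRing.ResidueField V)
  have h1 : q ∣ p := (CharP.cast_eq_zero_iff _ q p).mp h0
  rcases (Nat.dvd_prime hp).mp h1 with h2 | h2
  · subst h2
    exact absurd rfl (CharP.char_ne_one (IsLocalRing.ResidueField V) 1)
  · rwa [h2] at hq

lemma residue_isAlgClosed [IsAlgClosed k] (V : ValuationSubring k) :
    IsAlgClosed (IsLocalRing.ResidueField V) := by
  refine IsAlgClosed.of_exists_root _ fun q hq hirr => ?_
  have hl : q ∈ Polynomial.lifts (IsLocalRing.residue V) := by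
    rw [Polynomial.lifts_iff_coeff_lifts]
    intro n
    exact IsLocalRing.residue_surjective _
  obtain ⟨Q, hQ, hdeg, hmon⟩ := Polynomial.lifts_and_natDegree_eq_and_monic hl hq
  have hd : (Q.map V.subtype).degree ≠ 0 := by
    rw [hmon.degree_map, degree_eq_natDegree hmon.ne_zero, hdeg]
    have := hirr.natDegree_pos
    exact_mod_cast this.ne'
  obtain ⟨x, hx⟩ := IsAlgClosed.exists_root _ hd
  have hxint : IsIntegral V x := ⟨Q, hmon, by
    rw [IsRoot.def, eval_map] at hx
    exact hx⟩
  have h6 : V.valuation.Integers V :=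
    ⟨Subtype.val_injective, fun x => V.valuation_le_one x,
      fun x hx => ⟨⟨x, (V.valuation_le_one_iff x).mp hx⟩, rfl⟩⟩
  have hxV : x ∈ V := (V.valuation_le_one_iff _).mp (h6.isIntegral_iff_v_le_one.mp hxint)
  refine ⟨IsLocalRing.residue V ⟨x, hxV⟩, ?_⟩
  have h7 : Q.eval (⟨x, hxV⟩ : V) = 0 := by
    apply Subtype.val_injective
    have h8 : V.subtype (Q.eval (⟨x, hxV⟩ : V)) = (Q.map V.subtype).eval x := by
      rw [eval_map, ← eval₂_at_apply]; rfl
    rw [IsRoot.def] at hx
    rw [hx] at h8
    exact h8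
  rw [← hQ, eval_map, eval₂_at_apply, h7, map_zero]

lemma residue_natDegree (V : ValuationSubring k) (Q : V[X])
    (h : Q ≠ 0 → V.valuation ((Q.map V.subtype).leadingCoeff) = 1) :
    (Q.map V.subtype).natDegree = (Q.map (IsLocalRing.residue V)).natDegree ∧
      (Q ≠ 0 → Q.map (IsLocalRing.residue V) ≠ 0) := by
  have hinj : Function.Injective V.subtype := Subtype.val_injective
  by_cases h0 : Q = 0
  · subst h0; simp
  · have h1 := h h0
    rw [leadingCoeff_map_of_injective hinj] at h1
    have h2 : IsLocalRing.residue V Q.leadingCoeff ≠ 0 := by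
      rw [IsLocalRing.residue_ne_zero_iff_isUnit]
      exact (V.valuation_eq_one_iff _).mpr h1
    refine ⟨?_, fun _ => ?_⟩
    · rw [natDegree_map_eq_of_injective hinj, natDegree_map_of_leadingCoeff_ne_zero _ h2]
    · intro h3
      apply h2
      have := congrArg (fun P => Polynomial.coeff P Q.natDegree) h3
      simpa using this

end Residue

/-- The resultant is the norm (single field). -/
lemma res_eq_norm (k : Type) [Field k] (K : Type) [Field K] [Algebra (RatFunc k) K]
    [FiniteDimensional (RatFunc k) K] [Algebra.IsSeparable (RatFunc k) K]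
    (pb : PowerBasis (RatFunc k) K) (G : k[X][X]) (hG : G.Monic)
    (hGk : G.map (algebraMap k[X] (RatFunc k)) = minpoly (RatFunc k) pb.gen)
    (s : k[X][X]) (M : ℕ) (hM : s.natDegree ≤ M) :
    algebraMap k[X] (RatFunc k) (G.resultant s G.natDegree M) =
      Algebra.norm (RatFunc k) (aeval pb.gen (s.map (algebraMap k[X] (RatFunc k)))) := by
  have h1 : (G.map (algebraMap k[X] (RatFunc k))).natDegree = G.natDegree := hG.natDegree_map _
  rw [← resultant_map_map, ← h1, hGk, norm_aeval_eq_resultant pb _ M (natDegree_map_le.trans hM)]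

lemma aeval_comb {k K : Type} [Field k] [Field K] [Algebra (RatFunc k) K] [Algebra k K]
    [IsScalarTower k (RatFunc k) K] {r : ℕ} (b : Fin r → k[X][X])
    (c : k) (x : K) : aeval x ((comb b c).map (algebraMap k[X] (RatFunc k))) =
      ∑ l : Fin r, algebraMap k K (c ^ (l : ℕ)) * aeval x ((b l).map (algebraMap k[X] (RatFunc k))) := by
  unfold comb
  rw [Polynomial.map_sum, map_sum]
  refine Finset.sum_congr rfl fun l _ => ?_
  rw [Polynomial.map_mul, map_mul, Polynomial.map_C, aeval_C]
  congr 1
  rw [IsScalarTower.algebraMap_apply k (RatFunc k) K]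
  congr 1

/-- Existence of gcd data. -/
lemma exists_gcd_data {k : Type} [Field k] (N0 : ℕ) (res : ℕ → k[X]) (hne : ∃ a < N0, res a ≠ 0) :
    ∃ (g : k[X]) (n u : ℕ → k[X]), g ≠ 0 ∧ (∀ a < N0, res a = g * n a) ∧
      ∑ a ∈ Finset.range N0, u a * n a = 1 := by
  classical
  let I : Ideal k[X] := Ideal.span (Set.range fun a : Fin N0 => res a)
  obtain ⟨g, hg⟩ := (IsPrincipalIdealRing.principal I)
  have hgI : g ∈ I := by rw [hg]; exact Submodule.mem_span_singleton_self g
  have hdvd : ∀ a < N0, ∃ n, res a = g * n := by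
    intro a ha
    have h1 : res a ∈ I := Ideal.subset_span ⟨⟨a, ha⟩, rfl⟩
    rw [hg, Submodule.mem_span_singleton] at h1
    obtain ⟨n, hn⟩ := h1
    exact ⟨n, by rw [← hn, smul_eq_mul, mul_comm]⟩
  have hg0 : g ≠ 0 := by
    obtain ⟨a, ha, hne⟩ := hne
    obtain ⟨n, hn⟩ := hdvd a ha
    intro h
    rw [h, zero_mul] at hn
    exact hne hn
  obtain ⟨c, hc⟩ := Ideal.mem_span_range_iff_exists_fun.mp hgI
  let n : ℕ → k[X] := fun a => if h : a < N0 then (hdvd a h).choose else 0
  have hn : ∀ a < N0, res a = g * n a := by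
    intro a ha
    have : n a = (hdvd a ha).choose := by simp only [n, dif_pos ha]
    rw [this]
    exact (hdvd a ha).choose_spec
  let u : ℕ → k[X] := fun a => if h : a < N0 then c ⟨a, h⟩ else 0
  refine ⟨g, n, u, hg0, hn, ?_⟩
  have h1 : g * ∑ a ∈ Finset.range N0, u a * n a = g * 1 := by
    rw [mul_one, Finset.mul_sum]
    conv_rhs => rw [← hc]
    rw [← Fin.sum_univ_eq_sum_range (fun a => g * (u a * n a))]
    refine Finset.sum_congr rfl fun a _ => ?_
    rw [hn a a.2]
    simp only [u, dif_pos a.2, Fin.eta]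
    ring
  exact mul_left_cancel₀ hg0 h1

/-- Some combination does not vanish. -/
lemma exists_comb_ne {k K : Type} [Field k] [CharZero k] [Field K] [Algebra k K] {r N0 : ℕ}
    (x : Fin r → K) (hx : ∃ l, x l ≠ 0) (hN0 : r ≤ N0) :
    ∃ a < N0, ∑ l : Fin r, algebraMap k K ((a : k) ^ (l : ℕ)) * x l ≠ 0 := by
  classical
  by_contra hcon
  push Not at hcon
  let P : K[X] := ∑ l : Fin r, monomial (l : ℕ) (x l)
  have hP : P ≠ 0 := by
    obtain ⟨l, hl⟩ := hx
    intro h
    apply hl
    have h1 := congrArg (fun Q => Polynomial.coeff Q (l : ℕ)) h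
    simp only [P, finsetSum_coeff, coeff_monomial, coeff_zero] at h1
    rw [Finset.sum_eq_single l] at h1
    · simpa using h1
    · intro b _ hb
      rw [if_neg]
      exact fun h => hb (Fin.ext h)
    · intro h; exact absurd (Finset.mem_univ l) h
  have hroots : ∀ a : ℕ, a < N0 → P.IsRoot ((a : K)) := by
    intro a ha
    have := hcon a ha
    rw [IsRoot.def]
    simp only [P, eval_finsetSum, eval_monomial]
    rw [← this]
    refine Finset.sum_congr rfl fun l _ => ?_
    rw [map_pow, map_natCast, mul_comm]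
  have hdeg : P.degree < r := by
    refine (degree_sum_le _ _).trans_lt ?_
    rw [Finset.sup_lt_iff (WithBot.bot_lt_coe _)]
    intro l _
    refine (degree_monomial_le _ _).trans_lt ?_
    exact_mod_cast l.2
  have : CharZero K := charZero_of_injective_algebraMap (algebraMap k K).injective
  have h2 : (Finset.range N0).image (fun a : ℕ => (a : K)) ⊆ P.roots.toFinset := by
    intro y hy
    obtain ⟨a, ha, rfl⟩ := Finset.mem_image.mp hy
    rw [Multiset.mem_toFinset, mem_roots hP]
    exact hroots a (Finset.mem_range.mp ha)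
  have h3 := Finset.card_le_card h2
  rw [Finset.card_image_of_injective _ Nat.cast_injective, Finset.card_range] at h3
  have h4 : P.roots.toFinset.card ≤ P.natDegree := (Multiset.toFinset_card_le _).trans (card_roots' P)
  have h5 : P.natDegree < r := (natDegree_lt_iff_degree_lt hP).mpr hdeg
  omega

end NefRed
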