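import Pool.Agent.Lib_helper87.Nef.XKernel
import Pool.Agent.Lib_helper87.Nef.NefZero
import Pool.Agent.Lib_helper87.Nef.Curve

/-!
# Points of our variety over function fields
-/

namespace Nef87

open Finset
open scoped WithZero
open NefRed

/-- The relations between the blocks. -/
lemma mem_graphIdeal_minor (S : OddSet) (l m : Fin 5) :
    (MvPolynomial.X (some S, l) * projS S (fun i => MvPolynomial.X (none, i)) m -
      MvPolynomial.X (some S, m) * projS S (fun i => MvPolynomial.X (none, i)) l :
      MvPolynomial (Option OddSet × Fin 5) ℤ) ∈ graphIdeal blocks := by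
  have h1 : ∀ l : Fin 5, phi blocks (projS S (fun i => MvPolynomial.X (none, i)) l) =
      MvPolynomial.X (Sum.inr none) *
        MvPolynomial.rename Sum.inl (projS S (MvPolynomial.X : Fin 5 → MvPolynomial (Fin 5) ℤ) l) := by
    intro l
    unfold projS
    split_ifs <;> simp [phi, blocks] <;> ring
  have h2 : ∀ l : Fin 5, phi blocks (MvPolynomial.X (some S, l)) =
      MvPolynomial.X (Sum.inr (some S)) *
        MvPolynomial.rename Sum.inl (projS S (MvPolynomial.X : Fin 5 → MvPolynomial (Fin 5) ℤ) l) := by
    intro l
    simp [phi, blocks]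
  change phi blocks _ = 0
  rw [map_sub, map_mul, map_mul, h1, h1, h2, h2]
  ring

lemma aeval_projS {K : Type} [Field K] (x : Option OddSet → Fin 5 → K) (S : OddSet) (l : Fin 5) :
    MvPolynomial.aeval (fun jl : Option OddSet × Fin 5 => x jl.1 jl.2)
      (projS S (fun i => (MvPolynomial.X (none, i) :
        MvPolynomial (Option OddSet × Fin 5) ℤ)) l) = projS S (x none) l := by
  unfold projS
  split_ifs <;> simp

lemma rel_of_point {K : Type} [Field K] {x : Option OddSet → Fin 5 → K}
    (hx : ∀ f ∈ graphIdeal blocks,
      MvPolynomial.aeval (fun jl : Option OddSet × Fin 5 => x jl.1 jl.2) f = 0)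
    (S : OddSet) (l m : Fin 5) :
    x (some S) l * projS S (x none) m = x (some S) m * projS S (x none) l := by
  have h := hx _ (mem_graphIdeal_minor S l m)
  rw [map_sub, map_mul, map_mul, aeval_projS, aeval_projS, MvPolynomial.aeval_X,
    MvPolynomial.aeval_X, sub_eq_zero] at h
  exact h

lemma degO1_nonneg {k K ι : Type} [Field k] [IsAlgClosed k] [Field K] [Algebra k K]
    [Algebra (RatFunc k) K] [IsScalarTower k (RatFunc k) K]
    [FiniteDimensional (RatFunc k) K] [Algebra.IsSeparable (RatFunc k) K] [Fintype ι]
    (x : ι → K) (hx : ∃ i, x i ≠ 0) : 0 ≤ degO1 k x := by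
  classical
  obtain ⟨i, hi⟩ := hx
  rw [← product_formula k K (x i) hi]
  refine finsum_le_finsum' (log_support_finite (k := k) hi)
    (vmax_support_finite (k := k) x ⟨i, hi⟩) fun v => ?_
  exact (WithZero.log_le_log ((Valuation.ne_zero_iff _).mpr hi)
    (vmax_ne_zero v.val _ ⟨i, hi⟩)).mpr (le_vmax v.val x i)

/-- **Nonnegativity over `ℚbar`** at all points of our variety. -/
theorem nonneg_point (K : Type) [Field K] [Algebra (AlgebraicClosure ℚ) K]
    (hK : IsFunctionField (AlgebraicClosure ℚ) K) (x : Option OddSet → Fin 5 → K)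
    (hne : ∀ j, ∃ l, x j l ≠ 0)
    (hx : ∀ f ∈ graphIdeal blocks,
      MvPolynomial.aeval (fun jl : Option OddSet × Fin 5 => x jl.1 jl.2) f = 0) :
    0 ≤ ∑ S : OddSet, degO1 (AlgebraicClosure ℚ) (x (some S)) -
      14 * degO1 (AlgebraicClosure ℚ) (x none) := by
  classical
  obtain ⟨alg, tower, fd, sep, _⟩ := exists_model (AlgebraicClosure ℚ) K hK (x none)
  by_cases hS : ∀ S : OddSet, ∃ i, projS S (x none) i ≠ 0
  · have h1 := nonneg_char_zero K hK (x none) (hne none) hS
    have h2 : ∀ S : OddSet, degO1 (AlgebraicClosure ℚ) (x (some S)) =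
        degO1 (AlgebraicClosure ℚ) (projS S (x none)) := by
      intro S
      obtain ⟨m, hm⟩ := hS S
      obtain ⟨l, hl⟩ := hne (some S)
      have h3 : ∀ l, x (some S) l = (x (some S) m / projS S (x none) m) * projS S (x none) l := by
        intro l
        rw [div_mul_eq_mul_div, eq_div_iff hm]
        exact rel_of_point hx S l m
      have h4 : x (some S) m / projS S (x none) m ≠ 0 := by
        intro h0
        rw [h3, h0, zero_mul] at hl
        exact hl rfl
      rw [← degO1_smul (x (some S) m / projS S (x none) m) h4 (projS S (x none)) ⟨m, hm⟩]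
      congr 1
      exact funext h3
    rw [Finset.sum_congr rfl fun S _ => h2 S]
    exact h1
  · push Not at hS
    obtain ⟨S, hS⟩ := hS
    -- the point lies over a centre
    set μ := x none (S.1.min' S.nonempty) with hμ
    have hval : ∀ i, x none i = μ * (if i ∈ S.1 then 1 else 0) := by
      intro i
      have := hS i
      unfold projS at this
      split_ifs at this with hi
      · rw [if_pos hi, mul_one]; exact sub_eq_zero.mp this
      · rw [if_neg hi, mul_zero]; exact this
    have hμ0 : μ ≠ 0 := by
      intro h0
      obtain ⟨i, hi⟩ := hne none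
      rw [hval, h0, zero_mul] at hi
      exact hi rfl
    have hc : degO1 (AlgebraicClosure ℚ) (x none) = 0 := by
      have e : x none = fun i => μ * (if i ∈ S.1 then (1 : K) else 0) := funext hval
      rw [e, degO1_smul μ hμ0 _ ⟨S.1.min' S.nonempty, by
        rw [if_pos (S.1.min'_mem S.nonempty)]; exact one_ne_zero⟩]
      unfold degO1
      have h5 : ∀ v : Place (AlgebraicClosure ℚ) K,
          WithZero.log (vmax v.val fun i : Fin 5 => if i ∈ S.1 then (1 : K) else 0) = 0 := by
        intro v
        have h6 : vmax v.val (fun i : Fin 5 => if i ∈ S.1 then (1 : K) else 0) = 1 := by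
          apply le_antisymm
          · refine Finset.sup_le fun i _ => ?_
            beta_reduce
            split_ifs
            · rw [map_one]
            · rw [map_zero]; exact zero_le
          · have h7 := le_vmax v.val (fun i : Fin 5 => if i ∈ S.1 then (1 : K) else 0)
              (S.1.min' S.nonempty)
            beta_reduce at h7
            rw [if_pos (S.1.min'_mem S.nonempty), map_one] at h7
            exact h7
        rw [h6, WithZero.log_one]
      simp [h5]
    rw [hc, mul_zero, sub_zero]
    exact Finset.sum_nonneg fun S' _ => degO1_nonneg _ (hne (some S'))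

/-- The blocks of linear forms at `y`. -/
noncomputable def evalBlocks {K : Type} [Field K] (y : Fin 5 → K) : Option OddSet → Fin 5 → K :=
  fun j l => MvPolynomial.aeval y (blocks j l)

lemma evalBlocks_none {K : Type} [Field K] (y : Fin 5 → K) : evalBlocks y none = y :=
  funext fun l => aeval_blocks_none y l

lemma evalBlocks_some {K : Type} [Field K] (y : Fin 5 → K) (S : OddSet) :
    evalBlocks y (some S) = projS S y :=
  funext fun l => aeval_blocks_some S y l

lemma evalBlocks_ne {K : Type} [Field K] (y : Fin 5 → K) (hy : ∃ i, y i ≠ 0)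
    (hS : ∀ S : OddSet, ∃ i, projS S y i ≠ 0) (j : Option OddSet) :
    ∃ l, evalBlocks y j l ≠ 0 := by
  cases j with
  | none => rw [evalBlocks_none]; exact hy
  | some S => rw [evalBlocks_some]; exact hS S

lemma evalBlocks_mem {K : Type} [Field K] (y : Fin 5 → K) :
    ∀ f ∈ graphIdeal blocks,
      MvPolynomial.aeval (fun jl : Option OddSet × Fin 5 => evalBlocks y jl.1 jl.2) f = 0 := by
  intro f hf
  have h := graphIdeal_eval blocks y (fun _ => 1) f hf
  simp only [one_mul] at h
  exact h

end Nef87
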