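import Pool.Agent.Lib_helper87.Nef.LocalLog
import Pool.Agent.Lib_helper87.Nef.NefP

/-!
# Lower bound for the constant `c`
-/

namespace Nef87

open Polynomial Finset
open scoped WithZero
open NefRed

section Val

variable {K : Type} [Field K] {Γ : Type} [LinearOrderedCommGroupWithZero Γ] (v : Valuation K Γ)

lemma mem_O (x : K) : x ∈ v.valuationSubring ↔ v x ≤ 1 := Iff.rfl

lemma isUnit_O_iff (x : v.valuationSubring) : IsUnit x ↔ v (x : K) = 1 := by
  constructor
  · intro h
    obtain ⟨y, hy⟩ := isUnit_iff_exists_inv.mp h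
    have h1 : v (x : K) * v (y : K) = 1 := by
      rw [← map_mul, ← map_one v]
      congr 1
      exact congrArg Subtype.val hy
    have hx : v (x : K) ≤ 1 := x.2
    have hy' : v (y : K) ≤ 1 := y.2
    refine le_antisymm hx ?_
    calc (1 : Γ) = v (x : K) * v (y : K) := h1.symm
      _ ≤ v (x : K) * 1 := mul_le_mul' le_rfl hy'
      _ = v (x : K) := mul_one _
  · intro h
    have hx0 : (x : K) ≠ 0 := by
      intro h0
      rw [h0, map_zero] at h
      exact zero_ne_one h
    have hinv : v ((x : K)⁻¹) ≤ 1 := by rw [map_inv₀, h, inv_one]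
    refine isUnit_iff_exists_inv.mpr ⟨⟨(x : K)⁻¹, hinv⟩, ?_⟩
    exact Subtype.ext (mul_inv_cancel₀ hx0)

lemma res_eq_zero_iff (x : v.valuationSubring) :
    IsLocalRing.residue v.valuationSubring x = 0 ↔ v (x : K) < 1 := by
  rw [IsLocalRing.residue_eq_zero_iff, IsLocalRing.mem_maximalIdeal, mem_nonunits_iff,
    isUnit_O_iff]
  have hx : v (x : K) ≤ 1 := x.2
  exact ⟨fun h => lt_of_le_of_ne hx h, fun h => h.ne⟩

lemma charP_res {p : ℕ} [hp : Fact p.Prime] [CharP K p] :
    CharP (IsLocalRing.ResidueField v.valuationSubring) p := by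
  have h0 : ((p : ℕ) : v.valuationSubring) = 0 := by
    apply Subtype.ext
    have := CharP.cast_eq_zero K p
    simpa using this
  have h1 : ((p : ℕ) : IsLocalRing.ResidueField v.valuationSubring) = 0 := by
    have := congrArg (IsLocalRing.residue v.valuationSubring) h0
    simpa using this
  obtain ⟨q, hq⟩ := CharP.exists (IsLocalRing.ResidueField v.valuationSubring)
  have h2 : q ∣ p := (CharP.cast_eq_zero_iff _ q p).mp h1
  rcases (Nat.dvd_prime hp.out).mp h2 with h3 | h3
  · subst h3
    exact absurd rfl (CharP.char_ne_one (IsLocalRing.ResidueField v.valuationSubring) 1)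
  · rwa [h3] at hq

/-- Lifting integral polynomials. -/
lemma exists_lift_O (P : K[X]) (h : ∀ j, v (P.coeff j) ≤ 1) :
    ∃ Q : Polynomial v.valuationSubring, Q.map v.valuationSubring.subtype = P := by
  have : P ∈ Polynomial.lifts v.valuationSubring.subtype := by
    rw [Polynomial.lifts_iff_coeff_lifts]
    intro n
    exact ⟨⟨P.coeff n, h n⟩, rfl⟩
  exact (Polynomial.mem_lifts _).mp this

end Val

lemma derivative_mul_sq {A : Type*} [CommRing A] (F r : A[X]) :
    derivative (F * r ^ 2) = r * (2 * F * derivative r + derivative F * r) := by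
  rw [derivative_mul, derivative_pow]
  simp only [Nat.cast_ofNat, show (2 - 1 : ℕ) = 1 from rfl, pow_one]
  have h2 : (C (2 : A) : A[X]) = 2 := rfl
  rw [h2]
  ring

/-- Zooming into a cluster. -/
theorem zoom {K : Type} [Field K] {Γ : Type} [LinearOrderedCommGroupWithZero Γ]
    (v : Valuation K Γ) {m n : ℕ} [hp : Fact (2 * m + 3).Prime] [CharP K (2 * m + 3)]
    (z : Fin 6 → K) (T : Finset (Fin 6)) (hn : T.card + 2 * n = 2 * m + 3)
    (i₁ j₁ : Fin 6) (hi₁ : i₁ ∈ T) (hj₁ : j₁ ∈ T) (hz : z j₁ = 0) (hz1 : z i₁ ≠ 0)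
    (hd : v (z i₁) < 1) (hT : ∀ i ∈ T, v (z i) ≤ v (z i₁)) (hout : ∀ i ∉ T, v (z i) = 1)
    (R : K[X]) (hR : ∀ j, v (R.coeff j) ≤ 1) (hRn : v (R.coeff n) = 1) (c : K)
    (hE : 2 * fz z * derivative R + derivative (fz z) * R = C c) :
    v (z i₁) ^ (n + (T.card - 1)) ≤ v c := by
  classical
  set τ := z i₁ with hτ
  set O := v.valuationSubring with hO
  set r := R.comp (C τ * X) with hr
  have hrc : ∀ j, r.coeff j = R.coeff j * τ ^ j := by
    intro j
    rw [hr, comp_C_mul_X_coeff]
  have hRn0 : R.coeff n ≠ 0 := by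
    intro h; rw [h, map_zero] at hRn; exact zero_ne_one hRn
  have hrn0 : r.coeff n ≠ 0 := by
    rw [hrc]; exact mul_ne_zero hRn0 (pow_ne_zero _ hz1)
  obtain ⟨js, hjs, hmax⟩ := Finset.exists_max_image r.support (fun j => v (r.coeff j))
    ⟨n, mem_support_iff.mpr hrn0⟩
  set ρ := r.coeff js with hρ
  have hρ0 : ρ ≠ 0 := mem_support_iff.mp hjs
  have hvρ : v ρ ≠ 0 := (Valuation.ne_zero_iff v).mpr hρ0
  have hmax' : ∀ j, v (r.coeff j) ≤ v ρ := by
    intro j
    by_cases hj : j ∈ r.support
    · exact hmax j hj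
    · rw [notMem_support_iff.mp hj, map_zero]; exact zero_le
  have hρn : v τ ^ n ≤ v ρ := by
    have := hmax' n
    rwa [hrc, map_mul, hRn, one_mul, map_pow] at this
  -- normalised polynomial
  set rb := C ρ⁻¹ * r with hrb
  have hrbc : ∀ j, rb.coeff j = ρ⁻¹ * r.coeff j := fun j => by rw [hrb, coeff_C_mul]
  have hrb1 : ∀ j, v (rb.coeff j) ≤ 1 := by
    intro j
    rw [hrbc, map_mul, map_inv₀]
    calc (v ρ)⁻¹ * v (r.coeff j) ≤ (v ρ)⁻¹ * v ρ := mul_le_mul' le_rfl (hmax' j)
      _ = 1 := inv_mul_cancel₀ hvρ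
  have hrbbig : ∀ j, n < j → v (rb.coeff j) < 1 := by
    intro j hj
    rw [hrbc, map_mul, map_inv₀, hrc, map_mul, map_pow]
    have hvτ0 : v τ ≠ 0 := (Valuation.ne_zero_iff v).mpr hz1
    have h1 : v (R.coeff j) * v τ ^ j < v τ ^ n := by
      calc v (R.coeff j) * v τ ^ j ≤ 1 * v τ ^ j := mul_le_mul' (hR j) le_rfl
        _ = v τ ^ j := one_mul _
        _ < v τ ^ n := pow_lt_pow_right_of_lt_one₀ (zero_lt_iff.mpr hvτ0) hd hj
    calc (v ρ)⁻¹ * (v (R.coeff j) * v τ ^ j) < (v ρ)⁻¹ * v ρ :=
          mul_lt_mul_of_pos_left (lt_of_lt_of_le h1 hρn) (zero_lt_iff.mpr (inv_ne_zero hvρ))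
      _ = 1 := inv_mul_cancel₀ hvρ
  have hrbjs : rb.coeff js = 1 := by rw [hrbc]; exact inv_mul_cancel₀ hρ0
  -- the scaled sextic
  let yv : Fin 6 → K := fun i => z i / τ
  have hyv : ∀ i ∈ T, v (yv i) ≤ 1 := by
    intro i hi
    simp only [yv]
    rw [map_div₀]
    exact div_le_one_of_le₀ (hT i hi) zero_le
  set G₁ : K[X] := ∏ i ∈ T, (X - C (yv i)) with hG₁
  set H : K[X] := ∏ i ∈ Tᶜ, (C τ * X - C (z i)) with hH
  have hcomp : (fz z).comp (C τ * X) = C (τ ^ T.card) * (G₁ * H) := by
    unfold fz
    rw [← Finset.prod_mul_prod_compl T, mul_comp, Polynomial.prod_comp, Polynomial.prod_comp,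
      ← mul_assoc]
    congr 1
    · rw [hG₁, C_pow, ← Finset.prod_const, ← Finset.prod_mul_distrib]
      refine Finset.prod_congr rfl fun i _ => ?_
      simp only [sub_comp, X_comp, C_comp, yv]
      rw [mul_sub, ← C_mul, mul_div_cancel₀ _ hz1]
    · rw [hH]
      refine Finset.prod_congr rfl fun i _ => ?_
      simp
  -- transformed equation
  set cb : K := c * τ / (τ ^ T.card * ρ) with hcb
  have hτT : τ ^ T.card ≠ 0 := pow_ne_zero _ hz1
  have hrrb : r = C ρ * rb := by
    rw [hrb, ← mul_assoc, ← C_mul, mul_inv_cancel₀ hρ0, C_1, one_mul]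
  have heq : 2 * (G₁ * H) * derivative rb + derivative (G₁ * H) * rb = C cb := by
    have h1 := congrArg (fun P => P.comp (C τ * X)) hE
    simp only [add_comp, mul_comp, C_comp, ofNat_comp] at h1
    have hdR : C τ * (derivative R).comp (C τ * X) = derivative r := by
      rw [hr, derivative_comp]; simp
    have hdf : C τ * (derivative (fz z)).comp (C τ * X) = derivative ((fz z).comp (C τ * X)) := by
      rw [derivative_comp]; simp
    have h2 : 2 * (fz z).comp (C τ * X) * derivative r +
        derivative ((fz z).comp (C τ * X)) * r = C (c * τ) := by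
      rw [← hdR, ← hdf, C_mul, ← h1]
      ring
    rw [hcomp, hrrb] at h2
    simp only [derivative_mul, derivative_C, zero_mul, zero_add] at h2
    have h3 : C (τ ^ T.card * ρ) * (2 * (G₁ * H) * derivative rb + derivative (G₁ * H) * rb) =
        C (c * τ) := by
      have hGH : derivative (G₁ * H) = derivative G₁ * H + G₁ * derivative H := derivative_mul
      rw [← h2, C_mul, hGH]
      ring
    have h4 : C (τ ^ T.card * ρ) * C cb = (C (c * τ) : K[X]) := by
      rw [← C_mul, hcb, mul_div_cancel₀ _ (mul_ne_zero hτT hρ0)]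
    have h5 : (C (τ ^ T.card * ρ) : K[X]) ≠ 0 := C_ne_zero.mpr (mul_ne_zero hτT hρ0)
    exact mul_left_cancel₀ h5 (h3.trans h4.symm)
  -- the constant is not small
  have hcb1 : 1 ≤ v cb := by
    by_contra hlt
    rw [not_le] at hlt
    -- lift to the valuation ring
    obtain ⟨rO, hrO⟩ := exists_lift_O v rb hrb1
    let yO : Fin 6 → O := fun i => if h : i ∈ T then ⟨yv i, hyv i h⟩ else 0
    have hyO : ∀ i ∈ T, (yO i : K) = yv i := by
      intro i hi
      simp only [yO, dif_pos hi]
    let zO : Fin 6 → O := fun i => if h : i ∈ T then 0 else ⟨z i, (hout i h).le⟩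
    have hzO : ∀ i ∉ T, (zO i : K) = z i := by
      intro i hi
      simp only [zO, dif_neg hi]
    let τO : O := ⟨τ, hd.le⟩
    let cO : O := ⟨cb, hlt.le⟩
    let G₁O : O[X] := ∏ i ∈ T, (X - C (yO i))
    let HO : O[X] := ∏ i ∈ Tᶜ, (C τO * X - C (zO i))
    have hinj : Function.Injective (Polynomial.map O.subtype) :=
      Polynomial.map_injective _ Subtype.val_injective
    have hG₁O : G₁O.map O.subtype = G₁ := by
      simp only [G₁O, Polynomial.map_prod, Polynomial.map_sub, map_X, map_C, hG₁]
      refine Finset.prod_congr rfl fun i hi => ?_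
      rw [← hyO i hi]; rfl
    have hHO : HO.map O.subtype = H := by
      simp only [HO, Polynomial.map_prod, Polynomial.map_sub, Polynomial.map_mul, map_X, map_C, hH]
      refine Finset.prod_congr rfl fun i hi => ?_
      rw [← hzO i (by simpa using hi)]; rfl
    have heqO : 2 * (G₁O * HO) * derivative rO + derivative (G₁O * HO) * rO = C cO := by
      apply hinj
      have hrO' : rO.map O.subtype = rb := hrO
      simp only [Polynomial.map_add, Polynomial.map_mul, Polynomial.map_ofNat, ← derivative_map,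
        hG₁O, hHO, hrO', map_C]
      exact heq
    -- reduce
    let res := IsLocalRing.residue O
    have hchar : CharP (IsLocalRing.ResidueField O) (2 * m + 3) := charP_res v
    have h1 := congrArg (Polynomial.map res) heqO
    have hc0 : res cO = 0 := (res_eq_zero_iff v cO).mpr hlt
    rw [Polynomial.map_C, hc0, C_0] at h1
    simp only [Polynomial.map_add, Polynomial.map_mul, Polynomial.map_ofNat, ← derivative_map] at h1
    have hHres : HO.map res = C (∏ i ∈ Tᶜ, (-(res (zO i)))) := by
      simp only [HO, Polynomial.map_prod, Polynomial.map_sub, Polynomial.map_mul, map_X, map_C,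
        map_prod]
      refine Finset.prod_congr rfl fun i hi => ?_
      have : res τO = 0 := (res_eq_zero_iff v τO).mpr hd
      rw [this, C_0, zero_mul, zero_sub, C_neg]
    have hh0 : (∏ i ∈ Tᶜ, (-(res (zO i)))) ≠ 0 := by
      refine Finset.prod_ne_zero_iff.mpr fun i hi => neg_ne_zero.mpr ?_
      have hi' : i ∉ T := by simpa using hi
      intro h0
      have := (res_eq_zero_iff v (zO i)).mp h0
      rw [hzO i hi', hout i hi'] at this
      exact lt_irrefl _ this
    have hrres0 : rO.map res ≠ 0 := by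
      intro h0
      have h2 : res (rO.coeff js) = 0 := by
        rw [← coeff_map, h0, coeff_zero]
      have h3 : ((rO.coeff js : O) : K) = 1 := by
        have := congrArg (fun P => Polynomial.coeff P js) hrO
        simp only [coeff_map] at this
        rw [hrbjs] at this
        exact this
      have h4 := (res_eq_zero_iff v _).mp h2
      rw [h3, map_one] at h4
      exact lt_irrefl _ h4
    have hrdeg : (rO.map res).natDegree ≤ n := by
      rw [natDegree_le_iff_coeff_eq_zero]
      intro j hj
      rw [coeff_map]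
      refine (res_eq_zero_iff v _).mpr ?_
      have h3 : ((rO.coeff j : O) : K) = rb.coeff j := by
        have := congrArg (fun P => Polynomial.coeff P j) hrO
        simp only [coeff_map] at this
        exact this
      rw [h3]
      exact hrbbig j hj
    set g := (G₁O.map res * HO.map res) * (rO.map res) ^ 2 with hg
    have hG₁res : (G₁O.map res) = ∏ i ∈ T, (X - C (res (yO i))) := by
      simp only [G₁O, Polynomial.map_prod, Polynomial.map_sub, map_X, map_C]
    have hG₁mon : (G₁O.map res).Monic := by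
      rw [hG₁res]; exact monic_prod_of_monic _ _ fun i _ => monic_X_sub_C _
    have hg0 : g ≠ 0 := by
      rw [hg]
      refine mul_ne_zero (mul_ne_zero hG₁mon.ne_zero ?_) (pow_ne_zero _ hrres0)
      rw [hHres]; exact C_ne_zero.mpr hh0
    have hgd : derivative g = 0 := by
      rw [hg, derivative_mul_sq]
      rw [← Polynomial.map_mul, derivative_map] at h1 ⊢
      rw [Polynomial.map_mul] at h1
      rw [← Polynomial.map_mul] at h1
      rw [h1, mul_zero]
    have hgdeg : g.natDegree < 2 * (2 * m + 3) := by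
      have e1 : (G₁O.map res).natDegree = T.card := by
        rw [hG₁res, natDegree_prod_of_monic _ _ fun i _ => monic_X_sub_C _]
        simp
      have e2 : g.natDegree ≤ T.card + 0 + 2 * n := by
        rw [hg]
        refine (natDegree_mul_le).trans (add_le_add ((natDegree_mul_le).trans
          (add_le_add e1.le ?_)) ?_)
        · rw [hHres, natDegree_C]
        · refine (natDegree_pow_le).trans (Nat.mul_le_mul_left 2 hrdeg)
      omega
    have hroot : ∀ i ∈ T, g.eval (res (yO i)) = 0 := by
      intro i hi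
      rw [hg, eval_mul, eval_mul, hG₁res, eval_prod, Finset.prod_eq_zero hi (by simp), zero_mul,
        zero_mul]
    have h5 := roots_eq_of_lt hg0 hgd hgdeg (hroot i₁ hi₁) (hroot j₁ hj₁)
    have h6 : yO i₁ = 1 := by
      apply Subtype.ext
      rw [hyO i₁ hi₁]
      simp only [yv]
      rw [← hτ, div_self hz1]; rfl
    have h7 : yO j₁ = 0 := by
      apply Subtype.ext
      rw [hyO j₁ hj₁]
      simp only [yv]
      rw [hz, zero_div]; rfl
    rw [h6, h7, map_one, map_zero] at h5
    exact one_ne_zero h5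
  -- conclusion
  have hvτ0 : v τ ≠ 0 := (Valuation.ne_zero_iff v).mpr hz1
  have hcard : 1 ≤ T.card := Finset.card_pos.mpr ⟨i₁, hi₁⟩
  have h8 : v cb = v c * v τ / (v τ ^ T.card * v ρ) := by
    rw [hcb, map_div₀, map_mul, map_mul, map_pow]
  rw [h8, one_le_div₀ (zero_lt_iff.mpr (mul_ne_zero (pow_ne_zero _ hvτ0) hvρ))] at hcb1
  have h9 : v τ ^ (n + (T.card - 1)) * v τ ≤ v c * v τ := by
    calc v τ ^ (n + (T.card - 1)) * v τ = v τ ^ T.card * v τ ^ n := by
          rw [← pow_succ, ← pow_add]; congr 1; omega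
      _ ≤ v τ ^ T.card * v ρ := mul_le_mul' le_rfl hρn
      _ ≤ v c * v τ := hcb1
  exact le_of_mul_le_mul_right h9 (zero_lt_iff.mpr hvτ0)

end Nef87
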